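import Mathlib

/-!
# Resampling one coordinate of a product measure
-/

open MeasureTheory

namespace Pool.Agent.H991.TV

variable {ι : Type*} [Fintype ι] [DecidableEq ι] {α : ι → Type*} [∀ i, MeasurableSpace (α i)]

lemma measurable_upd (k : ι) :
    Measurable (fun p : (∀ i, α i) × α k => Function.update p.1 k p.2) := by
  refine measurable_pi_lambda _ fun i => ?_
  by_cases h : i = k
  · subst h
    simp only [Function.update_self]
    exact measurable_snd
  · simp only [Function.update_of_ne h]
    exact (measurable_pi_apply i).comp measurable_fst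

lemma mp_upd (μ : ∀ i, Measure (α i)) [∀ i, IsProbabilityMeasure (μ i)] (k : ι) :
    MeasurePreserving (fun p : (∀ i, α i) × α k => Function.update p.1 k p.2)
      ((Measure.pi μ).prod (μ k)) (Measure.pi μ) := by
  refine ⟨measurable_upd k, ?_⟩
  symm
  refine Measure.pi_eq fun s hs => ?_
  rw [Measure.map_apply (measurable_upd k) (MeasurableSet.univ_pi hs)]
  have h1 : (fun p : (∀ i, α i) × α k => Function.update p.1 k p.2) ⁻¹' Set.univ.pi s =
      (Set.univ.pi (Function.update s k Set.univ)) ×ˢ (s k) := by
    ext p
    simp only [Set.mem_preimage, Set.mem_pi, Set.mem_univ, forall_true_left, Set.mem_prod]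
    constructor
    · intro h
      refine ⟨fun i => ?_, ?_⟩
      · by_cases hi : i = k
        · subst hi; simp
        · have := h i
          rw [Function.update_of_ne hi] at this ⊢
          exact this
      · have := h k
        rwa [Function.update_self] at this
    · rintro ⟨h, h2⟩ i
      by_cases hi : i = k
      · subst hi; rw [Function.update_self]; exact h2
      · have := h i
        rw [Function.update_of_ne hi] at this ⊢
        exact this
  rw [h1, Measure.prod_prod, Measure.pi_pi]
  rw [← Finset.mul_prod_erase Finset.univ _ (Finset.mem_univ k),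
    ← Finset.mul_prod_erase Finset.univ (fun i => μ i (s i)) (Finset.mem_univ k)]
  rw [Function.update_self, measure_univ, one_mul, mul_comm]
  congr 1
  refine Finset.prod_congr rfl fun i hi => ?_
  rw [Function.update_of_ne (Finset.ne_of_mem_erase hi)]

lemma integral_upd (μ : ∀ i, Measure (α i)) [∀ i, IsProbabilityMeasure (μ i)] (k : ι)
    {f : (∀ i, α i) → ℝ} (hf : Integrable f (Measure.pi μ)) :
    ∫ x, f x ∂(Measure.pi μ) =
      ∫ x, ∫ y, f (Function.update x k y) ∂(μ k) ∂(Measure.pi μ) := by
  have h := mp_upd μ k
  have h1 : Integrable (fun p : (∀ i, α i) × α k => f (Function.update p.1 k p.2))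
      ((Measure.pi μ).prod (μ k)) := h.integrable_comp_of_integrable hf
  rw [← integral_prod (fun p : (∀ i, α i) × α k => f (Function.update p.1 k p.2)) h1]
  have h2 : ∫ x, f x ∂(Measure.pi μ) = ∫ x, f x ∂(Measure.map
    (fun p : (∀ i, α i) × α k => Function.update p.1 k p.2) ((Measure.pi μ).prod (μ k))) := by
    rw [h.map_eq]
  rw [h2, integral_map (measurable_upd k).aemeasurable]
  rw [h.map_eq]
  exact hf.aestronglyMeasurable

lemma integrable_upd (μ : ∀ i, Measure (α i)) [∀ i, IsProbabilityMeasure (μ i)] (k : ι)
    {f : (∀ i, α i) → ℝ} (hf : Integrable f (Measure.pi μ)) :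
    Integrable (fun x => ∫ y, f (Function.update x k y) ∂(μ k)) (Measure.pi μ) := by
  have h := mp_upd μ k
  have h1 : Integrable (fun p : (∀ i, α i) × α k => f (Function.update p.1 k p.2))
      ((Measure.pi μ).prod (μ k)) := h.integrable_comp_of_integrable hf
  exact h1.integral_prod_left

end Pool.Agent.H991.TV
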