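import Mathlib

/-!
# Comparison of two measures which nearly satisfy the same integration by parts formula
-/

open MeasureTheory Filter
open scoped ContDiff Topology

namespace Pool.Agent.H991.TV

set_option linter.unusedSectionVars false

noncomputable section

variable {ι : Type*} [Fintype ι] [DecidableEq ι]

/-- partial derivative -/
def pd (f : (ι → ℝ) → ℝ) (j : ι) (x : ι → ℝ) : ℝ := fderiv ℝ f x (Pi.single j 1)

lemma fderiv_sum (f : (ι → ℝ) → ℝ) (x v : ι → ℝ) :
    fderiv ℝ f x v = ∑ j, v j * pd f j x := by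
  have h1 : v = ∑ j, v j • (Pi.single j 1 : ι → ℝ) := by
    funext i
    rw [Finset.sum_apply]
    simp [Pi.single_apply]
  conv_lhs => rw [h1]
  rw [map_sum]
  exact Finset.sum_congr rfl fun j _ => by rw [map_smul, smul_eq_mul]; rfl

lemma pd_smooth {f : (ι → ℝ) → ℝ} (hf : ContDiff ℝ ∞ f) (j : ι) : ContDiff ℝ ∞ (pd f j) := by
  unfold pd
  exact (hf.fderiv_right (m := ∞) (by simp)).clm_apply contDiff_const

/-- approximate integration by parts -/
def Stn (P : Measure (ι → ℝ)) (A : ι → ι → ℝ) (ε : ℝ) : Prop :=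
  ∀ g : (ι → ℝ) → ℝ, ContDiff ℝ ∞ g → ∀ c0 c1 : ℝ, (∀ x, |g x| ≤ c0) → (∀ j x, |pd g j x| ≤ c1) →
    ∀ i, |∫ x, x i * g x ∂P - ∑ j, A i j * ∫ x, pd g j x ∂P| ≤ ε * (c0 + c1)

/-- the composition with an affine map -/
lemma pd_aff {f : (ι → ℝ) → ℝ} (hf : ContDiff ℝ ∞ f) (c : ℝ) (v : ι → ℝ) (j : ι) (x : ι → ℝ) :
    pd (fun x => f (c • x + v)) j x = c * pd f j (c • x + v) := by
  unfold pd
  have h1 : HasFDerivAt (fun x : ι → ℝ => c • x + v) (c • ContinuousLinearMap.id ℝ (ι → ℝ)) x :=
    ((hasFDerivAt_id x).const_smul c).add_const v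
  have h2 : HasFDerivAt f (fderiv ℝ f (c • x + v)) (c • x + v) :=
    (hf.differentiable (by simp)).differentiableAt.hasFDerivAt
  have h3 := (h2.comp x h1).fderiv
  have h4 : (f ∘ fun x : ι → ℝ => c • x + v) = fun x => f (c • x + v) := rfl
  rw [h4] at h3
  rw [h3]
  simp

theorem interp {P Q : Measure (ι → ℝ)} [IsProbabilityMeasure P] [IsProbabilityMeasure Q]
    (hP : ∀ i, Integrable (fun x : ι → ℝ => x i) P) (hQ : ∀ i, Integrable (fun x : ι → ℝ => x i) Q)
    {A : ι → ι → ℝ} {ε : ℝ} (hε : 0 ≤ ε) (sP : Stn P A ε) (sQ : Stn Q A 0)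
    {Φ : (ι → ℝ) → ℝ} (hΦ : ContDiff ℝ ∞ Φ) {c0 c1 c2 : ℝ} (h0 : ∀ x, |Φ x| ≤ c0)
    (h1 : ∀ j x, |pd Φ j x| ≤ c1) (h2 : ∀ i j x, |pd (pd Φ i) j x| ≤ c2) :
    |∫ x, Φ x ∂P - ∫ x, Φ x ∂Q| ≤ 2 * (Fintype.card ι * (ε * (c1 + c2))) := by
  classical
  rcases isEmpty_or_nonempty ι with hι | ⟨⟨i0⟩⟩
  · have h3 : ∀ x y : ι → ℝ, x = y := fun x y => Subsingleton.elim _ _
    have h4 : ∀ x, Φ x = Φ 0 := fun x => by rw [h3 x 0]
    simp only [h4, integral_const, probReal_univ, sub_self, abs_zero, Fintype.card_eq_zero,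
      Nat.cast_zero, zero_mul, mul_zero, le_refl]
  have hc1 : 0 ≤ c1 := (abs_nonneg _).trans (h1 i0 0)
  have hc2 : 0 ≤ c2 := (abs_nonneg _).trans (h2 i0 i0 0)
  obtain ⟨W, hW⟩ : ∃ W, W = P.prod Q := ⟨_, rfl⟩
  have : IsProbabilityMeasure W := by rw [hW]; infer_instance
  -- the curve
  obtain ⟨y, hy⟩ : ∃ y : ℝ → (ι → ℝ) × (ι → ℝ) → (ι → ℝ),
    y = fun θ p => Real.cos θ • p.1 + Real.sin θ • p.2 := ⟨_, rfl⟩
  have hyc : ∀ θ, Continuous (y θ) := fun θ => by
    rw [hy]
    show Continuous fun p : (ι → ℝ) × (ι → ℝ) => Real.cos θ • p.1 + Real.sin θ • p.2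
    fun_prop
  have hyd : ∀ p θ, HasDerivAt (fun θ => y θ p) (-Real.sin θ • p.1 + Real.cos θ • p.2) θ := by
    intro p θ
    rw [hy]
    exact ((Real.hasDerivAt_cos θ).smul_const p.1).add ((Real.hasDerivAt_sin θ).smul_const p.2)
  have cΦ : Continuous Φ := hΦ.continuous
  have cpd : ∀ i, Continuous (pd Φ i) := fun i => (pd_smooth hΦ i).continuous
  have cpd2 : ∀ i j, Continuous (pd (pd Φ i) j) := fun i j =>
    (pd_smooth (pd_smooth hΦ i) j).continuous
  obtain ⟨F', hF'⟩ : ∃ F' : ℝ → (ι → ℝ) × (ι → ℝ) → ℝ, F' = fun θ p =>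
    ∑ i, (-Real.sin θ * p.1 i + Real.cos θ * p.2 i) * pd Φ i (y θ p) := ⟨_, rfl⟩
  have hder : ∀ p θ, HasDerivAt (fun θ => Φ (y θ p)) (F' θ p) θ := by
    intro p θ
    have e1 : HasFDerivAt Φ (fderiv ℝ Φ (y θ p)) (y θ p) :=
      (hΦ.differentiable (by simp)).differentiableAt.hasFDerivAt
    have e2 := e1.comp_hasDerivAt θ (hyd p θ)
    rw [fderiv_sum] at e2
    rw [hF']
    refine e2.congr_deriv ?_
    refine Finset.sum_congr rfl fun i _ => ?_
    simp only [Pi.add_apply, Pi.smul_apply, smul_eq_mul]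
  have iP : ∀ i, Integrable (fun p : (ι → ℝ) × (ι → ℝ) => p.1 i) W := fun i => by
    rw [hW]; exact (hP i).comp_fst Q
  have iQ : ∀ i, Integrable (fun p : (ι → ℝ) × (ι → ℝ) => p.2 i) W := fun i => by
    rw [hW]; exact (hQ i).comp_snd P
  have ibd : Integrable (fun p : (ι → ℝ) × (ι → ℝ) => ∑ i, c1 * (|p.1 i| + |p.2 i|)) W :=
    integrable_finsetSum _ fun i _ => ((iP i).abs.add (iQ i).abs).const_mul c1
  have cF' : ∀ θ, Continuous (F' θ) := fun θ => by
    rw [hF']
    refine continuous_finsetSum _ fun i _ => Continuous.mul ?_ ((cpd i).comp (hyc θ))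
    exact (continuous_const.mul ((continuous_apply i).comp continuous_fst)).add
      (continuous_const.mul ((continuous_apply i).comp continuous_snd))
  have iΦ : ∀ θ, Integrable (fun p => Φ (y θ p)) W := fun θ =>
    Integrable.of_bound (cΦ.comp (hyc θ)).aestronglyMeasurable c0
      (Filter.Eventually.of_forall fun p => h0 _)
  have hmain : ∀ θ, HasDerivAt (fun θ => ∫ p, Φ (y θ p) ∂W) (∫ p, F' θ p ∂W) θ := by
    intro θ
    refine (hasDerivAt_integral_of_dominated_loc_of_deriv_le (s := Set.univ) (μ := W)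
      (F := fun θ p => Φ (y θ p)) (F' := F') (x₀ := θ)
      (bound := fun p => ∑ i, c1 * (|p.1 i| + |p.2 i|)) Filter.univ_mem
      (Filter.Eventually.of_forall fun θ => (cΦ.comp (hyc θ)).aestronglyMeasurable)
      (iΦ θ) (cF' θ).aestronglyMeasurable (Filter.Eventually.of_forall fun p θ _ => ?_) ibd
      (Filter.Eventually.of_forall fun p θ _ => hder p θ)).2
    rw [hF']
    refine (norm_sum_le _ _).trans (Finset.sum_le_sum fun i _ => ?_)
    rw [norm_mul, mul_comm]
    refine mul_le_mul (h1 i _) ?_ (norm_nonneg _) hc1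
    refine (norm_add_le _ _).trans (add_le_add ?_ ?_)
    · rw [norm_mul, norm_neg]
      calc _ ≤ 1 * ‖p.1 i‖ := mul_le_mul_of_nonneg_right (Real.abs_sin_le_one θ) (norm_nonneg _)
        _ = _ := one_mul _
    · rw [norm_mul]
      calc _ ≤ 1 * ‖p.2 i‖ := mul_le_mul_of_nonneg_right (Real.abs_cos_le_one θ) (norm_nonneg _)
        _ = _ := one_mul _
  -- the bound of the derivative
  have bder : ∀ θ, |∫ p, F' θ p ∂W| ≤ Fintype.card ι * (ε * (c1 + c2)) := by
    intro θ
    obtain ⟨D, hD⟩ : ∃ D : ι → ι → ℝ, D = fun i j => ∫ p, pd (pd Φ i) j (y θ p) ∂W := ⟨_, rfl⟩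
    have ipd : ∀ i, Integrable (fun p => pd Φ i (y θ p)) W := fun i =>
      Integrable.of_bound ((cpd i).comp (hyc θ)).aestronglyMeasurable c1
        (Filter.Eventually.of_forall fun p => h1 _ _)
    have ipd2 : ∀ i j, Integrable (fun p => pd (pd Φ i) j (y θ p)) W := fun i j =>
      Integrable.of_bound ((cpd2 i j).comp (hyc θ)).aestronglyMeasurable c2
        (Filter.Eventually.of_forall fun p => h2 _ _ _)
    have ix : ∀ i, Integrable (fun p : (ι → ℝ) × (ι → ℝ) => p.1 i * pd Φ i (y θ p)) W := fun i => by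
      have := (iP i).bdd_mul (c := c1) ((cpd i).comp (hyc θ)).aestronglyMeasurable
        (Filter.Eventually.of_forall fun p => h1 _ _)
      refine this.congr (Filter.Eventually.of_forall fun p => ?_)
      simp only [Function.comp]; ring
    have iz : ∀ i, Integrable (fun p : (ι → ℝ) × (ι → ℝ) => p.2 i * pd Φ i (y θ p)) W := fun i => by
      have := (iQ i).bdd_mul (c := c1) ((cpd i).comp (hyc θ)).aestronglyMeasurable
        (Filter.Eventually.of_forall fun p => h1 _ _)
      refine this.congr (Filter.Eventually.of_forall fun p => ?_)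
      simp only [Function.comp]; ring
    -- first marginal
    have hX : ∀ i, |∫ p, p.1 i * pd Φ i (y θ p) ∂W - Real.cos θ * ∑ j, A i j * D i j| ≤
        ε * (c1 + c2) := by
      intro i
      have e1 : ∫ p, p.1 i * pd Φ i (y θ p) ∂W =
          ∫ z, ∫ x, x i * pd Φ i (Real.cos θ • x + Real.sin θ • z) ∂P ∂Q := by
        have := ix i
        rw [hW] at this ⊢
        rw [integral_prod_symm _ this]
        simp only [hy]
      have e2 : ∀ j, D i j = ∫ z, ∫ x, pd (pd Φ i) j (Real.cos θ • x + Real.sin θ • z) ∂P ∂Q := by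
        intro j
        have := ipd2 i j
        rw [hD]
        rw [hW] at this ⊢
        simp only
        rw [integral_prod_symm _ this]
        simp only [hy]
      have e3 : Integrable (fun z => ∫ x, x i * pd Φ i (Real.cos θ • x + Real.sin θ • z) ∂P) Q := by
        have := ix i
        rw [hW] at this
        have h5 := this.integral_prod_right
        simpa only [hy] using h5
      have e4 : ∀ j, Integrable
          (fun z => ∫ x, pd (pd Φ i) j (Real.cos θ • x + Real.sin θ • z) ∂P) Q := by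
        intro j
        have := ipd2 i j
        rw [hW] at this
        have h5 := this.integral_prod_right
        simpa only [hy] using h5
      have e5 : ∫ p, p.1 i * pd Φ i (y θ p) ∂W - Real.cos θ * ∑ j, A i j * D i j =
          ∫ z, (∫ x, x i * pd Φ i (Real.cos θ • x + Real.sin θ • z) ∂P -
            ∑ j, A i j * (Real.cos θ * ∫ x, pd (pd Φ i) j (Real.cos θ • x + Real.sin θ • z) ∂P)) ∂Q := by
        rw [integral_sub e3 (integrable_finsetSum _ fun j _ => ((e4 j).const_mul _).const_mul _),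
          integral_finsetSum _ fun j _ => ((e4 j).const_mul _).const_mul _, e1, Finset.mul_sum]
        congr 1
        refine Finset.sum_congr rfl fun j _ => ?_
        rw [integral_const_mul, integral_const_mul, ← e2]; ring
      rw [e5]
      have e7 : ∀ z : ι → ℝ, ‖∫ x, x i * pd Φ i (Real.cos θ • x + Real.sin θ • z) ∂P -
            ∑ j, A i j * (Real.cos θ * ∫ x, pd (pd Φ i) j (Real.cos θ • x + Real.sin θ • z) ∂P)‖ ≤
            ε * (c1 + c2) := by
        intro z
        rw [Real.norm_eq_abs]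
        have hg : ContDiff ℝ ∞ fun x : ι → ℝ => pd Φ i (Real.cos θ • x + Real.sin θ • z) :=
          (pd_smooth hΦ i).comp ((contDiff_id.const_smul _).add contDiff_const)
        have hpd : ∀ j x, pd (fun x : ι → ℝ => pd Φ i (Real.cos θ • x + Real.sin θ • z)) j x =
            Real.cos θ * pd (pd Φ i) j (Real.cos θ • x + Real.sin θ • z) := fun j x =>
          pd_aff (pd_smooth hΦ i) _ _ j x
        have h6 := sP _ hg c1 c2 (fun x => h1 _ _) (fun j x => by
          rw [hpd, abs_mul]
          calc _ ≤ 1 * c2 := mul_le_mul (Real.abs_cos_le_one θ) (h2 _ _ _) (abs_nonneg _) zero_le_one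
            _ = _ := one_mul _) i
        simp only [hpd, integral_const_mul] at h6
        exact h6
      have e8 := norm_integral_le_of_norm_le_const (μ := Q) (Filter.Eventually.of_forall e7)
      rw [probReal_univ, mul_one, Real.norm_eq_abs] at e8
      exact e8
    have hZ : ∀ i, ∫ p, p.2 i * pd Φ i (y θ p) ∂W = Real.sin θ * ∑ j, A i j * D i j := by
      intro i
      have e1 : ∫ p, p.2 i * pd Φ i (y θ p) ∂W =
          ∫ x, ∫ z, z i * pd Φ i (Real.cos θ • x + Real.sin θ • z) ∂Q ∂P := by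
        have := iz i
        rw [hW] at this ⊢
        rw [integral_prod _ this]
        simp only [hy]
      have e2 : ∀ j, D i j = ∫ x, ∫ z, pd (pd Φ i) j (Real.cos θ • x + Real.sin θ • z) ∂Q ∂P := by
        intro j
        have := ipd2 i j
        rw [hD]
        rw [hW] at this ⊢
        simp only
        rw [integral_prod _ this]
        simp only [hy]
      have e4 : ∀ j, Integrable
          (fun x => ∫ z, pd (pd Φ i) j (Real.cos θ • x + Real.sin θ • z) ∂Q) P := by
        intro j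
        have := ipd2 i j
        rw [hW] at this
        have h5 := this.integral_prod_left
        simpa only [hy] using h5
      rw [e1, Finset.mul_sum]
      have e6 : ∀ x : ι → ℝ, ∫ z, z i * pd Φ i (Real.cos θ • x + Real.sin θ • z) ∂Q =
          ∑ j, A i j * (Real.sin θ * ∫ z, pd (pd Φ i) j (Real.cos θ • x + Real.sin θ • z) ∂Q) := by
        intro x
        have hcomm : ∀ z : ι → ℝ, Real.cos θ • x + Real.sin θ • z =
            Real.sin θ • z + Real.cos θ • x := fun z => add_comm _ _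
        simp only [hcomm]
        have hg : ContDiff ℝ ∞ fun z : ι → ℝ => pd Φ i (Real.sin θ • z + Real.cos θ • x) :=
          (pd_smooth hΦ i).comp ((contDiff_id.const_smul _).add contDiff_const)
        have hpd : ∀ j z, pd (fun z : ι → ℝ => pd Φ i (Real.sin θ • z + Real.cos θ • x)) j z =
            Real.sin θ * pd (pd Φ i) j (Real.sin θ • z + Real.cos θ • x) := fun j z =>
          pd_aff (pd_smooth hΦ i) _ _ j z
        have h6 := sQ _ hg c1 c2 (fun x => h1 _ _) (fun j x => by
          rw [hpd, abs_mul]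
          calc _ ≤ 1 * c2 := mul_le_mul (Real.abs_sin_le_one θ) (h2 _ _ _) (abs_nonneg _) zero_le_one
            _ = _ := one_mul _) i
        rw [zero_mul] at h6
        have h7 := sub_eq_zero.1 (abs_eq_zero.1 (le_antisymm h6 (abs_nonneg _)))
        simp only [hpd, integral_const_mul] at h7
        exact h7
      simp only [e6]
      rw [integral_finsetSum _ fun j _ => ((e4 j).const_mul _).const_mul _]
      refine Finset.sum_congr rfl fun j _ => ?_
      rw [integral_const_mul, integral_const_mul, ← e2]; ring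
    have hS : ∫ p, F' θ p ∂W = ∑ i, -Real.sin θ *
        (∫ p, p.1 i * pd Φ i (y θ p) ∂W - Real.cos θ * ∑ j, A i j * D i j) := by
      have e1 : F' θ = fun p => ∑ i, (-Real.sin θ * (p.1 i * pd Φ i (y θ p)) +
          Real.cos θ * (p.2 i * pd Φ i (y θ p))) := by
        rw [hF']
        funext p
        exact Finset.sum_congr rfl fun i _ => by ring
      have e2 : ∀ i, Integrable (fun p : (ι → ℝ) × (ι → ℝ) =>
          -Real.sin θ * (p.1 i * pd Φ i (y θ p)) + Real.cos θ * (p.2 i * pd Φ i (y θ p))) W :=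
        fun i => ((ix i).const_mul _).add ((iz i).const_mul _)
      rw [e1]
      simp only
      rw [integral_finsetSum _ fun i _ => e2 i]
      refine Finset.sum_congr rfl fun i _ => ?_
      rw [integral_add ((ix i).const_mul _) ((iz i).const_mul _), integral_const_mul,
        integral_const_mul, hZ]
      ring
    rw [hS]
    refine (Finset.abs_sum_le_sum_abs _ _).trans ?_
    calc ∑ i, |-Real.sin θ * (∫ p, p.1 i * pd Φ i (y θ p) ∂W - Real.cos θ * ∑ j, A i j * D i j)| ≤
        ∑ _i : ι, ε * (c1 + c2) := Finset.sum_le_sum fun i _ => by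
          rw [abs_mul, abs_neg]
          calc _ ≤ 1 * (ε * (c1 + c2)) :=
                mul_le_mul (Real.abs_sin_le_one θ) (hX i) (abs_nonneg _) zero_le_one
            _ = _ := one_mul _
      _ = _ := by rw [Finset.sum_const, Finset.card_univ, nsmul_eq_mul]
  have hB : 0 ≤ Fintype.card ι * (ε * (c1 + c2)) := (abs_nonneg _).trans (bder 0)
  have hfin := Convex.norm_image_sub_le_of_norm_hasDerivWithin_le (s := Set.Icc (0 : ℝ) (Real.pi / 2))
    (f := fun θ => ∫ p, Φ (y θ p) ∂W) (f' := fun θ => ∫ p, F' θ p ∂W) (x := Real.pi / 2) (y := 0)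
    (C := Fintype.card ι * (ε * (c1 + c2))) (fun θ _ => (hmain θ).hasDerivWithinAt)
    (fun θ _ => bder θ) (convex_Icc _ _) ⟨by have := Real.pi_pos; linarith, le_rfl⟩
    ⟨le_rfl, by have := Real.pi_pos; linarith⟩
  have z0 : ∫ p, Φ (y 0 p) ∂W = ∫ x, Φ x ∂P := by
    have e1 : (fun p => Φ (y 0 p)) = fun p : (ι → ℝ) × (ι → ℝ) => Φ p.1 := by
      funext p; rw [hy]; simp
    rw [e1, hW, integral_fun_fst (fun x => Φ x)]
    simp
  have z1 : ∫ p, Φ (y (Real.pi / 2) p) ∂W = ∫ x, Φ x ∂Q := by
    have e1 : (fun p => Φ (y (Real.pi / 2) p)) = fun p : (ι → ℝ) × (ι → ℝ) => Φ p.2 := by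
      funext p; rw [hy]; simp
    rw [e1, hW, integral_fun_snd (fun x => Φ x)]
    simp
  rw [z0, z1, Real.norm_eq_abs, Real.norm_eq_abs] at hfin
  refine hfin.trans ?_
  rw [zero_sub, abs_neg, abs_of_pos (by have := Real.pi_pos; linarith), mul_comm]
  refine mul_le_mul_of_nonneg_right ?_ hB
  have := Real.pi_le_four
  linarith

end

end Pool.Agent.H991.TV
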