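import Mathlib
import Pool.Agent.H991.TV.Interp

/-!
# Mollification with product kernels
-/

open MeasureTheory Filter
open scoped ContDiff Topology Convolution

namespace Pool.Agent.H991.TV

set_option linter.unusedSectionVars false

noncomputable section

/-- a family of kernels -/
lemma ker : ∃ C : ℝ, 1 ≤ C ∧ ∀ δ : ℝ, 0 < δ → ∃ ρ : ℝ → ℝ, ContDiff ℝ ∞ ρ ∧
    HasCompactSupport ρ ∧ (∀ t, 0 ≤ ρ t) ∧ (∫ t, ρ t = 1) ∧ (∀ t, δ < |t| → ρ t = 0) ∧
    (∫ t, |deriv ρ t| ≤ C / δ) ∧ (∫ t, |deriv (deriv ρ) t| ≤ C / δ ^ 2) := by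
  obtain ⟨B⟩ : Nonempty (ContDiffBump (0 : ℝ)) := ⟨⟨1 / 2, 1, by norm_num, by norm_num⟩⟩
  have hex : ∃ B : ContDiffBump (0 : ℝ), B.rOut = 1 := ⟨⟨1 / 2, 1, by norm_num, by norm_num⟩, rfl⟩
  obtain ⟨B, hB⟩ := hex
  obtain ⟨φ, hφ⟩ : ∃ φ : ℝ → ℝ, φ = B.normed volume := ⟨_, rfl⟩
  have s0 : ContDiff ℝ ∞ φ := by rw [hφ]; exact B.contDiff_normed
  have n0 : ∀ t, 0 ≤ φ t := fun t => by rw [hφ]; exact B.nonneg_normed t
  have i0 : ∫ t, φ t = 1 := by rw [hφ]; exact B.integral_normed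
  have z0 : ∀ t, 1 < |t| → φ t = 0 := fun t ht => by
    rw [hφ]
    have h1 : t ∉ Function.support (B.normed volume) := by
      rw [B.support_normed_eq, hB, Metric.mem_ball, dist_zero_right, Real.norm_eq_abs]
      linarith
    simpa using h1
  obtain ⟨A1, hA1⟩ : ∃ A1, A1 = ∫ t, |deriv φ t| := ⟨_, rfl⟩
  obtain ⟨A2, hA2⟩ : ∃ A2, A2 = ∫ t, |deriv (deriv φ) t| := ⟨_, rfl⟩
  have hA10 : 0 ≤ A1 := by rw [hA1]; exact integral_nonneg fun t => abs_nonneg _
  have hA20 : 0 ≤ A2 := by rw [hA2]; exact integral_nonneg fun t => abs_nonneg _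
  refine ⟨1 + A1 + A2, by linarith, fun δ hδ => ?_⟩
  have d1 : ∀ t, HasDerivAt φ (deriv φ t) t := fun t =>
    (s0.differentiable (by simp)).differentiableAt.hasDerivAt
  have s1 : ContDiff ℝ ∞ (deriv φ) := by
    have := (contDiff_infty_iff_deriv.1 s0).2
    exact this
  have d2 : ∀ t, HasDerivAt (deriv φ) (deriv (deriv φ) t) t := fun t =>
    (s1.differentiable (by simp)).differentiableAt.hasDerivAt
  have hlin : ∀ t : ℝ, HasDerivAt (fun t : ℝ => δ⁻¹ * t) δ⁻¹ t := fun t => by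
    simpa using (hasDerivAt_id t).const_mul δ⁻¹
  have e1 : deriv (fun t => δ⁻¹ * φ (δ⁻¹ * t)) = fun t => δ⁻¹ ^ 2 * deriv φ (δ⁻¹ * t) := by
    funext t
    have h1 := (HasDerivAt.comp t (h := fun t : ℝ => δ⁻¹ * t) (d1 (δ⁻¹ * t)) (hlin t)).const_mul δ⁻¹
    rw [HasDerivAt.deriv (f := fun t => δ⁻¹ * φ (δ⁻¹ * t)) h1]; ring
  have e2 : deriv (fun t => δ⁻¹ ^ 2 * deriv φ (δ⁻¹ * t)) =
      fun t => δ⁻¹ ^ 3 * deriv (deriv φ) (δ⁻¹ * t) := by
    funext t
    have h1 := (HasDerivAt.comp t (h := fun t : ℝ => δ⁻¹ * t)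
      (d2 (δ⁻¹ * t)) (hlin t)).const_mul (δ⁻¹ ^ 2)
    rw [HasDerivAt.deriv (f := fun t => δ⁻¹ ^ 2 * deriv φ (δ⁻¹ * t)) h1]; ring
  have hδi : 0 < δ⁻¹ := inv_pos.2 hδ
  have hint : ∀ g : ℝ → ℝ, ∫ t, g (δ⁻¹ * t) = δ * ∫ t, g t := fun g => by
    rw [Measure.integral_comp_mul_left g δ⁻¹, inv_inv, abs_of_pos hδ, smul_eq_mul]
  refine ⟨fun t => δ⁻¹ * φ (δ⁻¹ * t), ?_, ?_, ?_, ?_, ?_, ?_, ?_⟩
  · exact contDiff_const.mul (s0.comp (contDiff_const.mul contDiff_id))
  · refine HasCompactSupport.intro (isCompact_closedBall (0 : ℝ) δ) fun t ht => ?_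
    rw [Metric.mem_closedBall, dist_zero_right, Real.norm_eq_abs, not_le] at ht
    rw [z0, mul_zero]
    rw [abs_mul, abs_of_pos hδi, ← div_eq_inv_mul, lt_div_iff₀ hδ]
    linarith
  · intro t
    exact mul_nonneg hδi.le (n0 _)
  · rw [integral_const_mul, hint φ, i0]
    field_simp
  · intro t ht
    show δ⁻¹ * φ (δ⁻¹ * t) = 0
    rw [z0, mul_zero]
    rw [abs_mul, abs_of_pos hδi, ← div_eq_inv_mul, lt_div_iff₀ hδ]
    linarith
  · rw [e1]
    have h1 : ∀ t, |δ⁻¹ ^ 2 * deriv φ (δ⁻¹ * t)| = δ⁻¹ ^ 2 * |deriv φ (δ⁻¹ * t)| := fun t => by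
      rw [abs_mul, abs_of_pos (pow_pos hδi 2)]
    simp only [h1]
    rw [integral_const_mul, hint (fun t => |deriv φ t|), ← hA1]
    have h2 : δ⁻¹ ^ 2 * (δ * A1) = A1 / δ := by field_simp
    rw [h2]
    exact div_le_div_of_nonneg_right (by linarith) hδ.le
  · rw [e1, e2]
    have h1 : ∀ t, |δ⁻¹ ^ 3 * deriv (deriv φ) (δ⁻¹ * t)| =
        δ⁻¹ ^ 3 * |deriv (deriv φ) (δ⁻¹ * t)| := fun t => by
      rw [abs_mul, abs_of_pos (pow_pos hδi 3)]
    simp only [h1]
    rw [integral_const_mul, hint (fun t => |deriv (deriv φ) t|), ← hA2]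
    have h2 : δ⁻¹ ^ 3 * (δ * A2) = A2 / δ ^ 2 := by field_simp
    rw [h2]
    exact div_le_div_of_nonneg_right (by linarith) (by positivity)

variable {ι : Type*} [Fintype ι] [DecidableEq ι]

/-- product kernel -/
def Kr (r : ι → ℝ → ℝ) (y : ι → ℝ) : ℝ := ∏ i, r i (y i)

/-- mollification -/
def mol (Ψ : (ι → ℝ) → ℝ) (r : ι → ℝ → ℝ) (x : ι → ℝ) : ℝ := ∫ t, Ψ t * Kr r (x - t)

lemma Kr_smooth {r : ι → ℝ → ℝ} (h : ∀ i, ContDiff ℝ ∞ (r i)) : ContDiff ℝ ∞ (Kr r) := by
  unfold Kr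
  exact contDiff_prod fun i _ => (h i).comp (contDiff_apply ℝ ℝ i)

lemma Kr_supp {r : ι → ℝ → ℝ} (h : ∀ i, HasCompactSupport (r i)) : HasCompactSupport (Kr r) := by
  refine HasCompactSupport.intro (isCompact_univ_pi fun i => (h i).isCompact) fun x hx => ?_
  rw [Set.mem_pi] at hx
  push Not at hx
  obtain ⟨i, _, hi⟩ := hx
  unfold Kr
  exact Finset.prod_eq_zero (Finset.mem_univ i) (image_eq_zero_of_notMem_tsupport hi)

lemma pd_eq {f : (ι → ℝ) → ℝ} (hf : ContDiff ℝ ∞ f) (j : ι) (x : ι → ℝ) :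
    HasDerivAt (fun s : ℝ => f (x + Pi.single j s)) (pd f j x) 0 := by
  have h1 : HasFDerivAt f (fderiv ℝ f (x + Pi.single j 0)) (x + Pi.single j 0) :=
    (hf.differentiable (by simp)).differentiableAt.hasFDerivAt
  have h2 : HasDerivAt (fun s : ℝ => x + (Pi.single j s : ι → ℝ)) (Pi.single j 1) 0 := by
    refine HasDerivAt.const_add x ?_
    refine hasDerivAt_pi.2 fun i => ?_
    by_cases hi : i = j
    · subst hi
      simp only [Pi.single_eq_same]
      exact hasDerivAt_id _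
    · simp only [Pi.single_eq_of_ne hi]
      exact hasDerivAt_const _ _
  have h3 := h1.comp_hasDerivAt (0 : ℝ) h2
  unfold pd
  rw [Pi.single_zero, add_zero] at h3
  exact h3

lemma pd_Kr {r : ι → ℝ → ℝ} (h : ∀ i, ContDiff ℝ ∞ (r i)) (j : ι) :
    pd (Kr r) j = Kr (Function.update r j (deriv (r j))) := by
  funext x
  have h1 := pd_eq (Kr_smooth h) j x
  have h2 : (fun s : ℝ => Kr r (x + Pi.single j s)) = fun s =>
      r j (x j + s) * ∏ i ∈ Finset.univ.erase j, r i (x i) := by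
    funext s
    unfold Kr
    rw [← Finset.mul_prod_erase Finset.univ _ (Finset.mem_univ j)]
    congr 1
    · simp
    · refine Finset.prod_congr rfl fun i hi => ?_
      simp [Pi.single_eq_of_ne (Finset.ne_of_mem_erase hi)]
  rw [h2] at h1
  have h3 : HasDerivAt (fun s : ℝ => r j (x j + s)) (deriv (r j) (x j)) 0 := by
    have e1 : HasDerivAt (r j) (deriv (r j) (x j + 0)) (x j + 0) :=
      ((h j).differentiable (by simp)).differentiableAt.hasDerivAt
    have e2 : HasDerivAt (fun s : ℝ => x j + s) 1 0 := (hasDerivAt_id _).const_add _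
    have e3 := HasDerivAt.comp (0 : ℝ) (h := fun s : ℝ => x j + s) e1 e2
    rw [add_zero, mul_one] at e3
    exact e3
  rw [h1.unique (h3.mul_const _)]
  unfold Kr
  rw [← Finset.mul_prod_erase Finset.univ _ (Finset.mem_univ j), Function.update_self]
  congr 1
  refine Finset.prod_congr rfl fun i hi => ?_
  rw [Function.update_of_ne (Finset.ne_of_mem_erase hi)]

lemma mol_conv (Ψ : (ι → ℝ) → ℝ) (r : ι → ℝ → ℝ) :
    mol Ψ r = (Ψ ⋆[ContinuousLinearMap.mul ℝ ℝ, volume] Kr r) := rfl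

lemma mol_smooth {Ψ : (ι → ℝ) → ℝ} (hΨ : Continuous Ψ) {r : ι → ℝ → ℝ}
    (h : ∀ i, ContDiff ℝ ∞ (r i)) (hs : ∀ i, HasCompactSupport (r i)) :
    ContDiff ℝ ∞ (mol Ψ r) := by
  rw [mol_conv]
  exact (Kr_supp hs).contDiff_convolution_right _ hΨ.locallyIntegrable (Kr_smooth h)

lemma pd_mol {Ψ : (ι → ℝ) → ℝ} (hΨ : Continuous Ψ) {r : ι → ℝ → ℝ}
    (h : ∀ i, ContDiff ℝ ∞ (r i)) (hs : ∀ i, HasCompactSupport (r i)) (j : ι) :
    pd (mol Ψ r) j = mol Ψ (Function.update r j (deriv (r j))) := by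
  funext x
  have h1 := (Kr_supp hs).hasFDerivAt_convolution_right (ContinuousLinearMap.mul ℝ ℝ)
    (f := Ψ) (μ := volume) hΨ.locallyIntegrable ((Kr_smooth h).of_le (by simp)) x
  unfold pd
  rw [mol_conv, h1.fderiv]
  rw [convolution_precompR_apply _ hΨ.locallyIntegrable ((Kr_supp hs).fderiv ℝ)
    ((Kr_smooth h).continuous_fderiv (by simp))]
  have h2 := pd_Kr h j
  unfold pd at h2
  rw [h2]
  rfl

lemma Kr_int {r : ι → ℝ → ℝ} (h : ∀ i, Continuous (r i)) (hs : ∀ i, HasCompactSupport (r i)) :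
    Integrable (Kr r) := by
  have hc : Continuous (Kr r) := by
    unfold Kr
    exact continuous_finsetProd _ fun i _ => (h i).comp (continuous_apply i)
  exact hc.integrable_of_hasCompactSupport (Kr_supp hs)

lemma Kr_l1 (r : ι → ℝ → ℝ) : ∫ t, |Kr r t| = ∏ i, ∫ s, |r i s| := by
  unfold Kr
  simp only [Finset.abs_prod]
  exact integral_fintype_prod_eq_prod (fun i s => |r i s|)

lemma mol_bd {Ψ : (ι → ℝ) → ℝ} {C : ℝ} (hb : ∀ x, |Ψ x| ≤ C)
    {r : ι → ℝ → ℝ} (h : ∀ i, Continuous (r i)) (hs : ∀ i, HasCompactSupport (r i))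
    (x : ι → ℝ) : |mol Ψ r x| ≤ C * ∏ i, ∫ s, |r i s| := by
  unfold mol
  have hi := Kr_int h hs
  have h1 : Integrable fun t => |Kr r (x - t)| := (hi.comp_sub_left x).abs
  have h2 : ∫ t, |Kr r (x - t)| = ∫ t, |Kr r t| := integral_sub_left_eq_self (fun t => |Kr r t|) _ x
  calc |∫ t, Ψ t * Kr r (x - t)| ≤ ∫ t, C * |Kr r (x - t)| := by
        rw [← Real.norm_eq_abs]
        refine norm_integral_le_of_norm_le (h1.const_mul C) (Filter.Eventually.of_forall fun t => ?_)
        rw [norm_mul]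
        exact mul_le_mul_of_nonneg_right (hb t) (norm_nonneg _)
    _ = _ := by rw [integral_const_mul, h2, Kr_l1]

lemma mol_flip (Ψ : (ι → ℝ) → ℝ) (r : ι → ℝ → ℝ) (x : ι → ℝ) :
    mol Ψ r x = ∫ t, Ψ (x - t) * Kr r t := by
  unfold mol
  have h := integral_sub_left_eq_self (fun t => Ψ (x - t) * Kr r t) volume x
  rw [← h]
  refine integral_congr_ae (Filter.Eventually.of_forall fun t => ?_)
  simp only [sub_sub_cancel]

/-- the law is stable under small shifts of the coordinates -/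
def Bv (P : Measure (ι → ℝ)) (S η : ℝ) : Prop :=
  ∀ f : (ι → ℝ) → ℝ, Continuous f → (∀ x, |f x| ≤ 1) → ∀ (j : ι) (t : ℝ),
    |∫ x, f (x + Pi.single j t) ∂P - ∫ x, f x ∂P| ≤ S * |t| + η

lemma Bv_tel {P : Measure (ι → ℝ)} {S η : ℝ} (hS : 0 ≤ S) (h : Bv P S η)
    {f : (ι → ℝ) → ℝ} (hf : Continuous f) (h1 : ∀ x, |f x| ≤ 1) {δ : ℝ} (v : ι → ℝ)
    (hv : ∀ j, |v j| ≤ δ) (s : Finset ι) :
    |∫ x, f (x + ∑ j ∈ s, Pi.single j (v j)) ∂P - ∫ x, f x ∂P| ≤ s.card * (S * δ + η) := by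
  induction s using Finset.induction_on with
  | empty => simp
  | insert j s hj ih =>
    have h2 := h (fun x => f (x + ∑ j ∈ s, Pi.single j (v j)))
      (hf.comp (continuous_id.add continuous_const)) (fun x => h1 _) j (v j)
    have h3 : (fun x : ι → ℝ => f (x + ∑ j ∈ insert j s, Pi.single j (v j))) =
        fun x => f (x + Pi.single j (v j) + ∑ j ∈ s, Pi.single j (v j)) := by
      funext x
      rw [Finset.sum_insert hj, add_assoc]
    rw [h3, Finset.card_insert_of_notMem hj]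
    push_cast
    have h4 := abs_sub_le (∫ x, f (x + Pi.single j (v j) + ∑ j ∈ s, Pi.single j (v j)) ∂P)
      (∫ x, f (x + ∑ j ∈ s, Pi.single j (v j)) ∂P) (∫ x, f x ∂P)
    have h5 : S * |v j| + η ≤ S * δ + η := by
      have := mul_le_mul_of_nonneg_left (hv j) hS
      linarith
    linarith

/-- the effect of the mollification -/
lemma mol_close {P : Measure (ι → ℝ)} [IsProbabilityMeasure P] {S η : ℝ} (hS : 0 ≤ S)
    (h : Bv P S η) {f : (ι → ℝ) → ℝ} (hf : Continuous f) (h1 : ∀ x, |f x| ≤ 1) {δ : ℝ}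
    {ρ : ℝ → ℝ} (hρ : Continuous ρ) (hs : HasCompactSupport ρ)
    (h0 : ∀ t, 0 ≤ ρ t) (hi : ∫ t, ρ t = 1) (hz : ∀ t, δ < |t| → ρ t = 0) :
    |∫ x, f x ∂P - ∫ x, mol f (fun _ => ρ) x ∂P| ≤ Fintype.card ι * (S * δ + η) := by
  obtain ⟨K, hK⟩ : ∃ K : (ι → ℝ) → ℝ, K = Kr fun _ => ρ := ⟨_, rfl⟩
  have hKi : Integrable K := by rw [hK]; exact Kr_int (fun _ => hρ) fun _ => hs
  have hK0 : ∀ t, 0 ≤ K t := fun t => by
    rw [hK]; unfold Kr; exact Finset.prod_nonneg fun i _ => h0 _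
  have hKc : Continuous K := by
    rw [hK]; unfold Kr
    exact continuous_finsetProd _ fun i _ => hρ.comp (continuous_apply i)
  have hK1 : ∫ t, K t = 1 := by
    have e1 := Kr_l1 (ι := ι) fun _ => ρ
    have e2 : ∀ t, |Kr (fun _ : ι => ρ) t| = K t := fun t => by
      rw [← hK, abs_of_nonneg (hK0 t)]
    simp only [e2, abs_of_nonneg (h0 _), hi, Finset.prod_const_one] at e1
    exact e1
  have e1 : ∫ x, mol f (fun _ => ρ) x ∂P = ∫ t, K t * ∫ x, f (x - t) ∂P := by
    have e2 : Integrable (Function.uncurry fun (x : ι → ℝ) (t : ι → ℝ) => f (x - t) * K t)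
        (P.prod volume) := by
      have e3 : Integrable (fun p : (ι → ℝ) × (ι → ℝ) => K p.2) (P.prod volume) := hKi.comp_snd P
      refine e3.bdd_mul (c := 1) (f := fun p : (ι → ℝ) × (ι → ℝ) => f (p.1 - p.2))
        (hf.comp (continuous_fst.sub continuous_snd)).aestronglyMeasurable
        (Filter.Eventually.of_forall fun p => h1 _)
    have e4 := integral_integral_swap e2
    simp only [mol_flip, ← hK]
    rw [e4]
    refine integral_congr_ae (Filter.Eventually.of_forall fun t => ?_)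
    simp only
    rw [integral_mul_const, mul_comm]
  have e2 : ∫ x, f x ∂P = ∫ t, K t * ∫ x, f x ∂P := by
    rw [integral_mul_const, hK1, one_mul]
  have hcf : Continuous fun t : ι → ℝ => ∫ x, f (x - t) ∂P := by
    refine continuous_of_dominated (bound := fun _ => (1 : ℝ))
      (fun t => (hf.comp (continuous_id.sub continuous_const)).aestronglyMeasurable)
      (fun t => Filter.Eventually.of_forall fun x => h1 _) (integrable_const _)
      (Filter.Eventually.of_forall fun x => hf.comp (continuous_const.sub continuous_id))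
  have hb : ∀ t : ι → ℝ, |∫ x, f (x - t) ∂P| ≤ 1 := fun t => by
    have := norm_integral_le_of_norm_le_const (μ := P) (f := fun x => f (x - t)) (C := 1)
      (Filter.Eventually.of_forall fun x => h1 _)
    simpa using this
  have e3 : Integrable fun t => K t * ∫ x, f (x - t) ∂P := by
    have := hKi.bdd_mul (c := 1) (f := fun t : ι → ℝ => ∫ x, f (x - t) ∂P)
      hcf.aestronglyMeasurable (Filter.Eventually.of_forall fun t => hb t)
    refine this.congr (Filter.Eventually.of_forall fun t => ?_)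
    simp only; ring
  rw [e1, e2, ← integral_sub (hKi.mul_const _) e3]
  have hcard : (0 : ℝ) ≤ Fintype.card ι := Nat.cast_nonneg _
  calc |∫ t, (K t * ∫ x, f x ∂P - K t * ∫ x, f (x - t) ∂P)| ≤
      ∫ t, K t * (Fintype.card ι * (S * δ + η)) := by
        rw [← Real.norm_eq_abs]
        refine norm_integral_le_of_norm_le (hKi.mul_const _) (Filter.Eventually.of_forall fun t => ?_)
        rw [← mul_sub, norm_mul, Real.norm_eq_abs, abs_of_nonneg (hK0 t)]
        by_cases hKt : K t = 0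
        · rw [hKt, zero_mul, zero_mul]
        · refine mul_le_mul_of_nonneg_left ?_ (hK0 t)
          have ht : ∀ j, |(-t) j| ≤ δ := by
            intro j
            rw [Pi.neg_apply, abs_neg]
            by_contra hc
            apply hKt
            rw [hK]
            unfold Kr
            exact Finset.prod_eq_zero (Finset.mem_univ j) (hz _ (not_le.1 hc))
          have h5 := Bv_tel hS h hf h1 (-t) ht Finset.univ
          rw [Finset.univ_sum_single, Finset.card_univ] at h5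
          rw [Real.norm_eq_abs, abs_sub_comm]
          simpa only [sub_eq_add_neg] using h5
    _ = _ := by rw [integral_mul_const, hK1, one_mul]

/-- pointwise convergence of the mollifications -/
lemma mol_tendsto {f : (ι → ℝ) → ℝ} (hf : Continuous f) (h1 : ∀ x, |f x| ≤ 1)
    {ρ : ℕ → ℝ → ℝ} (hρ : ∀ k, Continuous (ρ k)) (hs : ∀ k, HasCompactSupport (ρ k))
    (h0 : ∀ k t, 0 ≤ ρ k t) (hi : ∀ k, ∫ t, ρ k t = 1)
    (hz : ∀ (k : ℕ) t, 1 / ((k : ℝ) + 1) < |t| → ρ k t = 0) (x : ι → ℝ) :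
    Tendsto (fun k => mol f (fun _ => ρ k) x) atTop (𝓝 (f x)) := by
  rw [Metric.tendsto_atTop]
  intro ε hε
  have hc : ContinuousAt f x := hf.continuousAt
  rw [Metric.continuousAt_iff] at hc
  obtain ⟨η, hη, hc⟩ := hc (ε / 2) (by linarith)
  obtain ⟨k0, hk0⟩ := exists_nat_one_div_lt hη
  refine ⟨k0, fun k hk => ?_⟩
  obtain ⟨K, hK⟩ : ∃ K : (ι → ℝ) → ℝ, K = Kr fun _ => ρ k := ⟨_, rfl⟩
  have hKi : Integrable K := by rw [hK]; exact Kr_int (fun _ => hρ k) fun _ => hs k
  have hK0 : ∀ t, 0 ≤ K t := fun t => by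
    rw [hK]; unfold Kr; exact Finset.prod_nonneg fun i _ => h0 _ _
  have hK1 : ∫ t, K t = 1 := by
    have e1 := Kr_l1 (ι := ι) fun _ => ρ k
    have e2 : ∀ t, |Kr (fun _ : ι => ρ k) t| = K t := fun t => by
      rw [← hK, abs_of_nonneg (hK0 t)]
    simp only [e2, abs_of_nonneg (h0 _ _), hi, Finset.prod_const_one] at e1
    exact e1
  have hfi : Integrable fun t => f (x - t) * K t :=
    hKi.bdd_mul (c := 1) (hf.comp (continuous_const.sub continuous_id)).aestronglyMeasurable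
      (Filter.Eventually.of_forall fun t => h1 _)
  rw [mol_flip, ← hK, Real.dist_eq]
  have e1 : f x = ∫ t, f x * K t := by rw [integral_const_mul, hK1, mul_one]
  have e2 : (∫ t, f (x - t) * K t) - f x = ∫ t, (f (x - t) * K t - f x * K t) := by
    rw [integral_sub hfi (hKi.const_mul _), ← e1]
  rw [e2]
  calc |∫ t, (f (x - t) * K t - f x * K t)| ≤ ∫ t, ε / 2 * K t := by
        rw [← Real.norm_eq_abs]
        refine norm_integral_le_of_norm_le (hKi.const_mul _) (Filter.Eventually.of_forall fun t => ?_)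
        rw [← sub_mul, norm_mul, Real.norm_eq_abs, Real.norm_eq_abs, abs_of_nonneg (hK0 t)]
        by_cases hKt : K t = 0
        · rw [hKt, mul_zero, mul_zero]
        · refine mul_le_mul_of_nonneg_right ?_ (hK0 t)
          have ht : ∀ j, |t j| ≤ 1 / ((k : ℝ) + 1) := by
            intro j
            by_contra hcc
            apply hKt
            rw [hK]
            unfold Kr
            exact Finset.prod_eq_zero (Finset.mem_univ j) (hz _ _ (not_le.1 hcc))
          have hd : dist (x - t) x < η := by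
            rw [dist_eq_norm, sub_sub_cancel_left, norm_neg]
            refine lt_of_le_of_lt ((pi_norm_le_iff_of_nonneg (by positivity)).2 ht) ?_
            refine lt_of_le_of_lt ?_ hk0
            exact one_div_le_one_div_of_le (by positivity) (by
              have : (k0 : ℝ) ≤ k := by exact_mod_cast hk
              linarith)
          have := hc hd
          rw [Real.dist_eq] at this
          exact this.le
    _ = ε / 2 := by rw [integral_const_mul, hK1, mul_one]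
    _ < ε := by linarith

end

end Pool.Agent.H991.TV
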