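import Mathlib
import Pool.Agent.H991.TV.Mol

/-!
# Total variation distance from approximate integration by parts and stability under shifts
-/

open MeasureTheory Filter
open scoped ContDiff Topology

namespace Pool.Agent.H991.TV

set_option linter.unusedSectionVars false

noncomputable section

variable {ι : Type*} [Fintype ι] [DecidableEq ι]

lemma prod_upd (a : ι → ℝ) (i : ι) (u : ℝ) (ha : ∀ k, a k = 1) :
    ∏ k, (Function.update a i u) k = u := by
  rw [← Finset.mul_prod_erase Finset.univ _ (Finset.mem_univ i), Function.update_self]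
  rw [Finset.prod_eq_one, mul_one]
  intro k hk
  rw [Function.update_of_ne (Finset.ne_of_mem_erase hk), ha]

lemma mol_props {Ψ : (ι → ℝ) → ℝ} (hΨ : Continuous Ψ) (h1 : ∀ x, |Ψ x| ≤ 1) {C δ : ℝ}
    (hC : 1 ≤ C) (hδ : 0 < δ) {ρ : ℝ → ℝ} (hρ : ContDiff ℝ ∞ ρ) (hs : HasCompactSupport ρ)
    (h0 : ∀ t, 0 ≤ ρ t) (hi : ∫ t, ρ t = 1) (d1 : ∫ t, |deriv ρ t| ≤ C / δ)
    (d2 : ∫ t, |deriv (deriv ρ) t| ≤ C / δ ^ 2) :
    ContDiff ℝ ∞ (mol Ψ fun _ => ρ) ∧ (∀ x, |mol Ψ (fun _ => ρ) x| ≤ 1) ∧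
      (∀ j x, |pd (mol Ψ fun _ => ρ) j x| ≤ C / δ) ∧
      ∀ i j x, |pd (pd (mol Ψ fun _ => ρ) i) j x| ≤ C ^ 2 / δ ^ 2 := by
  have hC0 : 0 ≤ C := by linarith
  have s1 : ContDiff ℝ ∞ (deriv ρ) := (contDiff_infty_iff_deriv.1 hρ).2
  have s2 : ContDiff ℝ ∞ (deriv (deriv ρ)) := (contDiff_infty_iff_deriv.1 s1).2
  have k1 : HasCompactSupport (deriv ρ) := hs.deriv
  have k2 : HasCompactSupport (deriv (deriv ρ)) := k1.deriv
  have hrs : ∀ i : ι, ContDiff ℝ ∞ ((fun _ => ρ : ι → ℝ → ℝ) i) := fun _ => hρ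
  have hrk : ∀ i : ι, HasCompactSupport ((fun _ => ρ : ι → ℝ → ℝ) i) := fun _ => hs
  have hmass : ∫ t, |ρ t| = 1 := by
    simp only [abs_of_nonneg (h0 _)]; exact hi
  refine ⟨mol_smooth hΨ hrs hrk, fun x => ?_, fun j x => ?_, fun i j x => ?_⟩
  · have := mol_bd h1 (fun i : ι => (hrs i).continuous) hrk x
    rwa [hmass, Finset.prod_const_one, mul_one] at this
  · rw [pd_mol hΨ hrs hrk j]
    have e1 : ∀ i : ι, Continuous (Function.update (fun _ => ρ : ι → ℝ → ℝ) j (deriv ρ) i) := by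
      intro i
      by_cases hij : i = j
      · subst hij; rw [Function.update_self]; exact s1.continuous
      · rw [Function.update_of_ne hij]; exact hρ.continuous
    have e2 : ∀ i : ι, HasCompactSupport
        (Function.update (fun _ => ρ : ι → ℝ → ℝ) j (deriv ρ) i) := by
      intro i
      by_cases hij : i = j
      · subst hij; rw [Function.update_self]; exact k1
      · rw [Function.update_of_ne hij]; exact hs
    have := mol_bd h1 e1 e2 x
    have e3 : ∏ i, ∫ s, |Function.update (fun _ => ρ : ι → ℝ → ℝ) j (deriv ρ) i s| =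
        ∫ s, |deriv ρ s| := by
      rw [← prod_upd (fun _ : ι => (1 : ℝ)) j (∫ s, |deriv ρ s|) fun _ => rfl]
      refine Finset.prod_congr rfl fun i _ => ?_
      by_cases hij : i = j
      · subst hij; rw [Function.update_self, Function.update_self]
      · rw [Function.update_of_ne hij, Function.update_of_ne hij]; exact hmass
    rw [e3, one_mul] at this
    exact this.trans d1
  · rw [pd_mol hΨ hrs hrk i]
    have e1 : ∀ k : ι, ContDiff ℝ ∞ (Function.update (fun _ => ρ : ι → ℝ → ℝ) i (deriv ρ) k) := by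
      intro k
      by_cases hij : k = i
      · subst hij; rw [Function.update_self]; exact s1
      · rw [Function.update_of_ne hij]; exact hρ
    have e2 : ∀ k : ι, HasCompactSupport
        (Function.update (fun _ => ρ : ι → ℝ → ℝ) i (deriv ρ) k) := by
      intro k
      by_cases hij : k = i
      · subst hij; rw [Function.update_self]; exact k1
      · rw [Function.update_of_ne hij]; exact hs
    rw [pd_mol hΨ e1 e2 j]
    obtain ⟨v, hv⟩ : ∃ v, v = deriv (Function.update (fun _ => ρ : ι → ℝ → ℝ) i (deriv ρ) j) :=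
      ⟨_, rfl⟩
    rw [← hv]
    have sv : ContDiff ℝ ∞ v := by
      rw [hv]; exact (contDiff_infty_iff_deriv.1 (e1 j)).2
    have kv : HasCompactSupport v := by rw [hv]; exact (e2 j).deriv
    have e3 : ∀ k : ι, Continuous (Function.update
        (Function.update (fun _ => ρ : ι → ℝ → ℝ) i (deriv ρ)) j v k) := by
      intro k
      by_cases hij : k = j
      · subst hij; rw [Function.update_self]; exact sv.continuous
      · rw [Function.update_of_ne hij]; exact (e1 k).continuous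
    have e4 : ∀ k : ι, HasCompactSupport (Function.update
        (Function.update (fun _ => ρ : ι → ℝ → ℝ) i (deriv ρ)) j v k) := by
      intro k
      by_cases hij : k = j
      · subst hij; rw [Function.update_self]; exact kv
      · rw [Function.update_of_ne hij]; exact e2 k
    have := mol_bd h1 e3 e4 x
    refine this.trans ?_
    rw [one_mul]
    by_cases hij : i = j
    · subst hij
      rw [Function.update_idem]
      have e5 : ∏ k, ∫ s, |Function.update (fun _ => ρ : ι → ℝ → ℝ) i v k s| = ∫ s, |v s| := by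
        rw [← prod_upd (fun _ : ι => (1 : ℝ)) i (∫ s, |v s|) fun _ => rfl]
        refine Finset.prod_congr rfl fun k _ => ?_
        by_cases hik : k = i
        · subst hik; rw [Function.update_self, Function.update_self]
        · rw [Function.update_of_ne hik, Function.update_of_ne hik]; exact hmass
      rw [e5, hv, Function.update_self]
      refine d2.trans (div_le_div_of_nonneg_right ?_ (by positivity))
      nlinarith
    · have hvv : v = deriv ρ := by
        rw [hv, Function.update_of_ne (fun h => hij h.symm)]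
      have e5 : ∏ k, ∫ s, |Function.update
          (Function.update (fun _ => ρ : ι → ℝ → ℝ) i (deriv ρ)) j v k s| =
          (∫ s, |deriv ρ s|) * ∫ s, |deriv ρ s| := by
        rw [← Finset.mul_prod_erase Finset.univ _ (Finset.mem_univ j), Function.update_self, hvv]
        congr 1
        rw [← Finset.mul_prod_erase (Finset.univ.erase j) _
          (Finset.mem_erase.2 ⟨hij, Finset.mem_univ i⟩)]
        rw [Function.update_of_ne hij, Function.update_self, Finset.prod_eq_one, mul_one]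
        intro k hk
        rw [Finset.mem_erase, Finset.mem_erase] at hk
        rw [Function.update_of_ne hk.2.1, Function.update_of_ne hk.1]
        exact hmass
      rw [e5]
      have e6 : 0 ≤ ∫ s, |deriv ρ s| := integral_nonneg fun s => abs_nonneg _
      have e7 : C ^ 2 / δ ^ 2 = C / δ * (C / δ) := by
        rw [div_mul_div_comm]; ring
      rw [e7]
      exact mul_le_mul d1 d1 e6 (by positivity)

/-- smooth test functions suffice -/
lemma Bv_of_smooth {P : Measure (ι → ℝ)} [IsProbabilityMeasure P] {S η : ℝ}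
    (h : ∀ f : (ι → ℝ) → ℝ, ContDiff ℝ ∞ f → (∀ x, |f x| ≤ 1) → (∃ c1, ∀ j x, |pd f j x| ≤ c1) →
      (∃ c2, ∀ i j x, |pd (pd f i) j x| ≤ c2) → ∀ (j : ι) (t : ℝ),
        |∫ x, f (x + Pi.single j t) ∂P - ∫ x, f x ∂P| ≤ S * |t| + η) : Bv P S η := by
  intro f hf h1 j t
  obtain ⟨C, hC, hker⟩ := ker
  have hpos : ∀ k : ℕ, (0 : ℝ) < 1 / ((k : ℝ) + 1) := fun k => by positivity
  choose ρ hρ hs h0 hi hz d1 d2 using fun k : ℕ => hker _ (hpos k)
  have hp := fun k => mol_props hf h1 hC (hpos k) (hρ k) (hs k) (h0 k) (hi k) (d1 k) (d2 k)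
  have hlim : ∀ x, Tendsto (fun k => mol f (fun _ => ρ k) x) atTop (𝓝 (f x)) := fun x =>
    mol_tendsto hf h1 (fun k => (hρ k).continuous) hs h0 hi hz x
  have l1 : Tendsto (fun k => ∫ x, mol f (fun _ => ρ k) (x + Pi.single j t) ∂P) atTop
      (𝓝 (∫ x, f (x + Pi.single j t) ∂P)) := by
    refine tendsto_integral_of_dominated_convergence (fun _ => (1 : ℝ)) (fun k => ?_)
      (integrable_const _) (fun k => Filter.Eventually.of_forall fun x => (hp k).2.1 _)
      (Filter.Eventually.of_forall fun x => hlim _)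
    exact ((hp k).1.continuous.comp (continuous_id.add continuous_const)).aestronglyMeasurable
  have l2 : Tendsto (fun k => ∫ x, mol f (fun _ => ρ k) x ∂P) atTop (𝓝 (∫ x, f x ∂P)) := by
    refine tendsto_integral_of_dominated_convergence (fun _ => (1 : ℝ)) (fun k => ?_)
      (integrable_const _) (fun k => Filter.Eventually.of_forall fun x => (hp k).2.1 _)
      (Filter.Eventually.of_forall fun x => hlim _)
    exact (hp k).1.continuous.aestronglyMeasurable
  refine le_of_tendsto ((l1.sub l2).abs) (Filter.Eventually.of_forall fun k => ?_)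
  exact h _ (hp k).1 (hp k).2.1 ⟨_, (hp k).2.2.1⟩ ⟨_, (hp k).2.2.2⟩ j t

/-- the stability of the limit -/
lemma Bv_limit {P : ℕ → Measure (ι → ℝ)} {Q : Measure (ι → ℝ)}
    [∀ k, IsProbabilityMeasure (P k)] [IsProbabilityMeasure Q]
    (hP : ∀ k i, Integrable (fun x : ι → ℝ => x i) (P k))
    (hQ : ∀ i, Integrable (fun x : ι → ℝ => x i) Q)
    {A : ι → ι → ℝ} {ε η : ℕ → ℝ} {S : ℝ} (hε : ∀ k, 0 ≤ ε k) (sP : ∀ k, Stn (P k) A (ε k))
    (sQ : Stn Q A 0) (bP : ∀ k, Bv (P k) S (η k)) (lε : Tendsto ε atTop (𝓝 0))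
    (lη : Tendsto η atTop (𝓝 0)) : Bv Q S 0 := by
  refine Bv_of_smooth fun f hf h1 hc1 hc2 j t => ?_
  obtain ⟨c1, hc1⟩ := hc1
  obtain ⟨c2, hc2⟩ := hc2
  have hg : ContDiff ℝ ∞ fun x : ι → ℝ => f (x + Pi.single j t) :=
    hf.comp (contDiff_id.add contDiff_const)
  have e0 : ∀ (u : (ι → ℝ) → ℝ), ContDiff ℝ ∞ u → ∀ i x,
      pd (fun x : ι → ℝ => u (x + Pi.single j t)) i x = pd u i (x + Pi.single j t) := by
    intro u hu i x
    have := pd_aff hu 1 (Pi.single j t) i x
    simpa using this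
  have e1 : ∀ i, pd (fun x : ι → ℝ => f (x + Pi.single j t)) i =
      fun x => pd f i (x + Pi.single j t) := fun i => funext fun x => e0 f hf i x
  have k1 := fun k => interp (hP k) hQ (hε k) (sP k) sQ hf h1 hc1 hc2
  have k2 := fun k => interp (hP k) hQ (hε k) (sP k) sQ hg (fun x => h1 _)
    (fun i x => by rw [e0 f hf]; exact hc1 _ _)
    (fun i i' x => by rw [e1, e0 _ (pd_smooth hf i)]; exact hc2 _ _ _)
  have hlim : Tendsto (fun k => S * |t| + η k + 2 * (2 * (Fintype.card ι * (ε k * (c1 + c2)))))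
      atTop (𝓝 (S * |t| + 0 + 2 * (2 * (Fintype.card ι * (0 * (c1 + c2)))))) :=
    (tendsto_const_nhds.add lη).add ((((lε.mul_const _).const_mul _).const_mul _).const_mul _)
  have e2 : S * |t| + 0 + 2 * (2 * (Fintype.card ι * (0 * (c1 + c2)))) = S * |t| + 0 := by ring
  rw [e2] at hlim
  refine ge_of_tendsto hlim (Filter.Eventually.of_forall fun k => ?_)
  have k3 := bP k f hf.continuous h1 j t
  have k1 := k1 k
  have k2 := k2 k
  rw [abs_le] at k1 k2 k3 ⊢
  constructor <;> linarith [k1.1, k1.2, k2.1, k2.2, k3.1, k3.2]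

/-- from continuous to measurable test functions -/
lemma meas_of_cont {P Q : Measure (ι → ℝ)} [IsProbabilityMeasure P] [IsProbabilityMeasure Q]
    {c : ℝ} (h : ∀ f : (ι → ℝ) → ℝ, Continuous f → (∀ x, |f x| ≤ 1) →
      |∫ x, f x ∂P - ∫ x, f x ∂Q| ≤ c) {f : (ι → ℝ) → ℝ} (hf : Measurable f)
    (h1 : ∀ x, |f x| ≤ 1) : |∫ x, f x ∂P - ∫ x, f x ∂Q| ≤ c := by
  refine le_of_forall_pos_le_add fun ε hε => ?_
  have hi : Integrable f (P + Q) := Integrable.of_bound hf.aestronglyMeasurable 1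
    (Filter.Eventually.of_forall fun x => h1 x)
  obtain ⟨g, hg, hgi⟩ := hi.exists_boundedContinuous_integral_sub_le hε
  obtain ⟨u, hu⟩ : ∃ u : (ι → ℝ) → ℝ, u = fun x => max (-1) (min 1 (g x)) := ⟨_, rfl⟩
  have hcu : Continuous u := by
    rw [hu]; exact continuous_const.max (continuous_const.min g.continuous)
  have h1u : ∀ x, |u x| ≤ 1 := fun x => by
    rw [hu, abs_le]
    simp only
    exact ⟨le_max_left _ _, max_le (by norm_num) (min_le_left _ _)⟩
  have hfu : ∀ x, |f x - u x| ≤ |f x - g x| := fun x => by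
    have hfx := abs_le.1 (h1 x)
    rw [hu]
    simp only
    rcases le_total (g x) (-1) with hh | hh
    · rw [min_eq_right (by linarith), max_eq_left hh, abs_of_nonneg (by linarith),
        abs_of_nonneg (by linarith)]
      linarith
    · rcases le_total (g x) 1 with hh' | hh'
      · rw [min_eq_right hh', max_eq_right hh]
      · rw [min_eq_left hh', max_eq_right (by norm_num), abs_of_nonpos (by linarith),
          abs_of_nonpos (by linarith)]
        linarith
  have iu : ∀ (W : Measure (ι → ℝ)) [IsProbabilityMeasure W], Integrable u W := fun W _ =>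
    Integrable.of_bound hcu.aestronglyMeasurable 1 (Filter.Eventually.of_forall fun x => h1u x)
  have if' : ∀ (W : Measure (ι → ℝ)) [IsProbabilityMeasure W], Integrable f W := fun W _ =>
    Integrable.of_bound hf.aestronglyMeasurable 1 (Filter.Eventually.of_forall fun x => h1 x)
  have hsum : ∫ x, |f x - u x| ∂P + ∫ x, |f x - u x| ∂Q ≤ ε := by
    have e1 : ∫ x, |f x - u x| ∂(P + Q) = ∫ x, |f x - u x| ∂P + ∫ x, |f x - u x| ∂Q :=
      integral_add_measure ((if' P).sub (iu P)).abs ((if' Q).sub (iu Q)).abs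
    rw [← e1]
    refine le_trans (integral_mono_of_nonneg (Filter.Eventually.of_forall fun x => abs_nonneg _)
      ?_ (Filter.Eventually.of_forall hfu)) hg
    exact (hi.sub hgi).abs
  have eP : |∫ x, f x ∂P - ∫ x, u x ∂P| ≤ ∫ x, |f x - u x| ∂P := by
    rw [← integral_sub (if' P) (iu P)]
    exact abs_integral_le_integral_abs
  have eQ : |∫ x, f x ∂Q - ∫ x, u x ∂Q| ≤ ∫ x, |f x - u x| ∂Q := by
    rw [← integral_sub (if' Q) (iu Q)]
    exact abs_integral_le_integral_abs
  have e3 := h u hcu h1u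
  rw [abs_le] at eP eQ e3 ⊢
  constructor <;> linarith [eP.1, eP.2, eQ.1, eQ.2, e3.1, e3.2]

/-- The abstract theorem. -/
theorem tv : ∃ C : ℝ, 1 ≤ C ∧ ∀ (ι : Type) [Fintype ι] [DecidableEq ι]
    (P Q : Measure (ι → ℝ)) [IsProbabilityMeasure P] [IsProbabilityMeasure Q],
    (∀ i, Integrable (fun x : ι → ℝ => x i) P) → (∀ i, Integrable (fun x : ι → ℝ => x i) Q) →
    ∀ (A : ι → ι → ℝ) (ε S η : ℝ), 0 ≤ ε → 0 ≤ S → Stn P A ε → Stn Q A 0 → Bv P S η → Bv Q S 0 →
    ∀ δ : ℝ, 0 < δ → δ ≤ 1 → ∀ f : (ι → ℝ) → ℝ, Measurable f → (∀ x, |f x| ≤ 1) →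
      |∫ x, f x ∂P - ∫ x, f x ∂Q| ≤ Fintype.card ι * (2 * (S * δ) + η + C * ε / δ ^ 2) := by
  obtain ⟨C, hC, hker⟩ := ker
  refine ⟨4 * C ^ 2, by nlinarith, fun ι _ _ P Q _ _ hP hQ A ε S η hε hS sP sQ bP bQ δ hδ hδ1 f
    hf h1 => ?_⟩
  refine meas_of_cont (fun g hg h1 => ?_) hf h1
  obtain ⟨ρ, hρ, hs, h0, hi, hz, d1, d2⟩ := hker δ hδ
  obtain ⟨m1, m2, m3, m4⟩ := mol_props hg h1 hC hδ hρ hs h0 hi d1 d2
  have a1 := mol_close hS bP hg h1 hρ.continuous hs h0 hi hz
  have a2 := mol_close hS bQ hg h1 hρ.continuous hs h0 hi hz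
  have a3 := interp hP hQ hε sP sQ m1 m2 m3 m4
  have hcard : (0 : ℝ) ≤ Fintype.card ι := Nat.cast_nonneg _
  have a4 : 2 * (Fintype.card ι * (ε * (C / δ + C ^ 2 / δ ^ 2))) ≤
      Fintype.card ι * (4 * C ^ 2 * ε / δ ^ 2) := by
    have e1 : C / δ ≤ C ^ 2 / δ ^ 2 := by
      rw [div_le_div_iff₀ hδ (by positivity)]
      have e2 : C * δ ^ 2 ≤ C ^ 2 * δ ^ 2 :=
        mul_le_mul_of_nonneg_right (by nlinarith) (by positivity)
      have e3 : C ^ 2 * δ ^ 2 ≤ C ^ 2 * δ :=
        mul_le_mul_of_nonneg_left (by nlinarith) (by positivity)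
      linarith
    have e2 : ε * (C / δ + C ^ 2 / δ ^ 2) ≤ ε * (2 * (C ^ 2 / δ ^ 2)) :=
      mul_le_mul_of_nonneg_left (by linarith) hε
    calc 2 * (Fintype.card ι * (ε * (C / δ + C ^ 2 / δ ^ 2))) ≤
        2 * (Fintype.card ι * (ε * (2 * (C ^ 2 / δ ^ 2)))) := by gcongr
      _ = _ := by ring
  have e5 : Fintype.card ι * (2 * (S * δ) + η + 4 * C ^ 2 * ε / δ ^ 2) =
      Fintype.card ι * (S * δ + η) + Fintype.card ι * (S * δ + 0) +
        Fintype.card ι * (4 * C ^ 2 * ε / δ ^ 2) := by ring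
  rw [e5]
  rw [abs_le] at a1 a2 a3 ⊢
  constructor <;> linarith [a1.1, a1.2, a2.1, a2.2, a3.1, a3.2]

end

end Pool.Agent.H991.TV
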