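import Mathlib
import Pool.Agent.H991.TV.Abs

/-!
# Total variation distance from weak closeness and stability under shifts
-/

open MeasureTheory Filter
open scoped ContDiff Topology

namespace Pool.Agent.H991.TV

set_option linter.unusedSectionVars false

noncomputable section

variable {ι : Type*} [Fintype ι] [DecidableEq ι]

/-- weak closeness, tested with smooth functions -/
def Wk (P Q : Measure (ι → ℝ)) (ε : ℝ) : Prop :=
  ∀ f : (ι → ℝ) → ℝ, ContDiff ℝ ∞ f → (∀ x, |f x| ≤ 1) → ∀ c1 c2 : ℝ, 0 ≤ c1 → 0 ≤ c2 →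
    (∀ j x, |pd f j x| ≤ c1) → (∀ i j x, |pd (pd f i) j x| ≤ c2) →
      |∫ x, f x ∂P - ∫ x, f x ∂Q| ≤ ε * (c1 + c2)

lemma Wk.mono {P Q : Measure (ι → ℝ)} {ε ε' : ℝ} (h : Wk P Q ε) (he : ε ≤ ε') : Wk P Q ε' :=
  fun f hf h0 c1 c2 p1 p2 h1 h2 => (h f hf h0 c1 c2 p1 p2 h1 h2).trans
    (mul_le_mul_of_nonneg_right he (by positivity))

lemma Stn.wk {P Q : Measure (ι → ℝ)} [IsProbabilityMeasure P] [IsProbabilityMeasure Q]
    (hP : ∀ i, Integrable (fun x : ι → ℝ => x i) P) (hQ : ∀ i, Integrable (fun x : ι → ℝ => x i) Q)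
    {A : ι → ι → ℝ} {ε : ℝ} (hε : 0 ≤ ε) (sP : Stn P A ε) (sQ : Stn Q A 0) :
    Wk P Q (2 * Fintype.card ι * ε) := by
  intro f hf h0 c1 c2 _ _ h1 h2
  refine (interp hP hQ hε sP sQ hf h0 h1 h2).trans (le_of_eq ?_)
  ring

/-- change of the covariance -/
lemma Stn.cov {P : Measure (ι → ℝ)} [IsProbabilityMeasure P] {A A' : ι → ι → ℝ} {ε e : ℝ}
    (h : Stn P A ε) (he : 0 ≤ e) (hA : ∀ i j, |A i j - A' i j| ≤ e) :
    Stn P A' (ε + Fintype.card ι * e) := by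
  intro g hg c0 c1 h0 h1 i
  have k1 := h g hg c0 c1 h0 h1 i
  have hc0 : 0 ≤ c0 := (abs_nonneg _).trans (h0 0)
  have k2 : |∑ j, A i j * ∫ x, pd g j x ∂P - ∑ j, A' i j * ∫ x, pd g j x ∂P| ≤
      Fintype.card ι * e * c1 := by
    rw [← Finset.sum_sub_distrib]
    refine (Finset.abs_sum_le_sum_abs _ _).trans ?_
    have k3 : ∀ j, |A i j * ∫ x, pd g j x ∂P - A' i j * ∫ x, pd g j x ∂P| ≤ e * c1 := by
      intro j
      rw [← sub_mul, abs_mul]
      refine mul_le_mul (hA i j) ?_ (abs_nonneg _) he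
      have := norm_integral_le_of_norm_le_const (μ := P) (f := pd g j) (C := c1)
        (Filter.Eventually.of_forall fun x => h1 j x)
      simpa using this
    calc ∑ j, |A i j * ∫ x, pd g j x ∂P - A' i j * ∫ x, pd g j x ∂P| ≤ ∑ _j : ι, e * c1 :=
          Finset.sum_le_sum fun j _ => k3 j
      _ = _ := by rw [Finset.sum_const, Finset.card_univ, nsmul_eq_mul]; ring
  have k4 : 0 ≤ Fintype.card ι * e * c0 := by positivity
  have k5 := abs_sub_le (∫ x, x i * g x ∂P) (∑ j, A i j * ∫ x, pd g j x ∂P)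
    (∑ j, A' i j * ∫ x, pd g j x ∂P)
  have k6 : (ε + Fintype.card ι * e) * (c0 + c1) = ε * (c0 + c1) + Fintype.card ι * e * c0 +
    Fintype.card ι * e * c1 := by ring
  rw [k6]
  linarith

/-- Lipschitz bound from the partial derivatives -/
lemma lip {f : (ι → ℝ) → ℝ} (hf : ContDiff ℝ ∞ f) {c1 : ℝ} (h1 : ∀ j x, |pd f j x| ≤ c1)
    (x y : ι → ℝ) : |f x - f y| ≤ c1 * ∑ j, |x j - y j| := by
  have hd : ∀ s : ℝ, HasDerivAt (fun s : ℝ => f (y + s • (x - y)))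
      (fderiv ℝ f (y + s • (x - y)) (x - y)) s := by
    intro s
    have e1 : HasDerivAt (fun s : ℝ => y + s • (x - y)) (x - y) s := by
      have := ((hasDerivAt_id s).smul_const (x - y)).const_add y
      simpa using this
    have e2 : HasFDerivAt f (fderiv ℝ f (y + s • (x - y))) (y + s • (x - y)) :=
      (hf.differentiable (by simp)).differentiableAt.hasFDerivAt
    exact e2.comp_hasDerivAt s e1
  have h2 := Convex.norm_image_sub_le_of_norm_hasDerivWithin_le (s := Set.univ)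
    (f := fun s : ℝ => f (y + s • (x - y)))
    (f' := fun s => fderiv ℝ f (y + s • (x - y)) (x - y)) (x := 0) (y := 1)
    (C := c1 * ∑ j, |x j - y j|) (fun s _ => (hd s).hasDerivWithinAt)
    (fun s _ => by
      rw [fderiv_sum, Real.norm_eq_abs, Finset.mul_sum]
      refine (Finset.abs_sum_le_sum_abs _ _).trans (Finset.sum_le_sum fun j _ => ?_)
      rw [abs_mul, mul_comm c1]
      exact mul_le_mul_of_nonneg_left (h1 j _) (abs_nonneg _)) convex_univ (Set.mem_univ _)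
    (Set.mem_univ _)
  simpa using h2

/-- the stability of the limit -/
lemma Bv_limit' {P : ℕ → Measure (ι → ℝ)} {Q : Measure (ι → ℝ)}
    [∀ k, IsProbabilityMeasure (P k)] [IsProbabilityMeasure Q]
    {ε η : ℕ → ℝ} {S : ℝ} (sP : ∀ k, Wk (P k) Q (ε k)) (bP : ∀ k, Bv (P k) S (η k))
    (lε : Tendsto ε atTop (𝓝 0)) (lη : Tendsto η atTop (𝓝 0)) : Bv Q S 0 := by
  refine Bv_of_smooth fun f hf h1 hc1 hc2 j t => ?_
  obtain ⟨c1, hc1⟩ := hc1
  obtain ⟨c2, hc2⟩ := hc2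
  have p1 : 0 ≤ c1 := (abs_nonneg _).trans (hc1 j 0)
  have p2 : 0 ≤ c2 := (abs_nonneg _).trans (hc2 j j 0)
  have hg : ContDiff ℝ ∞ fun x : ι → ℝ => f (x + Pi.single j t) :=
    hf.comp (contDiff_id.add contDiff_const)
  have e0 : ∀ (u : (ι → ℝ) → ℝ), ContDiff ℝ ∞ u → ∀ i x,
      pd (fun x : ι → ℝ => u (x + Pi.single j t)) i x = pd u i (x + Pi.single j t) := by
    intro u hu i x
    have := pd_aff hu 1 (Pi.single j t) i x
    simpa using this
  have e1 : ∀ i, pd (fun x : ι → ℝ => f (x + Pi.single j t)) i =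
      fun x => pd f i (x + Pi.single j t) := fun i => funext fun x => e0 f hf i x
  have k1 := fun k => sP k f hf h1 c1 c2 p1 p2 hc1 hc2
  have k2 := fun k => sP k _ hg (fun x => h1 _) c1 c2 p1 p2
    (fun i x => by rw [e0 f hf]; exact hc1 _ _)
    (fun i i' x => by rw [e1, e0 _ (pd_smooth hf i)]; exact hc2 _ _ _)
  have hlim : Tendsto (fun k => S * |t| + η k + 2 * (ε k * (c1 + c2)))
      atTop (𝓝 (S * |t| + 0 + 2 * (0 * (c1 + c2)))) :=
    (tendsto_const_nhds.add lη).add ((lε.mul_const _).const_mul _)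
  have e2 : S * |t| + 0 + 2 * (0 * (c1 + c2)) = S * |t| + 0 := by ring
  rw [e2] at hlim
  refine ge_of_tendsto hlim (Filter.Eventually.of_forall fun k => ?_)
  have k3 := bP k f hf.continuous h1 j t
  have k1 := k1 k
  have k2 := k2 k
  rw [abs_le] at k1 k2 k3 ⊢
  constructor <;> linarith [k1.1, k1.2, k2.1, k2.2, k3.1, k3.2]

/-- The abstract theorem. -/
theorem tv' : ∃ C : ℝ, 1 ≤ C ∧ ∀ (ι : Type) [Fintype ι] [DecidableEq ι]
    (P Q : Measure (ι → ℝ)) [IsProbabilityMeasure P] [IsProbabilityMeasure Q]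
    (ε S η : ℝ), 0 ≤ ε → 0 ≤ S → Wk P Q ε → Bv P S η → Bv Q S 0 →
    ∀ δ : ℝ, 0 < δ → δ ≤ 1 → ∀ f : (ι → ℝ) → ℝ, Measurable f → (∀ x, |f x| ≤ 1) →
      |∫ x, f x ∂P - ∫ x, f x ∂Q| ≤ Fintype.card ι * (2 * (S * δ) + η) + C * ε / δ ^ 2 := by
  obtain ⟨C, hC, hker⟩ := ker
  refine ⟨2 * C ^ 2, by nlinarith, fun ι _ _ P Q _ _ ε S η hε hS sP bP bQ δ hδ hδ1 f
    hf h1 => ?_⟩
  refine meas_of_cont (fun g hg h1 => ?_) hf h1
  obtain ⟨ρ, hρ, hs, h0, hi, hz, d1, d2⟩ := hker δ hδ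
  obtain ⟨m1, m2, m3, m4⟩ := mol_props hg h1 hC hδ hρ hs h0 hi d1 d2
  have a1 := mol_close hS bP hg h1 hρ.continuous hs h0 hi hz
  have a2 := mol_close hS bQ hg h1 hρ.continuous hs h0 hi hz
  have a3 := sP _ m1 m2 _ _ (by positivity) (by positivity) m3 m4
  have a4 : ε * (C / δ + C ^ 2 / δ ^ 2) ≤ 2 * C ^ 2 * ε / δ ^ 2 := by
    have e1 : C / δ ≤ C ^ 2 / δ ^ 2 := by
      rw [div_le_div_iff₀ hδ (by positivity)]
      have e2 : C * δ ^ 2 ≤ C ^ 2 * δ ^ 2 :=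
        mul_le_mul_of_nonneg_right (by nlinarith) (by positivity)
      have e3 : C ^ 2 * δ ^ 2 ≤ C ^ 2 * δ :=
        mul_le_mul_of_nonneg_left (by nlinarith) (by positivity)
      linarith
    have e2 : ε * (C / δ + C ^ 2 / δ ^ 2) ≤ ε * (2 * (C ^ 2 / δ ^ 2)) :=
      mul_le_mul_of_nonneg_left (by linarith) hε
    calc ε * (C / δ + C ^ 2 / δ ^ 2) ≤ ε * (2 * (C ^ 2 / δ ^ 2)) := e2
      _ = _ := by ring
  have e5 : Fintype.card ι * (2 * (S * δ) + η) + 2 * C ^ 2 * ε / δ ^ 2 =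
      Fintype.card ι * (S * δ + η) + Fintype.card ι * (S * δ + 0) +
        2 * C ^ 2 * ε / δ ^ 2 := by ring
  rw [e5]
  rw [abs_le] at a1 a2 a3 ⊢
  constructor <;> linarith [a1.1, a1.2, a2.1, a2.2, a3.1, a3.2]

end

end Pool.Agent.H991.TV
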