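import Mathlib
import Pool.Agent.H991.TV.Wk
import Pool.Graph.R_seed8.W793.YM.Lat2
import Pool.Graph.R_seed8.W793.SCH.Lift

/-!
# Composition of smooth functions; integration by parts for the curvature smeared with exact forms
-/

open MeasureTheory Matrix
open scoped Matrix.Norms.Frobenius ContDiff
open Pool.Agent.H906R3.YM Pool.Agent.W793.YM
open Pool.Agent.W793.SCHL (PT PT_prob EX_int)

namespace Pool.Agent.H991.TV

set_option linter.unusedSectionVars false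
set_option linter.unusedVariables false

noncomputable section

section comp

variable {G : Type*} [Group G] [TopologicalSpace G] {N n : ℕ} {L : LD G N n}
  {E : Type*} [Fintype E] [DecidableEq E] {ι : Type*} [Fintype ι] [DecidableEq ι]

/-- composition with a smooth function -/
def cmp (g : (ι → ℝ) → ℝ) (hg : ContDiff ℝ ∞ g) (Y : ι → Sm L E) : Sm L E :=
  ⟨fun U => g fun i => (Y i).1 U, by
    choose f hf h using fun i => (Y i).2
    refine ⟨fun M => g fun i => f i M, hg.comp (contDiff_pi.2 fun i => hf i), fun U => ?_⟩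
    simp only [h]⟩

lemma cmp_apply (g : (ι → ℝ) → ℝ) (hg : ContDiff ℝ ∞ g) (Y : ι → Sm L E) (U : E → G) :
    (cmp g hg Y).1 U = g fun i => (Y i).1 U := rfl

lemma Dv_cmp (g : (ι → ℝ) → ℝ) (hg : ContDiff ℝ ∞ g) (Y : ι → Sm L E) (j : E × Fin n) :
    L.Dv j (cmp g hg Y) = ∑ i, cmp (pd g i) (pd_smooth hg i) Y * L.Dv j (Y i) := by
  apply Subtype.ext
  funext U
  have h1 : ∀ i, HasDerivAt (fun t => (Y i).1 (L.shift j.1 j.2 t U)) ((L.Dv j (Y i)).1 U) 0 := by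
    intro i
    have := hasDerivAt_dF (Y i).2 j.1 j.2 U 0
    rwa [L.shift_zero] at this
  have h2 : HasDerivAt (fun t => fun i => (Y i).1 (L.shift j.1 j.2 t U))
      (fun i => (L.Dv j (Y i)).1 U) 0 := hasDerivAt_pi.2 h1
  have h3 : HasFDerivAt g (fderiv ℝ g fun i => (Y i).1 U) (fun i => (Y i).1
      (L.shift j.1 j.2 0 U)) := by
    rw [L.shift_zero]
    exact (hg.differentiable (by simp)).differentiableAt.hasFDerivAt
  have h4 := (h3.comp_hasDerivAt (0 : ℝ) h2).deriv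
  have h5 : (L.Dv j (cmp g hg Y)).1 U = deriv (g ∘ fun t => fun i =>
      (Y i).1 (L.shift j.1 j.2 t U)) 0 := rfl
  rw [h5, h4, fderiv_sum]
  have h6 : (∑ i, cmp (pd g i) (pd_smooth hg i) Y * L.Dv j (Y i)).1 U =
      L.ev U (∑ i, cmp (pd g i) (pd_smooth hg i) Y * L.Dv j (Y i)) := rfl
  rw [h6, map_sum]
  refine Finset.sum_congr rfl fun i _ => ?_
  rw [map_mul, mul_comm]
  rfl

/-- the chain rule -/
def CR (ι : Type*) [Fintype ι] [DecidableEq ι] (D : Derivation ℝ (Sm L E) (Sm L E)) : Prop :=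
  ∀ (g : (ι → ℝ) → ℝ) (hg : ContDiff ℝ ∞ g) (Y : ι → Sm L E),
    D (cmp g hg Y) = ∑ i, cmp (pd g i) (pd_smooth hg i) Y * D (Y i)

lemma CR_Dv (j : E × Fin n) : CR ι (L.Dv j) := fun g hg Y => Dv_cmp g hg Y j

lemma CR_zero : CR ι (0 : Derivation ℝ (Sm L E) (Sm L E)) := fun g hg Y => by
  simp

lemma CR_add {D D' : Derivation ℝ (Sm L E) (Sm L E)} (h : CR ι D) (h' : CR ι D') :
    CR ι (D + D') := fun g hg Y => by
  rw [Derivation.add_apply, h, h', ← Finset.sum_add_distrib]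
  refine Finset.sum_congr rfl fun i _ => ?_
  rw [Derivation.add_apply, mul_add]

lemma CR_smul {D : Derivation ℝ (Sm L E) (Sm L E)} (a : Sm L E) (h : CR ι D) :
    CR ι (a • D) := fun g hg Y => by
  rw [Derivation.smul_apply, h, smul_eq_mul, Finset.mul_sum]
  refine Finset.sum_congr rfl fun i _ => ?_
  rw [Derivation.smul_apply, smul_eq_mul]
  ring

lemma CR_sum {κ : Type*} (s : Finset κ) (D : κ → Derivation ℝ (Sm L E) (Sm L E))
    (h : ∀ k ∈ s, CR ι (D k)) : CR ι (∑ k ∈ s, D k) :=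
  Finset.sum_induction _ (CR ι) (fun _ _ => CR_add) CR_zero h

end comp

variable {G : Type*} [Group G] [TopologicalSpace G] [IsTopologicalGroup G] [CompactSpace G]
  [SecondCountableTopology G] [MeasurableSpace G] [BorelSpace G] (μ : Measure G)
  [IsProbabilityMeasure μ] [μ.IsMulLeftInvariant] [μ.IsMulRightInvariant] [μ.IsInvInvariant]
  {N n : ℕ} {L : LD G N n} {d l : ℕ} [NeZero l] {M : ℕ} {ι : Type*} [Fintype ι] [DecidableEq ι]

lemma VA_cmp (A : Fin n → Fin d → St d l → ℝ) (g : (ι → ℝ) → ℝ) (hg : ContDiff ℝ ∞ g)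
    (Y : ι → Sm L (Ed d l)) : VA L A (cmp g hg Y) =
      ∑ i, cmp (pd g i) (pd_smooth hg i) Y * VA L A (Y i) := by
  have h : CR ι (VA L A) := CR_sum _ _ fun α _ => CR_sum _ _ fun κ _ => CR_sum _ _ fun x _ =>
    CR_sum _ _ fun b _ => CR_smul _ (CR_Dv _)
  exact h g hg Y

lemma BX_d1 {A : Fin n → Fin d → St d l → ℝ} (hA : ∀ α κ, AB M (A α κ)) (hMl : M < l) :
    BX M (fun a => d1 (A a)) := by
  intro a j k x hx
  have h1 : (A a k (x + eT j) ≠ 0 ∨ A a k x ≠ 0) ∨ (A a j (x + eT k) ≠ 0 ∨ A a j x ≠ 0) := by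
    by_contra hc
    push Not at hc
    apply hx
    show A a k (x + eT j) - A a k x - (A a j (x + eT k) - A a j x) = 0
    rw [hc.1.1, hc.1.2, hc.2.1, hc.2.2]; ring
  rcases h1 with h1 | h1
  · exact (ab_near (hA a k) hMl h1.symm).1
  · exact (ab_near (hA a j) hMl h1.symm).1

lemma arith1 {d n M s κ Q c0 c1 : ℝ} (hd : 0 ≤ d) (hn : 0 ≤ n) (hM : 0 ≤ M) (hs0 : 0 ≤ s)
    (hκ : 0 ≤ κ) (hQ : 0 ≤ Q) (h0 : 0 ≤ c0) (h1 : 0 ≤ c1) :
    c0 * (s * (2 * d * (d * M)) * Q) + κ * (c1 * (4 * d * s * (2 * n * d * (s * (d * M + 1))) * Q)) ≤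
      (2 * d ^ 2 + 8 * d * n * d * (d + 1) + 1) * (κ + 1) * ((M + 1) * (1 + s) ^ 2) * Q *
        (c0 + c1) := by
  have g0 : (1 + s) ^ 2 = 1 + 2 * s + s ^ 2 := by ring
  have g1 : s ≤ (1 + s) ^ 2 := by rw [g0]; linarith [sq_nonneg s]
  have g2 : s ^ 2 ≤ (1 + s) ^ 2 := by rw [g0]; linarith [sq_nonneg s]
  have g3 : d * M + 1 ≤ (d + 1) * (M + 1) := by
    have : (d + 1) * (M + 1) = d * M + 1 + d + M := by ring
    rw [this]; linarith
  have p0 : 0 ≤ (M + 1) * (1 + s) ^ 2 := by positivity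
  have p1 : s * (2 * d * (d * M)) ≤ 2 * d ^ 2 * ((M + 1) * (1 + s) ^ 2) := by
    calc s * (2 * d * (d * M)) = 2 * d ^ 2 * (M * s) := by ring
      _ ≤ 2 * d ^ 2 * ((M + 1) * (1 + s) ^ 2) := by
        refine mul_le_mul_of_nonneg_left ?_ (by positivity)
        exact mul_le_mul (by linarith) g1 hs0 (by positivity)
  have p2 : 4 * d * s * (2 * n * d * (s * (d * M + 1))) ≤
      8 * d * n * d * (d + 1) * ((M + 1) * (1 + s) ^ 2) := by
    calc 4 * d * s * (2 * n * d * (s * (d * M + 1))) = 8 * d * n * d * ((d * M + 1) * s ^ 2) := by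
          ring
      _ ≤ 8 * d * n * d * (((d + 1) * (M + 1)) * (1 + s) ^ 2) := by
          refine mul_le_mul_of_nonneg_left ?_ (by positivity)
          exact mul_le_mul g3 g2 (sq_nonneg _) (by positivity)
      _ = _ := by ring
  obtain ⟨P, hP⟩ : ∃ P, P = (M + 1) * (1 + s) ^ 2 := ⟨_, rfl⟩
  rw [← hP] at p0 p1 p2 ⊢
  obtain ⟨α, hα⟩ : ∃ α : ℝ, α = 2 * d ^ 2 := ⟨_, rfl⟩
  obtain ⟨γ, hγ⟩ : ∃ γ : ℝ, γ = 8 * d * n * d * (d + 1) := ⟨_, rfl⟩
  have hα0 : 0 ≤ α := by rw [hα]; positivity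
  have hγ0 : 0 ≤ γ := by rw [hγ]; positivity
  rw [← hα] at p1
  rw [← hγ] at p2
  rw [← hα, ← hγ]
  have w1 : c0 * (s * (2 * d * (d * M)) * Q) ≤ c0 * (α * P * Q) := by gcongr
  have w2 : κ * (c1 * (4 * d * s * (2 * n * d * (s * (d * M + 1))) * Q)) ≤
      κ * (c1 * (γ * P * Q)) := by gcongr
  refine (add_le_add w1 w2).trans ?_
  have z1 : 0 ≤ P * Q * c0 := by positivity
  have z2 : 0 ≤ P * Q * c1 := by positivity
  have z3 : (α + γ + 1) * (κ + 1) * P * Q * (c0 + c1) -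
      (c0 * (α * P * Q) + κ * (c1 * (γ * P * Q))) =
      (γ * (κ + 1) + (κ + 1) + α * κ) * (P * Q * c0) +
      (α * (κ + 1) + (κ + 1) + γ) * (P * Q * c1) := by ring
  have z4 : 0 ≤ (γ * (κ + 1) + (κ + 1) + α * κ) * (P * Q * c0) := by positivity
  have z5 : 0 ≤ (α * (κ + 1) + (κ + 1) + γ) * (P * Q * c1) := by positivity
  linarith

/-- Approximate integration by parts for the curvature smeared with exact forms. -/
theorem ibp_exact (hd : 1 ≤ d) : ∃ C : ℝ, 0 < C ∧ ∀ b : ℝ, 1 ≤ b → ∀ (m : ℕ) [NeZero m], 2 ≤ m →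
    ∀ M : ℕ, M < 2 * m → ∀ (ι : Type) [Fintype ι] [DecidableEq ι]
      (A : ι → Fin n → Fin d → St d (2 * m) → ℝ), (∀ i α κ, AB M (A i α κ)) →
      ∀ s : ℝ, (∀ i, S1 (A i) ≤ s) →
      ∀ g : (ι → ℝ) → ℝ, ContDiff ℝ ∞ g → ∀ c0 c1 : ℝ, (∀ x, |g x| ≤ c0) →
        (∀ j x, |pd g j x| ≤ c1) → ∀ i,
      |EX μ L (b ^ 4) (fun U : Ed d (2 * m) → G => b ^ 2 * Fs L (fun a => d1 (A i a)) U *
          g (fun j => b ^ 2 * Fs L (fun a => d1 (A j a)) U)) -
        ∑ j, (∑ a, ipF (d1 (A i a)) (d1 (A j a))) * EX μ L (b ^ 4) (fun U : Ed d (2 * m) → G =>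
          pd g j (fun j => b ^ 2 * Fs L (fun a => d1 (A j a)) U))| ≤
        C * (Fintype.card ι + 1) * ((M : ℝ) + 1) ^ (2 * d + 1) * (1 + s) ^ 2 / b * (c0 + c1) := by
  obtain ⟨C, hC, h⟩ := sB_moms μ (L := L) hd
  refine ⟨C * (2 * d ^ 2 + 8 * d * n * d * (d + 1) + 1), by positivity,
    fun b hb m _ hm M hMl ι _ _ A hA s hs g hg c0 c1 h0 h1 i => ?_⟩
  have hb0 : 0 < b := by linarith
  obtain ⟨-, hs2, hs1⟩ := h b hb m hm M
  have hS := S1_nonneg (A i)
  have hM0 : (0 : ℝ) ≤ M := Nat.cast_nonneg _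
  have hdn : (0 : ℝ) ≤ d := Nat.cast_nonneg _
  have hnn : (0 : ℝ) ≤ n := Nat.cast_nonneg _
  have hs0 : 0 ≤ s := hS.trans (hs i)
  have hc0 : 0 ≤ c0 := (abs_nonneg _).trans (h0 0)
  have hc1 : 0 ≤ c1 := (abs_nonneg _).trans (h1 i 0)
  have cs : Continuous fun U : Ed d (2 * m) → G => sB L M U := sB_cont M
  obtain ⟨Q, hQ⟩ : ∃ Q : ℝ, Q = C * ((M : ℝ) + 1) ^ (2 * d) / b := ⟨_, rfl⟩
  have hQ0 : 0 ≤ Q := by rw [hQ]; positivity
  have q1 : b ^ 2 * EX μ L (b ^ 4) (fun U : Ed d (2 * m) → G => sB L M U ^ 2) ≤ Q := by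
    rw [hQ, le_div_iff₀ hb0]
    refine le_trans (le_of_eq ?_) hs2
    ring
  have q2 : EX μ L (b ^ 4) (fun U : Ed d (2 * m) → G => sB L M U) ≤ Q := by
    rw [hQ, le_div_iff₀ hb0]
    refine le_trans (le_of_eq ?_) hs1
    ring
  -- the action
  have a1 : b ^ 2 * EX μ L (b ^ 4) (fun U : Ed d (2 * m) → G => |(VA L (A i)
      (aS0 L d (2 * m))).1 U + Fs L (fun a => d1 (A i a)) U|) ≤ s * (2 * d * (d * M)) * Q := by
    have e1 : EX μ L (b ^ 4) (fun U : Ed d (2 * m) → G => |(VA L (A i) (aS0 L d (2 * m))).1 U +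
        Fs L (fun a => d1 (A i a)) U|) ≤ s * (2 * d * (d * M)) *
          EX μ L (b ^ 4) (fun U : Ed d (2 * m) → G => sB L M U ^ 2) := by
      rw [← EX_smul]
      refine EX_mono μ ((Sm_cont _).add (Fs_cont _)).abs (continuous_const.mul (cs.pow 2))
        fun U => (VA_act (hA i) hMl U).trans ?_
      have e2 : (∑ α, ∑ ι', ∑ x, |A i α ι' x|) ≤ s := hs i
      gcongr
    calc _ ≤ b ^ 2 * (s * (2 * d * (d * M)) *
          EX μ L (b ^ 4) (fun U : Ed d (2 * m) → G => sB L M U ^ 2)) :=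
          mul_le_mul_of_nonneg_left e1 (by positivity)
      _ = s * (2 * d * (d * M)) * (b ^ 2 *
          EX μ L (b ^ 4) (fun U : Ed d (2 * m) → G => sB L M U ^ 2)) := by ring
      _ ≤ _ := mul_le_mul_of_nonneg_left q1 (by positivity)
  -- the derivative of the fields
  have a2 : ∀ j, EX μ L (b ^ 4) (fun U : Ed d (2 * m) → G => |(VA L (A i)
      (FsS L fun a => d1 (A j a))).1 U + ∑ a, ipF (d1 (A j a)) (d1 (A i a))|) ≤
        4 * d * s * (2 * n * d * (s * (d * M + 1))) * Q := by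
    intro j
    have e1 : EX μ L (b ^ 4) (fun U : Ed d (2 * m) → G => |(VA L (A i)
        (FsS L fun a => d1 (A j a))).1 U + ∑ a, ipF (d1 (A j a)) (d1 (A i a))|) ≤
        4 * d * s * (2 * n * d * (s * (d * M + 1))) *
          EX μ L (b ^ 4) (fun U : Ed d (2 * m) → G => sB L M U) := by
      rw [← EX_smul]
      refine EX_mono μ ((Sm_cont _).add continuous_const).abs (continuous_const.mul cs) fun U =>
        (VA_Fs (hA i) hMl hS (le_S1 (A i)) (fun a => d1_asy _) (BX_d1 (hA j) hMl) U).trans ?_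
      have e2 := N1_d1 (A j)
      have e3 : 4 * (d : ℝ) * S1 (A j) ≤ 4 * d * s := mul_le_mul_of_nonneg_left (hs j) (by positivity)
      have e4 := N1_nonneg (fun a => d1 (A j a))
      have e5 : N1 (fun a => d1 (A j a)) ≤ 4 * d * s := e2.trans e3
      have e6 := hs i
      have e7 := sB_nonneg (L := L) M U
      gcongr
    exact e1.trans (mul_le_mul_of_nonneg_left q2 (by positivity))
  -- notation
  obtain ⟨Y, hY⟩ : ∃ Y : ι → Sm L (Ed d (2 * m)), Y = fun j => b ^ 2 • FsS L (fun a => d1 (A j a)) :=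
    ⟨_, rfl⟩
  have hYv : ∀ j (U : Ed d (2 * m) → G), (Y j).1 U = b ^ 2 * Fs L (fun a => d1 (A j a)) U := by
    intro j U
    rw [hY, ← FsS_apply]; rfl
  obtain ⟨F, hF⟩ : ∃ F : Sm L (Ed d (2 * m)), F = cmp g hg Y := ⟨_, rfl⟩
  have hFv : ∀ U, F.1 U = g fun j => b ^ 2 * Fs L (fun a => d1 (A j a)) U := by
    intro U
    rw [hF, cmp_apply]
    simp only [hYv]
  have hFc : Continuous F.1 := Sm_cont F
  have hYc : ∀ j, Continuous fun U : Ed d (2 * m) → G => b ^ 2 * Fs L (fun a => d1 (A j a)) U :=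
    fun j => continuous_const.mul (Fs_cont _)
  have hpc : ∀ j, Continuous fun U : Ed d (2 * m) → G =>
      pd g j (fun j => b ^ 2 * Fs L (fun a => d1 (A j a)) U) := fun j =>
    (pd_smooth hg j).continuous.comp (continuous_pi hYc)
  obtain ⟨V, hV⟩ : ∃ V : ι → Sm L (Ed d (2 * m)), V = fun j => VA L (A i)
    (FsS L fun a => d1 (A j a)) := ⟨_, rfl⟩
  obtain ⟨T, hT⟩ : ∃ T : Sm L (Ed d (2 * m)), T = VA L (A i) (aS0 L d (2 * m)) := ⟨_, rfl⟩
  have hVc : ∀ j, Continuous (V j).1 := fun j => Sm_cont _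
  have hTc : Continuous T.1 := Sm_cont _
  -- the Schwinger-Dyson equation
  have sd := EX_SD μ (A := A i) (b ^ 4) F
  have hVF : ∀ U, (VA L (A i) F).1 U = ∑ j, b ^ 2 *
      (pd g j (fun j => b ^ 2 * Fs L (fun a => d1 (A j a)) U) * (V j).1 U) := by
    intro U
    rw [hF, VA_cmp]
    have e1 : (∑ j, cmp (pd g j) (pd_smooth hg j) Y * VA L (A i) (Y j)).1 U =
        L.ev U (∑ j, cmp (pd g j) (pd_smooth hg j) Y * VA L (A i) (Y j)) := rfl
    rw [e1, map_sum]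
    refine Finset.sum_congr rfl fun j _ => ?_
    rw [map_mul]
    have e2 : VA L (A i) (Y j) = b ^ 2 • V j := by rw [hY, hV, Derivation.map_smul]
    rw [e2, map_smul]
    have e3 : L.ev U (cmp (pd g j) (pd_smooth hg j) Y) =
        pd g j (fun j => b ^ 2 * Fs L (fun a => d1 (A j a)) U) := by
      rw [ev_apply, cmp_apply]
      simp only [hYv]
    rw [e3, smul_eq_mul, ev_apply]; ring
  have hl : EX μ L (b ^ 4) (VA L (A i) F).1 = b ^ 2 * ∑ j, EX μ L (b ^ 4)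
      (fun U : Ed d (2 * m) → G => pd g j (fun j => b ^ 2 * Fs L (fun a => d1 (A j a)) U) *
        (V j).1 U) := by
    have e1 : (VA L (A i) F).1 = fun U => ∑ j, b ^ 2 *
      (pd g j (fun j => b ^ 2 * Fs L (fun a => d1 (A j a)) U) * (V j).1 U) := funext hVF
    rw [e1, Pool.Agent.W793.SCHL.EX_int, integral_finsetSum, Finset.mul_sum]
    · refine Finset.sum_congr rfl fun j _ => ?_
      rw [← Pool.Agent.W793.SCHL.EX_int, EX_smul]
    · intro j _
      have := PT_prob μ (L := L) (d := d) (l := 2 * m) (b ^ 4)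
      exact (continuous_const.mul ((hpc j).mul (hVc j))).integrable_of_hasCompactSupport
        (HasCompactSupport.of_compactSpace _)
  have sd' : b ^ 2 * ∑ j, EX μ L (b ^ 4)
      (fun U : Ed d (2 * m) → G => pd g j (fun j => b ^ 2 * Fs L (fun a => d1 (A j a)) U) *
        (V j).1 U) = b ^ 4 * EX μ L (b ^ 4) (fun U => F.1 U * T.1 U) := by
    rw [← hl, hT]; exact sd
  -- the two sides
  have r1 : ∀ j, EX μ L (b ^ 4) (fun U : Ed d (2 * m) → G =>
      pd g j (fun j => b ^ 2 * Fs L (fun a => d1 (A j a)) U) * (V j).1 U) =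
      EX μ L (b ^ 4) (fun U : Ed d (2 * m) → G =>
        pd g j (fun j => b ^ 2 * Fs L (fun a => d1 (A j a)) U) *
          ((V j).1 U + ∑ a, ipF (d1 (A j a)) (d1 (A i a)))) -
      (∑ a, ipF (d1 (A i a)) (d1 (A j a))) * EX μ L (b ^ 4) (fun U : Ed d (2 * m) → G =>
        pd g j (fun j => b ^ 2 * Fs L (fun a => d1 (A j a)) U)) := by
    intro j
    have e1 : Continuous fun U : Ed d (2 * m) → G =>
        pd g j (fun j => b ^ 2 * Fs L (fun a => d1 (A j a)) U) *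
          ((V j).1 U + ∑ a, ipF (d1 (A j a)) (d1 (A i a))) :=
      (hpc j).mul ((hVc j).add continuous_const)
    have e2 : Continuous fun U : Ed d (2 * m) → G => (∑ a, ipF (d1 (A i a)) (d1 (A j a))) *
        pd g j (fun j => b ^ 2 * Fs L (fun a => d1 (A j a)) U) := continuous_const.mul (hpc j)
    rw [← EX_smul, ← EX_sub μ e1 e2]
    congr 1
    funext U
    have e3 : ∑ a, ipF (d1 (A j a)) (d1 (A i a)) = ∑ a, ipF (d1 (A i a)) (d1 (A j a)) :=
      Finset.sum_congr rfl fun a _ => ipF_comm _ _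
    rw [e3]; ring
  have r2 : b ^ 4 * EX μ L (b ^ 4) (fun U => F.1 U * T.1 U) =
      b ^ 4 * EX μ L (b ^ 4) (fun U => F.1 U * (T.1 U + Fs L (fun a => d1 (A i a)) U)) -
      b ^ 2 * EX μ L (b ^ 4) (fun U : Ed d (2 * m) → G => b ^ 2 * Fs L (fun a => d1 (A i a)) U *
          g (fun j => b ^ 2 * Fs L (fun a => d1 (A j a)) U)) := by
    have e1 : Continuous fun U : Ed d (2 * m) → G => b ^ 4 * (F.1 U * (T.1 U +
        Fs L (fun a => d1 (A i a)) U)) :=
      continuous_const.mul (hFc.mul (hTc.add (Fs_cont _)))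
    have e2 : Continuous fun U : Ed d (2 * m) → G => b ^ 2 * (b ^ 2 *
        Fs L (fun a => d1 (A i a)) U * g (fun j => b ^ 2 * Fs L (fun a => d1 (A j a)) U)) :=
      continuous_const.mul ((hYc i).mul (hg.continuous.comp (continuous_pi hYc)))
    rw [← EX_smul, ← EX_smul, ← EX_smul, ← EX_sub μ e1 e2]
    congr 1
    funext U
    rw [hFv]; ring
  -- bounds
  have gen : ∀ (u H : (Ed d (2 * m) → G) → ℝ) (c : ℝ), Continuous u → Continuous H →
      (∀ U, |u U| ≤ c) → |EX μ L (b ^ 4) (fun U => u U * H U)| ≤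
        c * EX μ L (b ^ 4) (fun U => |H U|) := by
    intro u H c hu hH hc
    have k1 : Continuous fun U => u U * H U := hu.mul hH
    refine (EX_abs μ k1).trans ?_
    rw [← EX_smul]
    refine EX_mono μ k1.abs (continuous_const.mul hH.abs) fun U => ?_
    rw [abs_mul]
    exact mul_le_mul_of_nonneg_right (hc U) (abs_nonneg _)
  obtain ⟨X, hX⟩ : ∃ X, X = EX μ L (b ^ 4) (fun U : Ed d (2 * m) → G => b ^ 2 *
    Fs L (fun a => d1 (A i a)) U * g (fun j => b ^ 2 * Fs L (fun a => d1 (A j a)) U)) := ⟨_, rfl⟩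
  obtain ⟨W, hW⟩ : ∃ W : ι → ℝ, W = fun j => (∑ a, ipF (d1 (A i a)) (d1 (A j a))) *
    EX μ L (b ^ 4) (fun U : Ed d (2 * m) → G =>
      pd g j (fun j => b ^ 2 * Fs L (fun a => d1 (A j a)) U)) := ⟨_, rfl⟩
  obtain ⟨E1, hE1⟩ : ∃ E1 : ι → ℝ, E1 = fun j => EX μ L (b ^ 4) (fun U : Ed d (2 * m) → G =>
        pd g j (fun j => b ^ 2 * Fs L (fun a => d1 (A j a)) U) *
          ((V j).1 U + ∑ a, ipF (d1 (A j a)) (d1 (A i a)))) := ⟨_, rfl⟩
  obtain ⟨E2, hE2⟩ : ∃ E2, E2 = EX μ L (b ^ 4) (fun U => F.1 U * (T.1 U +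
    Fs L (fun a => d1 (A i a)) U)) := ⟨_, rfl⟩
  have f1 : ∀ j, |E1 j| ≤ c1 * (4 * d * s * (2 * n * d * (s * (d * M + 1))) * Q) := by
    intro j
    rw [hE1]
    refine (gen _ _ c1 (hpc j) ((hVc j).add continuous_const) fun U => h1 j _).trans ?_
    refine mul_le_mul_of_nonneg_left ?_ hc1
    rw [hV]
    exact a2 j
  have f2 : b ^ 2 * |E2| ≤ c0 * (s * (2 * d * (d * M)) * Q) := by
    have e1 : |E2| ≤ c0 * EX μ L (b ^ 4) (fun U : Ed d (2 * m) → G => |T.1 U +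
        Fs L (fun a => d1 (A i a)) U|) := by
      rw [hE2]
      exact gen _ _ c0 hFc (hTc.add (Fs_cont _)) fun U => by rw [hFv]; exact h0 _
    calc b ^ 2 * |E2| ≤ b ^ 2 * (c0 * EX μ L (b ^ 4) (fun U : Ed d (2 * m) → G => |T.1 U +
        Fs L (fun a => d1 (A i a)) U|)) := mul_le_mul_of_nonneg_left e1 (by positivity)
      _ = c0 * (b ^ 2 * EX μ L (b ^ 4) (fun U : Ed d (2 * m) → G => |T.1 U +
        Fs L (fun a => d1 (A i a)) U|)) := by ring
      _ ≤ _ := by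
        refine mul_le_mul_of_nonneg_left ?_ hc0
        rw [hT]; exact a1
  have hmain : b ^ 2 * (X - ∑ j, W j) = b ^ 2 * (b ^ 2 * E2 - ∑ j, E1 j) := by
    rw [r2, Finset.sum_congr rfl fun j _ => r1 j, Finset.sum_sub_distrib, ← hX, ← hE2] at sd'
    have e1 : ∑ j, E1 j = ∑ j, EX μ L (b ^ 4) (fun U : Ed d (2 * m) → G =>
        pd g j (fun j => b ^ 2 * Fs L (fun a => d1 (A j a)) U) *
          ((V j).1 U + ∑ a, ipF (d1 (A j a)) (d1 (A i a)))) := by rw [hE1]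
    have e2 : ∑ j, W j = ∑ j, (∑ a, ipF (d1 (A i a)) (d1 (A j a))) *
        EX μ L (b ^ 4) (fun U : Ed d (2 * m) → G =>
          pd g j (fun j => b ^ 2 * Fs L (fun a => d1 (A j a)) U)) := by rw [hW]
    rw [← e1, ← e2] at sd'
    linear_combination sd'
  have hmain' : X - ∑ j, W j = b ^ 2 * E2 - ∑ j, E1 j :=
    mul_left_cancel₀ (by positivity) hmain
  have goal1 : |X - ∑ j, W j| ≤ C * (2 * d ^ 2 + 8 * d * n * d * (d + 1) + 1) *
      (Fintype.card ι + 1) * ((M : ℝ) + 1) ^ (2 * d + 1) * (1 + s) ^ 2 / b * (c0 + c1) := by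
    rw [hmain']
    have k1 : |∑ j, E1 j| ≤ Fintype.card ι *
        (c1 * (4 * d * s * (2 * n * d * (s * (d * M + 1))) * Q)) := by
      refine (Finset.abs_sum_le_sum_abs _ _).trans ?_
      calc ∑ j, |E1 j| ≤ ∑ _j : ι, c1 * (4 * d * s * (2 * n * d * (s * (d * M + 1))) * Q) :=
            Finset.sum_le_sum fun j _ => f1 j
        _ = _ := by rw [Finset.sum_const, Finset.card_univ, nsmul_eq_mul]
    have k2 : |b ^ 2 * E2 - ∑ j, E1 j| ≤ b ^ 2 * |E2| + |∑ j, E1 j| := by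
      refine (abs_sub _ _).trans (le_of_eq ?_)
      rw [abs_mul, abs_of_pos (by positivity : (0 : ℝ) < b ^ 2)]
    refine k2.trans ((add_le_add f2 k1).trans ?_)
    have hcd : (0 : ℝ) ≤ Fintype.card ι := Nat.cast_nonneg _
    have e1 : C * (2 * d ^ 2 + 8 * d * n * d * (d + 1) + 1) * (Fintype.card ι + 1) *
        ((M : ℝ) + 1) ^ (2 * d + 1) * (1 + s) ^ 2 / b * (c0 + c1) =
        (2 * d ^ 2 + 8 * d * n * d * (d + 1) + 1) * (Fintype.card ι + 1) * (((M : ℝ) + 1) *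
        (1 + s) ^ 2) * Q * (c0 + c1) := by
      rw [hQ, pow_succ]; ring
    rw [e1]
    exact arith1 hdn hnn hM0 hs0 hcd hQ0 hc0 hc1
  rw [hX, hW] at goal1
  exact goal1

end

end Pool.Agent.H991.TV
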