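import Mathlib
import Pool.Agent.H991.TV.Comp

/-!
# The curvature is close to its exact part; linearisation of the holonomies
-/

open MeasureTheory Matrix
open scoped Matrix.Norms.Frobenius ContDiff
open Pool.Agent.H906R3.YM Pool.Agent.W793.YM

namespace Pool.Agent.H991.TV

set_option linter.unusedSectionVars false
set_option linter.unusedVariables false

noncomputable section

variable {G : Type*} [Group G] [TopologicalSpace G] [IsTopologicalGroup G] [CompactSpace G]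
  [SecondCountableTopology G] [MeasurableSpace G] [BorelSpace G] (μ : Measure G)
  [IsProbabilityMeasure μ] [μ.IsMulLeftInvariant] [μ.IsMulRightInvariant] [μ.IsInvInvariant]
  {N n : ℕ} {L : LD G N n} {d : ℕ}

/-- The smeared curvature is close to its exact part. -/
theorem near_exact (hd : 3 ≤ d) : ∃ C : ℝ, 0 < C ∧ ∀ b : ℝ, 1 ≤ b → ∀ (m : ℕ) [NeZero m] (K : ℕ),
    1 ≤ K → 3 * K + 5 < 2 * m → ∀ f : Fin n → Fm d (2 * m), (∀ a, Asy (f a)) →
    (∀ a j k, SW (K + 2) (2 * K + 2) (f a j k)) →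
      EX μ L (b ^ 4) (fun U : Ed d (2 * m) → G => |b ^ 2 * Fs L f U -
        b ^ 2 * Fs L (fun a => d1 (AK K f a)) U|) ≤
          C * (N1 f / Real.sqrt (Real.sqrt K ^ (d - 2)) +
            (K : ℝ) ^ (2 * d + 3) * (1 + N1 f) ^ 2 / b) := by
  have hd1 : 1 ≤ d := by omega
  obtain ⟨C1, hC1, h1⟩ := Fs_abs μ (L := L) hd1
  obtain ⟨C2, hC2, h2⟩ := sB_moms μ (L := L) hd1
  obtain ⟨c, hc⟩ : ∃ c : ℝ, c = (2 + 2 * Real.sqrt (2 * d)) ^ d := ⟨_, rfl⟩
  have hc0 : 0 < c := by rw [hc]; positivity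
  obtain ⟨D, hD⟩ : ∃ D : ℝ, D = C1 * Real.sqrt (8 * c) + (C1 * 9 ^ (2 * d + 3) +
    C2 * ((2 + 8 * d) * (3 * (d * 8) ^ 2) * 9 ^ (2 * d))) := ⟨_, rfl⟩
  have hD0 : 0 < D := by rw [hD]; positivity
  refine ⟨D, hD0, fun b hb m _ K hK hKm f hf hfs => ?_⟩
  have hb0 : 0 < b := by linarith
  have hm : 2 ≤ m := by omega
  have hK1 : (1 : ℝ) ≤ K := by exact_mod_cast hK
  obtain ⟨M, hM⟩ : ∃ M, M = 3 * K + 5 := ⟨_, rfl⟩
  have hMl : M < 2 * m := by omega
  have hM8 : (M : ℝ) ≤ 8 * K := by rw [hM]; push_cast; linarith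
  have hM9 : (M : ℝ) + 1 ≤ 9 * K := by rw [hM]; push_cast; linarith
  have hM0 : (0 : ℝ) ≤ M := Nat.cast_nonneg _
  have hN := N1_nonneg f
  have hd0 : (0 : ℝ) ≤ d := Nat.cast_nonneg _
  -- supports
  have sP : ∀ a j k, SW 2 (3 * K + 2) (Pks K f a j k) := fun a j k =>
    ((hfs a j k).Plk (k := K) (by omega) (by omega)).mono (by omega) (by omega)
  have sU : ∀ a j k, SW 2 (3 * K + 2) (uKs K f a j k) := fun a j k =>
    ((hfs a j k).uK (k := K) (by omega) (by omega)).mono (by omega) (by omega)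
  have sA : ∀ a k, SW 2 (3 * K + 3) (AK K f a k) := fun a k => SW.ds2 (sU a) (by omega) k
  have sC : ∀ a j k, SW 1 (3 * K + 3) (cx (uKs K f a) j k) := fun a j k =>
    SW.cx (sU a) (by omega) (by omega) j k
  have hAB : ∀ α ι, AB M (AK K f α ι) := fun α ι x hx i => by
    have := sA α ι x hx i; omega
  -- the three terms
  obtain ⟨T, hT⟩ : ∃ T : ℝ, T = N1 f / Real.sqrt (Real.sqrt K ^ (d - 2)) := ⟨_, rfl⟩
  obtain ⟨Q, hQ⟩ : ∃ Q : ℝ, Q = (K : ℝ) ^ (2 * d + 3) * (1 + N1 f) ^ 2 / b := ⟨_, rfl⟩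
  have hT0 : 0 ≤ T := by rw [hT]; positivity
  have hQ0 : 0 ≤ Q := by rw [hQ]; positivity
  have hNQ : N1 f ≤ (1 + N1 f) ^ 2 := by nlinarith
  have t1 : EX μ L (b ^ 4) (fun U : Ed d (2 * m) → G => |b ^ 2 * Fs L (Pks K f) U|) ≤
      C1 * Real.sqrt (8 * c) * T + C1 * 9 ^ (2 * d + 3) * Q := by
    have e1 := h1 b hb m hm M (by omega) hMl (Pks K f) (fun a j k x hx i => by
      have := sP a j k x hx i; omega)
    have e2 : Real.sqrt (M * N2 (Pks K f)) ≤ Real.sqrt (8 * c) * T := by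
      have e3 := N2_Pks hd hK (by omega) f
      rw [← hc] at e3
      have e4 : M * N2 (Pks K f) ≤ 8 * c * (N1 f ^ 2 / Real.sqrt K ^ (d - 2)) := by
        have e5 : (M : ℝ) * N2 (Pks K f) ≤ 8 * K * N2 (Pks K f) :=
          mul_le_mul_of_nonneg_right hM8 (N2_nonneg _)
        have e6 : 8 * (K * N2 (Pks K f)) ≤ 8 * (c / Real.sqrt K ^ (d - 2) * N1 f ^ 2) :=
          mul_le_mul_of_nonneg_left e3 (by norm_num)
        calc _ ≤ 8 * (K * N2 (Pks K f)) := by linarith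
          _ ≤ _ := e6
          _ = _ := by ring
      refine (Real.sqrt_le_sqrt e4).trans (le_of_eq ?_)
      rw [Real.sqrt_mul (by positivity), hT, Real.sqrt_div (sq_nonneg _), Real.sqrt_sq hN]
    have e3 : ((M : ℝ) + 1) ^ (2 * d + 3) * N1 (Pks K f) / b ≤ 9 ^ (2 * d + 3) * Q := by
      have e4 : ((M : ℝ) + 1) ^ (2 * d + 3) ≤ (9 * K) ^ (2 * d + 3) :=
        pow_le_pow_left₀ (by positivity) hM9 _
      have e5 : N1 (Pks K f) ≤ (1 + N1 f) ^ 2 := (N1_Pks (by omega) K f).trans hNQ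
      calc ((M : ℝ) + 1) ^ (2 * d + 3) * N1 (Pks K f) / b ≤
          (9 * K) ^ (2 * d + 3) * (1 + N1 f) ^ 2 / b := by
            have := N1_nonneg (Pks K f)
            gcongr
        _ = _ := by rw [hQ, mul_pow]; ring
    calc _ ≤ _ := e1
      _ ≤ C1 * (Real.sqrt (8 * c) * T + 9 ^ (2 * d + 3) * Q) :=
          mul_le_mul_of_nonneg_left (add_le_add e2 e3) hC1.le
      _ = _ := by ring
  have t2 : EX μ L (b ^ 4) (fun U : Ed d (2 * m) → G =>
      |b ^ 2 * Fs L (fun a => cx (uKs K f a)) U|) ≤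
      C2 * ((2 + 8 * d) * (3 * (d * 8) ^ 2) * 9 ^ (2 * d)) * Q := by
    obtain ⟨-, e1, -⟩ := h2 b hb m hm M
    obtain ⟨E, hE⟩ : ∃ E, E = EX μ L (b ^ 4)
      (fun U : Ed d (2 * m) → G => sB L M U ^ 2) := ⟨_, rfl⟩
    have hE0 : 0 ≤ E := by rw [hE]; exact EX_nonneg μ fun U => by positivity
    rw [← hE] at e1
    have e2 : EX μ L (b ^ 4) (fun U : Ed d (2 * m) → G =>
        |b ^ 2 * Fs L (fun a => cx (uKs K f a)) U|) ≤
        b ^ 2 * (N1 (fun a => cx (uKs K f a)) * (3 * (d * M) ^ 2)) * E := by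
      rw [hE, ← EX_smul]
      refine EX_mono μ (continuous_const.mul (Fs_cont _)).abs
        (continuous_const.mul ((sB_cont M).pow 2)) fun U => ?_
      rw [abs_mul, abs_of_pos (show 0 < b ^ 2 by positivity)]
      have e3 := Fs_cx (L := L) (M := M) (uKs_asy (K := K) hf) (fun a j k x hx i => by
        have := sC a j k x hx i; omega) hMl U
      calc b ^ 2 * |Fs L (fun a => cx (uKs K f a)) U| ≤
          b ^ 2 * (N1 (fun a => cx (uKs K f a)) * (3 * (d * M * sB L M U) ^ 2)) :=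
            mul_le_mul_of_nonneg_left e3 (by positivity)
        _ = _ := by ring
    have e3 : b ^ 2 * E ≤ C2 * ((M : ℝ) + 1) ^ (2 * d) / b := by
      rw [le_div_iff₀ hb0]
      refine le_trans (le_of_eq ?_) e1
      ring
    have e4 : N1 (fun a => cx (uKs K f a)) ≤ (2 + 8 * d) * K * (1 + N1 f) ^ 2 := by
      have e5 := N1_cx (show 0 < d by omega) K f
      have e6 : (2 + 8 * (d : ℝ) * K) ≤ (2 + 8 * d) * K := by nlinarith
      exact e5.trans (mul_le_mul e6 hNQ hN (by positivity))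
    calc _ ≤ _ := e2
      _ = N1 (fun a => cx (uKs K f a)) * (3 * (d * M) ^ 2) * (b ^ 2 * E) := by ring
      _ ≤ ((2 + 8 * d) * K * (1 + N1 f) ^ 2) * (3 * (d * (8 * K)) ^ 2) *
          (C2 * (9 * K) ^ (2 * d) / b) := by
          have e7 := N1_nonneg (fun a => cx (uKs K f a))
          have e8 : b ^ 2 * E ≤ C2 * (9 * K) ^ (2 * d) / b := by
            refine e3.trans ?_
            gcongr
          gcongr
      _ = _ := by
          rw [hQ, mul_pow 9 (K : ℝ), pow_add (K : ℝ) (2 * d) 3]; ring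
  have hdiff : ∀ U : Ed d (2 * m) → G, b ^ 2 * Fs L f U -
      b ^ 2 * Fs L (fun a => d1 (AK K f a)) U = b ^ 2 * Fs L (Pks K f) U +
        b ^ 2 * Fs L (fun a => cx (uKs K f a)) U := by
    intro U
    have e1 : Fs L f U = Fs L (Pks K f) U + Fs L (fun a => d1 (AK K f a)) U +
        Fs L (fun a => cx (uKs K f a)) U := by
      conv_lhs => rw [dec K f]
      rw [Fs_add, Fs_add]
    rw [e1]; ring
  have hcf : ∀ g : Fin n → Fm d (2 * m), Continuous fun U : Ed d (2 * m) → G =>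
      b ^ 2 * Fs L g U := fun g => continuous_const.mul (Fs_cont g)
  have hX : EX μ L (b ^ 4) (fun U : Ed d (2 * m) → G => |b ^ 2 * Fs L f U -
      b ^ 2 * Fs L (fun a => d1 (AK K f a)) U|) ≤ C1 * Real.sqrt (8 * c) * T +
        C1 * 9 ^ (2 * d + 3) * Q + C2 * ((2 + 8 * d) * (3 * (d * 8) ^ 2) * 9 ^ (2 * d)) * Q := by
    have e1 : EX μ L (b ^ 4) (fun U : Ed d (2 * m) → G => |b ^ 2 * Fs L f U -
      b ^ 2 * Fs L (fun a => d1 (AK K f a)) U|) ≤
      EX μ L (b ^ 4) (fun U : Ed d (2 * m) → G => |b ^ 2 * Fs L (Pks K f) U| +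
        |b ^ 2 * Fs L (fun a => cx (uKs K f a)) U|) :=
      EX_mono μ ((hcf _).sub (hcf _)).abs ((hcf _).abs.add (hcf _).abs) fun U => by
        rw [hdiff]; exact abs_add_le _ _
    rw [EX_add μ (F := fun U : Ed d (2 * m) → G => |b ^ 2 * Fs L (Pks K f) U|)
      (H := fun U : Ed d (2 * m) → G => |b ^ 2 * Fs L (fun a => cx (uKs K f a)) U|)
      (hcf _).abs (hcf _).abs] at e1
    linarith
  refine hX.trans ?_
  rw [← hT, ← hQ]
  have p1 : 0 ≤ C1 * Real.sqrt (8 * c) * Q := by positivity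
  have p2 : 0 ≤ (C1 * 9 ^ (2 * d + 3) +
      C2 * ((2 + 8 * d) * (3 * (d * 8) ^ 2) * 9 ^ (2 * d))) * T := by positivity
  rw [hD]
  linarith

end

end Pool.Agent.H991.TV
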