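import Mathlib
import Pool.Agent.H991.TV.Near
import Pool.Graph.R_seed8.TH369.WL.Near

/-!
# Linearisation of the holonomies of closed paths, transported to the origin
-/

open MeasureTheory Matrix
open scoped Matrix.Norms.Frobenius ContDiff
open Pool.Agent.H906R3.YM Pool.Agent.W793.YM Pool.Agent.TH369.WL

namespace Pool.Agent.H991.TV

set_option linter.unusedSectionVars false
set_option linter.unusedVariables false

noncomputable section

variable {G : Type*} [Group G] [TopologicalSpace G] [IsTopologicalGroup G] [CompactSpace G]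
  [SecondCountableTopology G] [MeasurableSpace G] [BorelSpace G] (μ : Measure G)
  [IsProbabilityMeasure μ] [μ.IsMulLeftInvariant] [μ.IsMulRightInvariant] [μ.IsInvInvariant]
  {N n : ℕ} {L : LD G N n} {d l : ℕ} [NeZero l] {M R : ℕ} {o z : Fin d → ℤ}
  {p : List (Fin d × Bool)}

/-- the comb transports from `o` and from the origin -/
lemma frame_dv (U : Ed d l → G) (hMl : M < l)
    (ho : ∀ i, ((d * R : ℕ) : ℤ) ≤ o i ∧ o i + (d * R : ℕ) + 1 < M) {v : Pt d} (hv : ∀ i, v i ≤ R) :
    dv L (Pc U (zt l o) * fr (uo (lf U) o) v * (Pc U (zt l (o + nz v)))⁻¹) ≤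
      (d * R : ℕ) * (d * M * sB L M U) := by
  have h1 : ((cmb (sz v) v).length : ℤ) ≤ (d * R : ℕ) := by
    exact_mod_cast (cmb_len (sz v) v).trans (sz_le hv)
  have h2 := hol_dv (L := L) U hMl (cmb (sz v) v) o (fun i => h1.trans (ho i).1)
    (fun i => by have := (ho i).2; omega)
  rw [cmb_dest o _ _ rfl, cmb_fr] at h2
  refine h2.trans (mul_le_mul_of_nonneg_right ?_ ?_)
  · exact_mod_cast h1
  · have := sB_nonneg (L := L) M U
    positivity

lemma list_conj (h : G) (gs : List G) : h * gs.prod * h⁻¹ = (gs.map fun g => h * g * h⁻¹).prod := by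
  induction gs with
  | nil => simp
  | cons g gs ih =>
    rw [List.prod_cons, List.map_cons, List.prod_cons, ← ih]
    group

lemma list_abs_sum {κ : Type*} (Lst : List κ) (F H : κ → ℝ) {B : ℝ}
    (h : ∀ x ∈ Lst, |F x - H x| ≤ B) : |(Lst.map F).sum - (Lst.map H).sum| ≤ Lst.length * B := by
  induction Lst with
  | nil => simp
  | cons a Lst ih =>
    simp only [List.map_cons, List.sum_cons, List.length_cons]
    have h1 := h a (by simp)
    have h2 := ih fun x hx => h x (by simp [hx])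
    push_cast
    have h3 : F a + (Lst.map F).sum - (H a + (Lst.map H).sum) =
        (F a - H a) + ((Lst.map F).sum - (Lst.map H).sum) := by ring
    rw [h3]
    refine (abs_add_le _ _).trans ?_
    linarith

lemma list_sum_le' {κ : Type*} (Lst : List κ) (F : κ → ℝ) {B : ℝ} (h : ∀ x ∈ Lst, F x ≤ B) :
    (Lst.map F).sum ≤ Lst.length * B := by
  induction Lst with
  | nil => simp
  | cons a Lst ih =>
    simp only [List.map_cons, List.sum_cons, List.length_cons]
    have h1 := h a (by simp)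
    have h2 := ih fun x hx => h x (by simp [hx])
    push_cast
    linarith

/-- the number of faces -/
def Fn (d R : ℕ) (p : List (Fin d × Bool)) : ℝ := (p.length * (d * R) : ℕ)

lemma Fn_nonneg (d R : ℕ) (p : List (Fin d × Bool)) : 0 ≤ Fn d R p := Nat.cast_nonneg _

/-- The coordinates of the holonomy of a closed path, transported to the origin. -/
theorem lin0 (hd : 1 ≤ d) (U : Ed d l → G) (hMl : M < l)
    (ho : ∀ i, ((d * R : ℕ) : ℤ) ≤ o i ∧ o i + (d * R : ℕ) + 1 < M)
    (h1 : ∀ i, z i + p.length ≤ o i + R) (h2 : ∀ i, o i + p.length ≤ z i) (hc : dest z p = z)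
    (a : Fin n) :
    |fi L a (Pc U (zt l z) * hol (lf U) z p * (Pc U (zt l z))⁻¹) -
      ipF (fF l o z p) (Fz L U a)| ≤
        (Fn d R p ^ 2 + 4 * Fn d R p * ((d * R : ℕ) * (d * M))) * sB L M U ^ 2 := by
  obtain ⟨s, hs⟩ : ∃ s, s = sB L M U := ⟨_, rfl⟩
  have hs0 : 0 ≤ s := by rw [hs]; exact sB_nonneg _ _
  have hRd : (R : ℤ) ≤ (d * R : ℕ) := by
    push_cast
    nlinarith [show (1 : ℤ) ≤ d by exact_mod_cast hd, show (0 : ℤ) ≤ R from Int.natCast_nonneg _]
  obtain ⟨e, he⟩ : ∃ e : ℝ, e = (d * R : ℕ) * (d * M) := ⟨_, rfl⟩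
  have he0 : 0 ≤ e := by rw [he]; positivity
  have hframe : ∀ v : Pt d, (∀ i, v i ≤ R) →
      dv L (Pc U (zt l o) * fr (uo (lf U) o) v * (Pc U (zt l (o + nz v)))⁻¹) ≤ e * s := by
    intro v hv
    refine (frame_dv (L := L) U hMl ho hv).trans (le_of_eq ?_)
    rw [he, hs]; ring
  -- the holonomy
  have hfc := hol_fcs (lf U) o p z h2
  rw [hc] at hfc
  have hw : ∀ i, wz o z i ≤ R := fun i => by
    have e1 := h1 i
    have e2 := h2 i
    unfold wz
    have : (0 : ℤ) ≤ p.length := Int.natCast_nonneg _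
    omega
  have hnw : o + nz (wz o z) = z := nz_wz fun i => by
    have e2 := h2 i
    have : (0 : ℤ) ≤ p.length := Int.natCast_nonneg _
    omega
  obtain ⟨T, hT⟩ : ∃ T, T = fr (uo (lf U) o) (wz o z) := ⟨_, rfl⟩
  obtain ⟨O, hO⟩ : ∃ O, O = Pc U (zt l o) := ⟨_, rfl⟩
  obtain ⟨P, hP⟩ : ∃ P, P = Pc U (zt l z) := ⟨_, rfl⟩
  have hD : dv L (O * T * P⁻¹) ≤ e * s := by
    have := hframe (wz o z) hw
    rw [hnw] at this
    rw [hO, hT, hP]; exact this
  -- the faces
  have hface : ∀ f ∈ fcs o z p, dv L (O * vl (uo (lf U) o) f * O⁻¹) ≤ s ∧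
      |fi L a (O * vl (uo (lf U) o) f * O⁻¹) -
        sg f.2 * Fz L U a f.1.2.1 f.1.2.2 (zt l (o + nz f.1.1))| ≤ 2 * (e * s) * s := by
    intro f hf
    obtain ⟨hf1, hf2⟩ := fcs_mem o R p z h1 f hf
    have hy : ∀ i, wv (zt l (o + nz f.1.1)) i < M := by
      intro i
      have hv : (f.1.1 i : ℤ) ≤ R := by exact_mod_cast hf1 i
      have hM' : (M : ℤ) < l := by exact_mod_cast hMl
      have e1 := wv_zt (l := l) (z := o + nz f.1.1) (fun i => by
        have e2 := ho i
        have e3 : (f.1.1 i : ℤ) ≤ R := by exact_mod_cast hf1 i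
        simp only [Pi.add_apply, nz]
        constructor <;> omega) i
      have e2 := ho i
      simp only [Pi.add_apply, nz] at e1
      omega
    have hpl : dv L (plqT U (zt l (o + nz f.1.1)) f.1.2.1 f.1.2.2) ≤ s := by
      rw [hs]; exact le_sB' U hy hf2
    obtain ⟨D, hDd⟩ : ∃ D, D = O * fr (uo (lf U) o) f.1.1 * (Pc U (zt l (o + nz f.1.1)))⁻¹ := ⟨_, rfl⟩
    have hDv : dv L D ≤ e * s := by rw [hDd, hO]; exact hframe _ hf1
    have hz : O * Zp (uo (lf U) o) f.1 * O⁻¹ = D * (Pc U (zt l (o + nz f.1.1)) *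
        plqT U (zt l (o + nz f.1.1)) f.1.2.1 f.1.2.2 * (Pc U (zt l (o + nz f.1.1)))⁻¹) * D⁻¹ := by
      unfold Zp
      rw [uo_plq, hDd]
      group
    have hfi : |fi L a (O * Zp (uo (lf U) o) f.1 * O⁻¹) -
        Fz L U a f.1.2.1 f.1.2.2 (zt l (o + nz f.1.1))| ≤ 2 * (e * s) * s := by
      rw [hz]
      refine (fi_conj a D _).trans ?_
      rw [dv_conj]
      exact mul_le_mul (by linarith) hpl (dv_nonneg _) (by positivity)
    constructor
    · rw [dv_conj, dv_vl, uo_plq]; exact hpl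
    · obtain ⟨f, sgn⟩ := f
      cases sgn with
      | true =>
        simp only [vl, sg, if_true, one_mul]
        exact hfi
      | false =>
        simp only [vl, sg, Bool.false_eq_true, if_false]
        have e1 : O * (Zp (uo (lf U) o) f)⁻¹ * O⁻¹ = (O * Zp (uo (lf U) o) f * O⁻¹)⁻¹ := by group
        rw [e1, fi_inv]
        have e2 : -fi L a (O * Zp (uo (lf U) o) f * O⁻¹) -
            -1 * Fz L U a f.2.1 f.2.2 (zt l (o + nz f.1)) =
            -(fi L a (O * Zp (uo (lf U) o) f * O⁻¹) -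
              Fz L U a f.2.1 f.2.2 (zt l (o + nz f.1))) := by ring
        rw [e2, abs_neg]
        exact hfi
  have hlen : ((fcs o z p).length : ℝ) ≤ Fn d R p := by
    unfold Fn
    exact_mod_cast fcs_len o R p z h1 h2
  have hFn := Fn_nonneg d R p
  obtain ⟨gs, hgs⟩ : ∃ gs : List G, gs = (fcs o z p).map fun f =>
    O * vl (uo (lf U) o) f * O⁻¹ := ⟨_, rfl⟩
  have hprod : O * (T * hol (lf U) z p * T⁻¹) * O⁻¹ = gs.prod := by
    rw [hT, hfc, list_conj, List.map_map, hgs]
    rfl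
  have hsd : (gs.map (dv L)).sum ≤ Fn d R p * s := by
    rw [hgs, List.map_map]
    refine (list_sum_le' _ _ (B := s) fun f hf => (hface f hf).1).trans ?_
    exact mul_le_mul_of_nonneg_right hlen hs0
  have hsd0 := list_dv_nonneg (L := L) gs
  have k1 : |fi L a gs.prod - (gs.map (fi L a)).sum| ≤ (Fn d R p * s) ^ 2 :=
    (list_fi a gs).trans (pow_le_pow_left₀ hsd0 hsd 2)
  have k2 : |(gs.map (fi L a)).sum - ipF (fF l o z p) (Fz L U a)| ≤
      Fn d R p * (2 * (e * s) * s) := by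
    rw [ipF_fF (Fz_asy U a), hgs, List.map_map]
    refine (list_abs_sum _ _ _ fun f hf => (hface f hf).2).trans ?_
    exact mul_le_mul_of_nonneg_right hlen (by positivity)
  have k3 : |fi L a (P * hol (lf U) z p * P⁻¹) - fi L a gs.prod| ≤ 2 * (e * s) * (Fn d R p * s) := by
    have e1 : P * hol (lf U) z p * P⁻¹ = (O * T * P⁻¹)⁻¹ * gs.prod * (O * T * P⁻¹)⁻¹⁻¹ := by
      rw [← hprod]; group
    rw [e1]
    refine (fi_conj a _ _).trans ?_
    rw [dv_inv]
    exact mul_le_mul (by linarith) ((list_dv gs).trans hsd) (dv_nonneg _) (by positivity)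
  have k4 : fi L a (P * hol (lf U) z p * P⁻¹) - ipF (fF l o z p) (Fz L U a) =
      (fi L a (P * hol (lf U) z p * P⁻¹) - fi L a gs.prod) +
      ((fi L a gs.prod - (gs.map (fi L a)).sum) +
        ((gs.map (fi L a)).sum - ipF (fF l o z p) (Fz L U a))) := by ring
  rw [← hP, ← hs, k4]
  refine (abs_add_le _ _).trans ((add_le_add k3 ((abs_add_le _ _).trans (add_le_add k1 k2))).trans
    (le_of_eq ?_))
  rw [he]; ring

end

end Pool.Agent.H991.TV
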