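import Mathlib
import Pool.Agent.H991.TV.Lin

/-!
# The frame of the holonomies is irrelevant for their joint law
-/

open MeasureTheory Matrix
open scoped Matrix.Norms.Frobenius ContDiff
open Pool.Agent.H906R3.YM Pool.Agent.W793.YM Pool.Agent.TH369.WL
open Pool.Agent.W793.SCHL (PT PT_prob EX_int)

namespace Pool.Agent.H991.TV

set_option linter.unusedSectionVars false
set_option linter.unusedVariables false

noncomputable section

variable {G : Type*} [Group G] [TopologicalSpace G] [IsTopologicalGroup G] [CompactSpace G]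
  [SecondCountableTopology G] [MeasurableSpace G] [BorelSpace G] (μ : Measure G)
  [IsProbabilityMeasure μ] [μ.IsMulLeftInvariant] [μ.IsMulRightInvariant] [μ.IsInvInvariant]
  {N n : ℕ} {L : LD G N n} {d l : ℕ} [NeZero l]

lemma EX_swap {β : ℝ} {F : G → (Ed d l → G) → ℝ}
    (hF : Continuous fun p : G × (Ed d l → G) => F p.1 p.2) :
    ∫ g, EX μ L β (F g) ∂μ = EX μ L β (fun U => ∫ g, F g U ∂μ) := by
  have := PT_prob μ (L := L) (d := d) (l := l) β
  simp only [EX_int]
  refine integral_integral_swap ?_
  exact hF.integrable_of_hasCompactSupport (HasCompactSupport.of_compactSpace _)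

lemma law_eq {β : ℝ} {κ : Type*} {Φ : (κ → G) → ℝ} (hΦ : Continuous Φ)
    {h : κ → (Ed d l → G) → G} (hh : ∀ k, Continuous (h k)) {z : St d l} (hz : z ≠ 0)
    (heq : ∀ k γ U, h k (gt γ U) = γ z * h k U * (γ z)⁻¹) :
    EX μ L β (fun U => Φ fun k => Pc U z * h k U * (Pc U z)⁻¹) =
      EX μ L β (fun U => Φ fun k => h k U) := by
  classical
  have hPc := Pc_cont (G := G) z
  have c0 : Continuous fun U : Ed d l → G => Φ fun k => h k U := hΦ.comp (continuous_pi hh)
  have c1 : Continuous fun U : Ed d l → G => Φ fun k => Pc U z * h k U * (Pc U z)⁻¹ :=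
    hΦ.comp (continuous_pi fun k => (hPc.mul (hh k)).mul hPc.inv)
  have s1 : ∀ g : G, EX μ L β (fun U => Φ fun k => Pc U z * h k U * (Pc U z)⁻¹) =
      EX μ L β (fun U => Φ fun k => (g * Pc U z) * h k U * (g * Pc U z)⁻¹) := by
    intro g
    rw [← EX_gt μ (L := L) (β := β) (Function.update (1 : St d l → G) 0 g) c1]
    congr 1
    funext U
    congr 1
    funext k
    rw [heq, Pc_gt, Function.update_self, Function.update_of_ne hz]
    simp
  have s2 : ∀ g : G, EX μ L β (fun U => Φ fun k => h k U) =
      EX μ L β (fun U => Φ fun k => g * h k U * g⁻¹) := by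
    intro g
    rw [← EX_gt μ (L := L) (β := β) (Function.update (1 : St d l → G) z g) c0]
    congr 1
    funext U
    congr 1
    funext k
    rw [heq, Function.update_self]
  have c2 : Continuous fun p : G × (Ed d l → G) =>
      Φ fun k => (p.1 * Pc p.2 z) * h k p.2 * (p.1 * Pc p.2 z)⁻¹ := by
    refine hΦ.comp (continuous_pi fun k => ?_)
    have e1 : Continuous fun p : G × (Ed d l → G) => p.1 * Pc p.2 z :=
      continuous_fst.mul (hPc.comp continuous_snd)
    exact (e1.mul ((hh k).comp continuous_snd)).mul e1.inv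
  have c3 : Continuous fun p : G × (Ed d l → G) => Φ fun k => p.1 * h k p.2 * p.1⁻¹ := by
    refine hΦ.comp (continuous_pi fun k => ?_)
    exact (continuous_fst.mul ((hh k).comp continuous_snd)).mul continuous_fst.inv
  have e1 : EX μ L β (fun U => Φ fun k => Pc U z * h k U * (Pc U z)⁻¹) =
      ∫ g, EX μ L β (fun U => Φ fun k => (g * Pc U z) * h k U * (g * Pc U z)⁻¹) ∂μ := by
    have : (fun g : G => EX μ L β (fun U => Φ fun k => (g * Pc U z) * h k U * (g * Pc U z)⁻¹)) =
        fun _ => EX μ L β (fun U => Φ fun k => Pc U z * h k U * (Pc U z)⁻¹) := by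
      funext g; exact (s1 g).symm
    rw [this, integral_const]
    simp
  have e2 : EX μ L β (fun U => Φ fun k => h k U) =
      ∫ g, EX μ L β (fun U => Φ fun k => g * h k U * g⁻¹) ∂μ := by
    have : (fun g : G => EX μ L β (fun U => Φ fun k => g * h k U * g⁻¹)) =
        fun _ => EX μ L β (fun U => Φ fun k => h k U) := by
      funext g; exact (s2 g).symm
    rw [this, integral_const]
    simp
  rw [e1, e2, EX_swap μ (F := fun g U => Φ fun k => (g * Pc U z) * h k U * (g * Pc U z)⁻¹) c2,
    EX_swap μ (F := fun g U => Φ fun k => g * h k U * g⁻¹) c3]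
  congr 1
  funext U
  exact integral_mul_right_eq_self (μ := μ) (fun g => Φ fun k => g * h k U * g⁻¹) (Pc U z)

end

end Pool.Agent.H991.TV
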