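import Mathlib
import Pool.Agent.H991.TV.Mol
import Pool.Graph.R_seed8.W793.YM.Gauss

/-!
# One link in an external field: stability under shifts of the coordinates
-/

open MeasureTheory Matrix
open scoped Matrix.Norms.Frobenius ContDiff
open Pool.Agent.H906R3.YM Pool.Agent.W793.YM

namespace Pool.Agent.H991.TV

set_option linter.unusedSectionVars false
set_option linter.unusedVariables false

noncomputable section

section det

variable {V : Type*} [NormedAddCommGroup V] [NormedSpace ℝ V] {κ : Type*} [Fintype κ]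
  [DecidableEq κ]

lemma smooth_det {A : V → Matrix κ κ ℝ} (h : ∀ i j, ContDiff ℝ ∞ fun x => A x i j) :
    ContDiff ℝ ∞ fun x => (A x).det := by
  simp only [Matrix.det_apply]
  refine ContDiff.sum fun σ _ => ?_
  have h1 : ContDiff ℝ ∞ fun x => ∏ i, A x (σ i) i := contDiff_prod fun i _ => h _ _
  exact h1.const_smul (Equiv.Perm.sign σ)

lemma smooth_adj {A : V → Matrix κ κ ℝ} (h : ∀ i j, ContDiff ℝ ∞ fun x => A x i j) (a b : κ) :
    ContDiff ℝ ∞ fun x => (A x).adjugate a b := by
  simp only [Matrix.adjugate_apply]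
  refine smooth_det fun i j => ?_
  by_cases hi : i = b
  · subst hi
    simp only [Matrix.updateRow_self]
    exact contDiff_const
  · simp only [Matrix.updateRow_ne hi]
    exact h i j

end det

variable {G : Type*} [Group G] [TopologicalSpace G] [IsTopologicalGroup G] [CompactSpace G]
  [SecondCountableTopology G] [MeasurableSpace G] [BorelSpace G] (μ : Measure G)
  [IsProbabilityMeasure μ] [μ.IsMulLeftInvariant] {N n : ℕ} {L : LD G N n}

lemma int_cont {F : G → ℝ} (hF : Continuous F) : Integrable F μ :=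
  hF.integrable_of_hasCompactSupport (HasCompactSupport.of_compactSpace _)

/-- the integral of a derivative vanishes -/
lemma one_zero {F : Mat N → ℝ} (hF : ContDiff ℝ ∞ F) (α : Fin n) :
    ∫ g, fderiv ℝ F (L.rho g) (L.X α * L.rho g) ∂μ = 0 := by
  have hc1 : Continuous fun g : G => fderiv ℝ F (L.rho g) (L.X α * L.rho g) :=
    ((hF.continuous_fderiv (by simp)).comp L.cont).clm_apply (continuous_const.mul L.cont)
  obtain ⟨C, hC⟩ : ∃ C, ∀ g : G, |fderiv ℝ F (L.rho g) (L.X α * L.rho g)| ≤ C := by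
    obtain ⟨C, hC⟩ := (isCompact_range hc1.abs).bddAbove
    exact ⟨C, fun g => hC ⟨g, rfl⟩⟩
  have hcs : ∀ t, Continuous fun g : G => L.ex α t * g := fun t => continuous_const.mul continuous_id
  have hder : ∀ (g : G) (t : ℝ), HasDerivAt (fun t => F (L.rho (L.ex α t * g)))
      (fderiv ℝ F (L.rho (L.ex α t * g)) (L.X α * L.rho (L.ex α t * g))) t := by
    intro g t
    have h1 := (hasDeriv_ex (L := L) α 1 t).mul_const (L.rho g)
    have h2 : HasFDerivAt F (fderiv ℝ F (L.rho (L.ex α t * g)))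
        (L.rho (L.ex α (t * 1)) * L.rho g) := by
      rw [mul_one, ← L.rho.map_mul]
      exact (hF.differentiable (by simp)).differentiableAt.hasFDerivAt
    have h3 := h2.comp_hasDerivAt t h1
    have h4 : (F ∘ fun s => L.rho (L.ex α (s * 1)) * L.rho g) =
        fun t => F (L.rho (L.ex α t * g)) := by
      funext s; simp only [Function.comp, mul_one, L.rho.map_mul]
    rw [h4] at h3
    refine h3.congr_deriv ?_
    congr 1
    rw [one_smul, mul_one, L.rho.map_mul, mul_assoc]
  have hconst : ∀ t, ∫ g, F (L.rho (L.ex α t * g)) ∂μ = ∫ g, F (L.rho g) ∂μ := fun t =>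
    integral_mul_left_eq_self (μ := μ) (fun g => F (L.rho g)) (L.ex α t)
  have hmain := hasDerivAt_integral_of_dominated_loc_of_deriv_le (μ := μ)
    (F := fun t g => F (L.rho (L.ex α t * g)))
    (F' := fun t g => fderiv ℝ F (L.rho (L.ex α t * g)) (L.X α * L.rho (L.ex α t * g)))
    (x₀ := (0 : ℝ)) (s := Set.univ)
    (bound := fun _ => C) Filter.univ_mem
    (Filter.Eventually.of_forall fun t =>
      ((hF.continuous.comp L.cont).comp (hcs t)).aestronglyMeasurable)
    (int_cont μ ((hF.continuous.comp L.cont).comp (hcs 0)))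
    ((hc1.comp (hcs 0)).aestronglyMeasurable)
    (Filter.Eventually.of_forall fun g t _ => hC _) (integrable_const _)
    (Filter.Eventually.of_forall fun g t _ => hder g t)
  have h1 := hmain.2.deriv
  have h2 : (fun t => ∫ g, F (L.rho (L.ex α t * g)) ∂μ) = fun _ => ∫ g, F (L.rho g) ∂μ :=
    funext hconst
  rw [h2, deriv_const] at h1
  simpa [L.ex_zero] using h1.symm

/-- integration by parts with an external field -/
lemma one_ibp {F : Mat N → ℝ} (hF : ContDiff ℝ ∞ F) (α : Fin n) (β : ℝ) (S : Mat N) :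
    ∫ g, (fderiv ℝ F (L.rho g) (L.X α * L.rho g) +
      β * (F (L.rho g) * ip S (L.X α * L.rho g))) * Real.exp (β * ip S (L.rho g)) ∂μ = 0 := by
  have hE : ContDiff ℝ ∞ fun M : Mat N => Real.exp (β * ip S M) :=
    Real.contDiff_exp.comp (contDiff_const.mul (ip S).contDiff)
  have h1 := one_zero μ (L := L) (F := fun M => F M * Real.exp (β * ip S M)) (hF.mul hE) α
  rw [← h1]
  refine integral_congr_ae (Filter.Eventually.of_forall fun g => ?_)
  simp only
  have d1 : HasFDerivAt F (fderiv ℝ F (L.rho g)) (L.rho g) :=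
    (hF.differentiable (by simp)).differentiableAt.hasFDerivAt
  have d2 : HasFDerivAt (fun M : Mat N => β * ip S M) (β • ip S) (L.rho g) :=
    (ip S).hasFDerivAt.const_mul β
  have d3 := d1.mul d2.exp
  have e : fderiv ℝ (fun M => F M * Real.exp (β * ip S M)) (L.rho g) = _ := d3.fderiv
  rw [e]
  show _ = F (L.rho g) * (Real.exp (β * ip S (L.rho g)) * (β * ip S (L.X α * L.rho g))) +
    Real.exp (β * ip S (L.rho g)) * fderiv ℝ F (L.rho g) (L.X α * L.rho g)
  ring

/-- the partition function of one link -/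
def Z1 (L : LD G N n) (β : ℝ) (S : Mat N) : ℝ := ∫ g, Real.exp (β * ip S (L.rho g)) ∂μ

lemma w_cont (β : ℝ) (S : Mat N) : Continuous fun g : G => Real.exp (β * ip S (L.rho g)) :=
  Real.continuous_exp.comp (continuous_const.mul ((ip S).continuous.comp L.cont))

lemma norm_XX (α : Fin n) (g : G) : ‖L.X α * (L.X α * L.rho g)‖ ≤ 1 := by
  refine (norm_mul_le _ _).trans ?_
  rw [norm_X, one_mul, norm_rmul, norm_X]

/-- the second moment of the force -/
lemma one_fisher (α : Fin n) {b : ℝ} (hb : 1 ≤ b) (S : Mat N) :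
    ∫ g, b ^ 2 * |ip S (L.X α * L.rho g)| * Real.exp (b ^ 4 * ip S (L.rho g)) ∂μ ≤
      (‖S‖ + 1) * Z1 μ L (b ^ 4) S := by
  have hlin : ContDiff ℝ ∞ fun M : Mat N => ip S (L.X α * M) :=
    (ip S).contDiff.comp (contDiff_const.mul contDiff_id)
  have h1 := one_ibp μ (L := L) hlin α (b ^ 4) S
  have hw := w_cont (L := L) (b ^ 4) S
  have hfd : ∀ M V : Mat N, fderiv ℝ (fun M : Mat N => ip S (L.X α * M)) M V =
      ip S (L.X α * V) := by
    intro M V
    have d1 : HasFDerivAt (fun M : Mat N => L.X α * M)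
        (LinearMap.toContinuousLinearMap (LinearMap.mulLeft ℝ (L.X α))) M :=
      (LinearMap.toContinuousLinearMap (LinearMap.mulLeft ℝ (L.X α))).hasFDerivAt
    have d2 := ((ip S).hasFDerivAt (x := L.X α * M)).comp M d1
    have e : fderiv ℝ (fun M : Mat N => ip S (L.X α * M)) M = _ := d2.fderiv
    rw [e]; rfl
  simp only [hfd] at h1
  have c1 : Continuous fun g : G => ip S (L.X α * L.rho g) :=
    (ip S).continuous.comp (continuous_const.mul L.cont)
  have c2 : Continuous fun g : G => ip S (L.X α * (L.X α * L.rho g)) :=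
    (ip S).continuous.comp (continuous_const.mul (continuous_const.mul L.cont))
  unfold Z1
  rw [← integral_const_mul]
  have h2 : ∫ g, b ^ 4 * ip S (L.X α * L.rho g) ^ 2 * Real.exp (b ^ 4 * ip S (L.rho g)) ∂μ ≤
      ∫ g, ‖S‖ * Real.exp (b ^ 4 * ip S (L.rho g)) ∂μ := by
    have h3 : ∫ g, b ^ 4 * ip S (L.X α * L.rho g) ^ 2 * Real.exp (b ^ 4 * ip S (L.rho g)) ∂μ =
        ∫ g, -(ip S (L.X α * (L.X α * L.rho g))) * Real.exp (b ^ 4 * ip S (L.rho g)) ∂μ := by
      have i1 : Integrable (fun g => b ^ 4 * ip S (L.X α * L.rho g) ^ 2 *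
          Real.exp (b ^ 4 * ip S (L.rho g))) μ :=
        int_cont μ ((continuous_const.mul (c1.pow 2)).mul hw)
      have i2 : Integrable (fun g => -(ip S (L.X α * (L.X α * L.rho g))) *
          Real.exp (b ^ 4 * ip S (L.rho g))) μ := int_cont μ (c2.neg.mul hw)
      rw [← sub_eq_zero, ← integral_sub i1 i2, ← h1]
      refine integral_congr_ae (Filter.Eventually.of_forall fun g => ?_)
      simp only; ring
    rw [h3]
    refine integral_mono (int_cont μ (c2.neg.mul hw)) (int_cont μ (continuous_const.mul hw))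
      fun g => ?_
    refine mul_le_mul_of_nonneg_right ?_ (Real.exp_pos _).le
    have h4 := abs_ip_le S (L.X α * (L.X α * L.rho g))
    have h5 := norm_XX (L := L) α g
    have h6 : ‖S‖ * ‖L.X α * (L.X α * L.rho g)‖ ≤ ‖S‖ * 1 :=
      mul_le_mul_of_nonneg_left h5 (norm_nonneg _)
    have h7 := neg_abs_le (ip S (L.X α * (L.X α * L.rho g)))
    linarith
  have i1 : Integrable (fun g => b ^ 4 * ip S (L.X α * L.rho g) ^ 2 *
      Real.exp (b ^ 4 * ip S (L.rho g))) μ :=
    int_cont μ ((continuous_const.mul (c1.pow 2)).mul hw)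
  have h3 : ∫ g, b ^ 2 * |ip S (L.X α * L.rho g)| * Real.exp (b ^ 4 * ip S (L.rho g)) ∂μ ≤
      ∫ g, (b ^ 4 * ip S (L.X α * L.rho g) ^ 2 * Real.exp (b ^ 4 * ip S (L.rho g)) +
        Real.exp (b ^ 4 * ip S (L.rho g))) ∂μ := by
    refine integral_mono (int_cont μ ((continuous_const.mul c1.abs).mul hw))
      (i1.add (int_cont μ hw)) fun g => ?_
    simp only
    obtain ⟨y, hy⟩ : ∃ y, y = ip S (L.X α * L.rho g) := ⟨_, rfl⟩
    rw [← hy]
    have h4 : b ^ 2 * |y| ≤ b ^ 4 * y ^ 2 + 1 := by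
      have h5 : b ^ 4 * y ^ 2 = (b ^ 2 * |y|) ^ 2 := by rw [mul_pow, sq_abs]; ring
      rw [h5]
      nlinarith [sq_nonneg (b ^ 2 * |y| - 1), mul_nonneg (sq_nonneg b) (abs_nonneg y)]
    calc b ^ 2 * |y| * Real.exp (b ^ 4 * ip S (L.rho g)) ≤
        (b ^ 4 * y ^ 2 + 1) * Real.exp (b ^ 4 * ip S (L.rho g)) :=
          mul_le_mul_of_nonneg_right h4 (Real.exp_pos _).le
      _ = _ := by ring
  refine h3.trans ?_
  rw [integral_add i1 (int_cont μ hw)]
  have h4 : ∫ g, (‖S‖ + 1) * Real.exp (b ^ 4 * ip S (L.rho g)) ∂μ =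
      ∫ g, ‖S‖ * Real.exp (b ^ 4 * ip S (L.rho g)) ∂μ +
        ∫ g, Real.exp (b ^ 4 * ip S (L.rho g)) ∂μ := by
    rw [integral_const_mul, integral_const_mul]; ring
  rw [h4]
  linarith

/-- the matrix of the derivatives of the coordinates -/
def mm (L : LD G N n) (M : Mat N) : Matrix (Fin n) (Fin n) ℝ := fun α c => trX L c (L.X α * M)

lemma mm_smooth (α c : Fin n) : ContDiff ℝ ∞ fun M : Mat N => mm L M α c :=
  (trX L c).contDiff.comp (contDiff_const.mul contDiff_id)

lemma det_one : (-1 : ℝ) ^ n * (mm L 1).det = 1 := by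
  have h1 : mm L 1 = (-1 : ℝ) • (1 : Matrix (Fin n) (Fin n) ℝ) := by
    funext α c
    unfold mm
    rw [mul_one, trX_X]
    simp only [Matrix.smul_apply, smul_eq_mul, Matrix.one_apply]
    by_cases h : c = α
    · rw [if_pos h, if_pos h.symm]; ring
    · rw [if_neg h, if_neg (fun hh => h hh.symm)]; ring
  rw [h1, Matrix.det_smul, Matrix.det_one, Fintype.card_fin, mul_one, ← mul_pow]
  norm_num

lemma det_close : ∃ C : ℝ, 0 ≤ C ∧ ∀ g : G, |1 - (-1 : ℝ) ^ n * (mm L (L.rho g)).det| ≤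
    C * dv L g := by
  obtain ⟨q, hq⟩ : ∃ q : Mat N → ℝ, q = fun M => 1 - (-1 : ℝ) ^ n * (mm L M).det := ⟨_, rfl⟩
  have hqs : ContDiff ℝ ∞ q := by
    rw [hq]
    exact contDiff_const.sub (contDiff_const.mul (smooth_det fun i j => mm_smooth i j))
  have hcpt : IsCompact (Metric.closedBall (0 : Mat N) (‖(1 : Mat N)‖)) :=
    isCompact_closedBall _ _
  obtain ⟨C, hC⟩ := (hcpt.image (hqs.continuous_fderiv (by simp)).norm).bddAbove
  refine ⟨max C 0, le_max_right _ _, fun g => ?_⟩
  have hg : ‖L.rho g‖ = ‖(1 : Mat N)‖ := by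
    have := norm_lmul (L := L) g (1 : Mat N)
    rwa [mul_one] at this
  have h1 := Convex.norm_image_sub_le_of_norm_fderiv_le (𝕜 := ℝ) (f := q)
    (s := Metric.closedBall (0 : Mat N) (‖(1 : Mat N)‖)) (C := max C 0) (x := 1) (y := L.rho g)
    (fun M _ => (hqs.differentiable (by simp)).differentiableAt)
    (fun M hM => (hC ⟨M, hM, rfl⟩).trans (le_max_left _ _)) (convex_closedBall _ _)
    (by rw [Metric.mem_closedBall, dist_zero_right])
    (by rw [Metric.mem_closedBall, dist_zero_right, hg])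
  have h2 : q 1 = 0 := by rw [hq]; simp only; rw [det_one, sub_self]
  rw [h2, sub_zero, Real.norm_eq_abs, hq] at h1
  exact h1

/-- bounds of the coefficients -/
lemma adj_bd : ∃ C : ℝ, 0 ≤ C ∧ (∀ (g : G) (c α : Fin n), |(mm L (L.rho g)).adjugate c α| ≤ C) ∧
    ∀ (g : G) (c α : Fin n), |fderiv ℝ (fun M : Mat N => (mm L M).adjugate c α) (L.rho g)
      (L.X α * L.rho g)| ≤ C := by
  have h1 : ∀ c α : Fin n, ∃ C : ℝ, ∀ g : G, |(mm L (L.rho g)).adjugate c α| ≤ C ∧
      |fderiv ℝ (fun M : Mat N => (mm L M).adjugate c α) (L.rho g) (L.X α * L.rho g)| ≤ C := by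
    intro c α
    have s1 : ContDiff ℝ ∞ fun M : Mat N => (mm L M).adjugate c α :=
      smooth_adj (fun i j => mm_smooth i j) c α
    have c1 : Continuous fun g : G => (mm L (L.rho g)).adjugate c α := s1.continuous.comp L.cont
    have c2 : Continuous fun g : G => fderiv ℝ (fun M : Mat N => (mm L M).adjugate c α) (L.rho g)
        (L.X α * L.rho g) :=
      ((s1.continuous_fderiv (by simp)).comp L.cont).clm_apply (continuous_const.mul L.cont)
    obtain ⟨A, hA⟩ := (isCompact_range c1.abs).bddAbove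
    obtain ⟨B, hB⟩ := (isCompact_range c2.abs).bddAbove
    exact ⟨max A B, fun g => ⟨(hA ⟨g, rfl⟩).trans (le_max_left _ _),
      (hB ⟨g, rfl⟩).trans (le_max_right _ _)⟩⟩
  choose C hC using h1
  refine ⟨∑ c, ∑ α, |C c α|, Finset.sum_nonneg fun _ _ => Finset.sum_nonneg fun _ _ =>
    abs_nonneg _, fun g c α => ?_, fun g c α => ?_⟩
  · refine ((hC c α g).1.trans (le_abs_self _)).trans ?_
    refine (Finset.single_le_sum (f := fun α => |C c α|) (fun _ _ => abs_nonneg _)
      (Finset.mem_univ α)).trans ?_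
    exact Finset.single_le_sum (f := fun c => ∑ α, |C c α|)
      (fun _ _ => Finset.sum_nonneg fun _ _ => abs_nonneg _) (Finset.mem_univ c)
  · refine ((hC c α g).2.trans (le_abs_self _)).trans ?_
    refine (Finset.single_le_sum (f := fun α => |C c α|) (fun _ _ => abs_nonneg _)
      (Finset.mem_univ α)).trans ?_
    exact Finset.single_le_sum (f := fun c => ∑ α, |C c α|)
      (fun _ _ => Finset.sum_nonneg fun _ _ => abs_nonneg _) (Finset.mem_univ c)

/-- the coordinates of one link, shifted -/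
def yc (L : LD G N n) (b : ℝ) (v : Fin n → ℝ) (M : Mat N) : Fin n → ℝ :=
  fun c => b ^ 2 * trX L c M + v c

lemma yc_smooth (b : ℝ) (v : Fin n → ℝ) : ContDiff ℝ ∞ (yc L b v) := by
  unfold yc
  refine contDiff_pi.2 fun c => ?_
  exact (contDiff_const.mul (trX L c).contDiff).add contDiff_const

lemma yc_deriv {f : (Fin n → ℝ) → ℝ} (hf : ContDiff ℝ ∞ f) (b : ℝ) (v : Fin n → ℝ) (M V : Mat N) :
    fderiv ℝ (fun M => f (yc L b v M)) M V = ∑ c, b ^ 2 * trX L c V * pd f c (yc L b v M) := by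
  have h1 : HasFDerivAt (yc L b v)
      (ContinuousLinearMap.pi fun c => b ^ 2 • trX L c) M := by
    refine hasFDerivAt_pi.2 fun c => ?_
    exact ((trX L c).hasFDerivAt.const_mul (b ^ 2)).add_const (v c)
  have h2 : HasFDerivAt f (fderiv ℝ f (yc L b v M)) (yc L b v M) :=
    (hf.differentiable (by simp)).differentiableAt.hasFDerivAt
  have h3 := h2.comp M h1
  have e : fderiv ℝ (fun M => f (yc L b v M)) M = _ := h3.fderiv
  rw [e]
  show fderiv ℝ f (yc L b v M) (fun c => b ^ 2 * trX L c V) = _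
  rw [fderiv_sum]

/-- the weighted derivative -/
lemma one_der : ∃ C : ℝ, 0 ≤ C ∧ ∀ (b : ℝ), 1 ≤ b → ∀ (S : Mat N) (f : (Fin n → ℝ) → ℝ),
    ContDiff ℝ ∞ f → (∀ x, |f x| ≤ 1) → ∀ (c : Fin n) (v : Fin n → ℝ),
      |∫ g, (mm L (L.rho g)).det * pd f c (yc L b v (L.rho g)) *
        Real.exp (b ^ 4 * ip S (L.rho g)) ∂μ| ≤ C * (‖S‖ + 1) * Z1 μ L (b ^ 4) S := by
  obtain ⟨C, hC, hC1, hC2⟩ := adj_bd (L := L)
  refine ⟨n * (2 * C), by positivity, fun b hb S f hf h1 c v => ?_⟩
  have hb0 : 0 < b := by linarith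
  have hw := w_cont (L := L) (b ^ 4) S
  have hZ : 0 ≤ Z1 μ L (b ^ 4) S := integral_nonneg fun g => (Real.exp_pos _).le
  have sad : ∀ α, ContDiff ℝ ∞ fun M : Mat N => (mm L M).adjugate c α := fun α =>
    smooth_adj (fun i j => mm_smooth i j) c α
  have sfy : ContDiff ℝ ∞ fun M : Mat N => f (yc L b v M) := hf.comp (yc_smooth b v)
  have cad : ∀ α, Continuous fun g : G => (mm L (L.rho g)).adjugate c α := fun α =>
    (sad α).continuous.comp L.cont
  have cfy : Continuous fun g : G => f (yc L b v (L.rho g)) := sfy.continuous.comp L.cont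
  have cpd : ∀ c', Continuous fun g : G => pd f c' (yc L b v (L.rho g)) := fun c' =>
    ((pd_smooth hf c').continuous.comp (yc_smooth b v).continuous).comp L.cont
  have cdad : ∀ α, Continuous fun g : G => fderiv ℝ (fun M : Mat N => (mm L M).adjugate c α)
      (L.rho g) (L.X α * L.rho g) := fun α =>
    (((sad α).continuous_fderiv (by simp)).comp L.cont).clm_apply (continuous_const.mul L.cont)
  have cip : ∀ α, Continuous fun g : G => ip S (L.X α * L.rho g) := fun α =>
    (ip S).continuous.comp (continuous_const.mul L.cont)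
  have cmm : ∀ α c', Continuous fun g : G => mm L (L.rho g) α c' := fun α c' =>
    (mm_smooth α c').continuous.comp L.cont
  have cdet : Continuous fun g : G => (mm L (L.rho g)).det :=
    (smooth_det (fun i j => mm_smooth (L := L) i j)).continuous.comp L.cont
  -- the sum of the integrations by parts
  have hsum : ∑ α, ∫ g, (fderiv ℝ (fun M => (mm L M).adjugate c α * f (yc L b v M)) (L.rho g)
      (L.X α * L.rho g) + b ^ 4 * ((mm L (L.rho g)).adjugate c α * f (yc L b v (L.rho g)) *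
        ip S (L.X α * L.rho g))) * Real.exp (b ^ 4 * ip S (L.rho g)) ∂μ = 0 :=
    Finset.sum_eq_zero fun α _ => one_ibp μ ((sad α).mul sfy) α (b ^ 4) S
  have hfd : ∀ α (g : G), fderiv ℝ (fun M => (mm L M).adjugate c α * f (yc L b v M)) (L.rho g)
      (L.X α * L.rho g) = fderiv ℝ (fun M : Mat N => (mm L M).adjugate c α) (L.rho g)
      (L.X α * L.rho g) * f (yc L b v (L.rho g)) + (mm L (L.rho g)).adjugate c α *
        ∑ c', b ^ 2 * mm L (L.rho g) α c' * pd f c' (yc L b v (L.rho g)) := by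
    intro α g
    have d1 : HasFDerivAt (fun M : Mat N => (mm L M).adjugate c α) _ (L.rho g) :=
      ((sad α).differentiable (by simp)).differentiableAt.hasFDerivAt
    have d2 : HasFDerivAt (fun M : Mat N => f (yc L b v M)) _ (L.rho g) :=
      (sfy.differentiable (by simp)).differentiableAt.hasFDerivAt
    have e : fderiv ℝ (fun M => (mm L M).adjugate c α * f (yc L b v M)) (L.rho g) = _ :=
      (d1.mul d2).fderiv
    rw [e]
    show (mm L (L.rho g)).adjugate c α * fderiv ℝ (fun M : Mat N => f (yc L b v M)) (L.rho g)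
      (L.X α * L.rho g) + f (yc L b v (L.rho g)) * fderiv ℝ (fun M : Mat N =>
        (mm L M).adjugate c α) (L.rho g) (L.X α * L.rho g) = _
    rw [yc_deriv hf]
    unfold mm
    ring
  have hcr : ∀ g : G, ∑ α, (mm L (L.rho g)).adjugate c α *
      ∑ c', b ^ 2 * mm L (L.rho g) α c' * pd f c' (yc L b v (L.rho g)) =
      b ^ 2 * ((mm L (L.rho g)).det * pd f c (yc L b v (L.rho g))) := by
    intro g
    obtain ⟨m, hm⟩ : ∃ m, m = mm L (L.rho g) := ⟨_, rfl⟩
    rw [← hm]
    simp only [Finset.mul_sum]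
    rw [Finset.sum_comm, Finset.sum_eq_single c]
    · have e1 : ∑ α, m.adjugate c α * (b ^ 2 * m α c * pd f c (yc L b v (L.rho g))) =
          b ^ 2 * ((m.adjugate * m) c c * pd f c (yc L b v (L.rho g))) := by
        rw [Matrix.mul_apply, Finset.sum_mul, Finset.mul_sum]
        exact Finset.sum_congr rfl fun α _ => by ring
      rw [e1, Matrix.adjugate_mul, Matrix.smul_apply, Matrix.one_apply_eq, smul_eq_mul, mul_one]
    · intro c' _ hc'
      have e1 : ∑ α, m.adjugate c α * (b ^ 2 * m α c' * pd f c' (yc L b v (L.rho g))) =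
          b ^ 2 * ((m.adjugate * m) c c' * pd f c' (yc L b v (L.rho g))) := by
        rw [Matrix.mul_apply, Finset.sum_mul, Finset.mul_sum]
        exact Finset.sum_congr rfl fun α _ => by ring
      rw [e1, Matrix.adjugate_mul, Matrix.smul_apply, Matrix.one_apply_ne hc'.symm]
      simp
    · intro h; exact absurd (Finset.mem_univ _) h
  obtain ⟨w, hwd⟩ : ∃ w : G → ℝ, w = fun g => Real.exp (b ^ 4 * ip S (L.rho g)) := ⟨_, rfl⟩
  have hw0 : ∀ g, 0 ≤ w g := fun g => by rw [hwd]; exact (Real.exp_pos _).le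
  have hwc : Continuous w := by rw [hwd]; exact hw
  obtain ⟨R, hR⟩ : ∃ R : Fin n → G → ℝ, R = fun α g =>
    (fderiv ℝ (fun M : Mat N => (mm L M).adjugate c α) (L.rho g) (L.X α * L.rho g) *
      f (yc L b v (L.rho g)) + b ^ 4 * ((mm L (L.rho g)).adjugate c α *
        f (yc L b v (L.rho g)) * ip S (L.X α * L.rho g))) * w g := ⟨_, rfl⟩
  have cR : ∀ α, Continuous (R α) := fun α => by
    rw [hR]
    exact (((cdad α).mul cfy).add (continuous_const.mul (((cad α).mul cfy).mul (cip α)))).mul hwc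
  have hmain : b ^ 2 * ∫ g, (mm L (L.rho g)).det * pd f c (yc L b v (L.rho g)) * w g ∂μ =
      -∑ α, ∫ g, R α g ∂μ := by
    have e1 : ∑ α, ∫ g, (fderiv ℝ (fun M => (mm L M).adjugate c α * f (yc L b v M)) (L.rho g)
      (L.X α * L.rho g) + b ^ 4 * ((mm L (L.rho g)).adjugate c α * f (yc L b v (L.rho g)) *
        ip S (L.X α * L.rho g))) * Real.exp (b ^ 4 * ip S (L.rho g)) ∂μ =
        ∑ α, ∫ g, R α g ∂μ + ∫ g, b ^ 2 * ((mm L (L.rho g)).det *
          pd f c (yc L b v (L.rho g))) * w g ∂μ := by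
      have e2 : ∀ α, ∫ g, (fderiv ℝ (fun M => (mm L M).adjugate c α * f (yc L b v M)) (L.rho g)
        (L.X α * L.rho g) + b ^ 4 * ((mm L (L.rho g)).adjugate c α * f (yc L b v (L.rho g)) *
        ip S (L.X α * L.rho g))) * Real.exp (b ^ 4 * ip S (L.rho g)) ∂μ =
        ∫ g, R α g ∂μ + ∫ g, ((mm L (L.rho g)).adjugate c α *
          ∑ c', b ^ 2 * mm L (L.rho g) α c' * pd f c' (yc L b v (L.rho g))) * w g ∂μ := by
        intro α
        have i3 : Integrable (fun g => ((mm L (L.rho g)).adjugate c α *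
          ∑ c', b ^ 2 * mm L (L.rho g) α c' * pd f c' (yc L b v (L.rho g))) * w g) μ :=
          int_cont μ (((cad α).mul (continuous_finsetSum _ fun c' _ =>
            (continuous_const.mul (cmm α c')).mul (cpd c'))).mul hwc)
        rw [← integral_add (int_cont μ (cR α)) i3]
        refine integral_congr_ae (Filter.Eventually.of_forall fun g => ?_)
        simp only [hfd, hR, hwd]
        ring
      rw [Finset.sum_congr rfl fun α _ => e2 α, Finset.sum_add_distrib]
      congr 1
      rw [← integral_finsetSum]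
      · refine integral_congr_ae (Filter.Eventually.of_forall fun g => ?_)
        simp only
        rw [← Finset.sum_mul, hcr]
      · intro α _
        exact int_cont μ (((cad α).mul (continuous_finsetSum _ fun c' _ =>
          (continuous_const.mul (cmm α c')).mul (cpd c'))).mul hwc)
    rw [e1] at hsum
    have e3 : b ^ 2 * ∫ g, (mm L (L.rho g)).det * pd f c (yc L b v (L.rho g)) * w g ∂μ =
        ∫ g, b ^ 2 * ((mm L (L.rho g)).det * pd f c (yc L b v (L.rho g))) * w g ∂μ := by
      rw [← integral_const_mul]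
      refine integral_congr_ae (Filter.Eventually.of_forall fun g => ?_)
      simp only; ring
    rw [e3]; linarith
  have hRb : ∀ α, |∫ g, R α g ∂μ| ≤ b ^ 2 * (2 * C * (‖S‖ + 1) * Z1 μ L (b ^ 4) S) := by
    intro α
    have e1 : |∫ g, R α g ∂μ| ≤ ∫ g, (C * w g + b ^ 2 * C *
        (b ^ 2 * |ip S (L.X α * L.rho g)| * w g)) ∂μ := by
      rw [← Real.norm_eq_abs]
      refine norm_integral_le_of_norm_le (int_cont μ ((continuous_const.mul hwc).add
        (continuous_const.mul ((continuous_const.mul (cip α).abs).mul hwc))))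
        (Filter.Eventually.of_forall fun g => ?_)
      rw [hR]
      simp only
      rw [norm_mul, Real.norm_eq_abs, Real.norm_eq_abs, abs_of_nonneg (hw0 g)]
      have e2 : |fderiv ℝ (fun M : Mat N => (mm L M).adjugate c α) (L.rho g)
          (L.X α * L.rho g) * f (yc L b v (L.rho g)) + b ^ 4 * ((mm L (L.rho g)).adjugate c α *
          f (yc L b v (L.rho g)) * ip S (L.X α * L.rho g))| ≤
          C + b ^ 2 * C * (b ^ 2 * |ip S (L.X α * L.rho g)|) := by
        refine (abs_add_le _ _).trans (add_le_add ?_ ?_)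
        · rw [abs_mul]
          calc _ ≤ C * 1 := mul_le_mul (hC2 g c α) (h1 _) (abs_nonneg _) hC
            _ = C := mul_one _
        · rw [abs_mul, abs_mul, abs_mul, abs_of_pos (by positivity : (0:ℝ) < b ^ 4)]
          have e3 : |(mm L (L.rho g)).adjugate c α| * |f (yc L b v (L.rho g))| ≤ C * 1 :=
            mul_le_mul (hC1 g c α) (h1 _) (abs_nonneg _) hC
          calc b ^ 4 * (|(mm L (L.rho g)).adjugate c α| * |f (yc L b v (L.rho g))| *
                |ip S (L.X α * L.rho g)|) ≤ b ^ 4 * (C * 1 * |ip S (L.X α * L.rho g)|) := by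
                gcongr
            _ = _ := by ring
      calc _ ≤ (C + b ^ 2 * C * (b ^ 2 * |ip S (L.X α * L.rho g)|)) * w g :=
            mul_le_mul_of_nonneg_right e2 (hw0 g)
        _ = _ := by ring
    refine e1.trans ?_
    have i1 : Integrable (fun g => b ^ 2 * |ip S (L.X α * L.rho g)| * w g) μ :=
      int_cont μ ((continuous_const.mul (cip α).abs).mul hwc)
    rw [integral_add ((int_cont μ hwc).const_mul _) (i1.const_mul _), integral_const_mul,
      integral_const_mul]
    have e2 := one_fisher μ (L := L) α hb S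
    have e3 : ∫ g, w g ∂μ = Z1 μ L (b ^ 4) S := by rw [hwd]; rfl
    rw [e3]
    have e4 : ∫ g, b ^ 2 * |ip S (L.X α * L.rho g)| * w g ∂μ ≤ (‖S‖ + 1) * Z1 μ L (b ^ 4) S := by
      rw [hwd]; exact e2
    have hb2 : 1 ≤ b ^ 2 := one_le_pow₀ hb
    have hS1 : 1 ≤ ‖S‖ + 1 := by have := norm_nonneg S; linarith
    have e5 : C * Z1 μ L (b ^ 4) S ≤ b ^ 2 * (C * (‖S‖ + 1) * Z1 μ L (b ^ 4) S) := by
      have e6 : C * Z1 μ L (b ^ 4) S ≤ C * (‖S‖ + 1) * Z1 μ L (b ^ 4) S :=
        mul_le_mul_of_nonneg_right (le_mul_of_one_le_right hC hS1) hZ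
      exact e6.trans (le_mul_of_one_le_left (by positivity) hb2)
    have e6 : b ^ 2 * C * ∫ g, b ^ 2 * |ip S (L.X α * L.rho g)| * w g ∂μ ≤
        b ^ 2 * C * ((‖S‖ + 1) * Z1 μ L (b ^ 4) S) :=
      mul_le_mul_of_nonneg_left e4 (by positivity)
    calc _ ≤ b ^ 2 * (C * (‖S‖ + 1) * Z1 μ L (b ^ 4) S) +
          b ^ 2 * C * ((‖S‖ + 1) * Z1 μ L (b ^ 4) S) := add_le_add e5 e6
      _ = _ := by ring
  have hb2 : 0 < b ^ 2 := by positivity
  have e1 : b ^ 2 * |∫ g, (mm L (L.rho g)).det * pd f c (yc L b v (L.rho g)) * w g ∂μ| ≤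
      b ^ 2 * (n * (2 * C) * (‖S‖ + 1) * Z1 μ L (b ^ 4) S) := by
    rw [← abs_of_pos hb2, ← abs_mul, abs_of_pos hb2, hmain, abs_neg]
    refine (Finset.abs_sum_le_sum_abs _ _).trans ?_
    calc ∑ α, |∫ g, R α g ∂μ| ≤ ∑ _α : Fin n, b ^ 2 * (2 * C * (‖S‖ + 1) * Z1 μ L (b ^ 4) S) :=
          Finset.sum_le_sum fun α _ => hRb α
      _ = _ := by
          rw [Finset.sum_const, Finset.card_univ, Fintype.card_fin, nsmul_eq_mul]; ring
  have e2 := le_of_mul_le_mul_left e1 hb2
  rw [hwd] at e2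
  exact e2

/-- Stability of the law of the coordinates of one link under shifts. -/
theorem one_stab : ∃ C : ℝ, 0 ≤ C ∧ ∀ (b : ℝ), 1 ≤ b → ∀ (S : Mat N) (f : (Fin n → ℝ) → ℝ),
    ContDiff ℝ ∞ f → (∀ x, |f x| ≤ 1) → (∃ c1, ∀ j x, |pd f j x| ≤ c1) →
    ∀ (c : Fin n) (t : ℝ),
      |∫ g, (f (yc L b (Pi.single c t) (L.rho g)) - f (yc L b 0 (L.rho g))) *
        Real.exp (b ^ 4 * ip S (L.rho g)) ∂μ| ≤ C * (‖S‖ + 1) * |t| * Z1 μ L (b ^ 4) S +
          C * ∫ g, dv L g * Real.exp (b ^ 4 * ip S (L.rho g)) ∂μ := by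
  obtain ⟨C1, hC1, h1⟩ := one_der μ (L := L)
  obtain ⟨C2, hC2, h2⟩ := det_close (L := L)
  refine ⟨C1 + 2 * C2, by positivity, fun b hb S f hf hf1 hc1 c t => ?_⟩
  obtain ⟨c1, hc1⟩ := hc1
  obtain ⟨w, hwd⟩ : ∃ w : G → ℝ, w = fun g => Real.exp (b ^ 4 * ip S (L.rho g)) := ⟨_, rfl⟩
  have hw0 : ∀ g, 0 ≤ w g := fun g => by rw [hwd]; exact (Real.exp_pos _).le
  have hwc : Continuous w := by rw [hwd]; exact w_cont (b ^ 4) S
  have cdet : Continuous fun g : G => (mm L (L.rho g)).det :=
    (smooth_det (fun i j => mm_smooth (L := L) i j)).continuous.comp L.cont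
  have cfy : ∀ v, Continuous fun g : G => f (yc L b v (L.rho g)) := fun v =>
    (hf.continuous.comp (yc_smooth b v).continuous).comp L.cont
  have cpd : ∀ c' v, Continuous fun g : G => pd f c' (yc L b v (L.rho g)) := fun c' v =>
    ((pd_smooth hf c').continuous.comp (yc_smooth b v).continuous).comp L.cont
  obtain ⟨k, hk⟩ : ∃ k : ℝ → ℝ, k = fun s => ∫ g, (mm L (L.rho g)).det *
    f (yc L b (Pi.single c s) (L.rho g)) * w g ∂μ := ⟨_, rfl⟩
  have hder : ∀ s, HasDerivAt k (∫ g, (mm L (L.rho g)).det *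
      pd f c (yc L b (Pi.single c s) (L.rho g)) * w g ∂μ) s := by
    intro s
    have ib : Integrable (fun g : G => |(mm L (L.rho g)).det| * c1 * w g) μ :=
      int_cont μ ((cdet.abs.mul continuous_const).mul hwc)
    rw [hk]
    refine (hasDerivAt_integral_of_dominated_loc_of_deriv_le (μ := μ) (s := Set.univ)
      (F := fun s g => (mm L (L.rho g)).det * f (yc L b (Pi.single c s) (L.rho g)) * w g)
      (F' := fun s g => (mm L (L.rho g)).det * pd f c (yc L b (Pi.single c s) (L.rho g)) * w g)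
      (x₀ := s) (bound := fun g => |(mm L (L.rho g)).det| * c1 * w g) Filter.univ_mem
      (Filter.Eventually.of_forall fun s => ((cdet.mul (cfy _)).mul hwc).aestronglyMeasurable)
      (int_cont μ ((cdet.mul (cfy _)).mul hwc))
      ((cdet.mul (cpd _ _)).mul hwc).aestronglyMeasurable
      (Filter.Eventually.of_forall fun g s _ => ?_) ib
      (Filter.Eventually.of_forall fun g s _ => ?_)).2
    · rw [norm_mul, norm_mul, Real.norm_eq_abs, Real.norm_eq_abs, Real.norm_eq_abs,
        abs_of_nonneg (hw0 g)]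
      exact mul_le_mul_of_nonneg_right (mul_le_mul_of_nonneg_left (hc1 _ _) (abs_nonneg _)) (hw0 g)
    · have e1 : HasFDerivAt f (fderiv ℝ f (yc L b (Pi.single c s) (L.rho g)))
          (yc L b (Pi.single c s) (L.rho g)) :=
        (hf.differentiable (by simp)).differentiableAt.hasFDerivAt
      have e2 : HasDerivAt (fun s : ℝ => yc L b (Pi.single c s) (L.rho g)) (Pi.single c 1) s := by
        refine hasDerivAt_pi.2 fun i => ?_
        unfold yc
        by_cases hi : i = c
        · subst hi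
          simp only [Pi.single_eq_same]
          exact (hasDerivAt_id s).const_add _
        · simp only [Pi.single_eq_of_ne hi]
          exact hasDerivAt_const _ _
      exact ((e1.comp_hasDerivAt s e2).const_mul _).mul_const _
  have hkb := Convex.norm_image_sub_le_of_norm_hasDerivWithin_le (s := Set.univ) (f := k)
    (f' := fun s => ∫ g, (mm L (L.rho g)).det *
      pd f c (yc L b (Pi.single c s) (L.rho g)) * w g ∂μ) (x := 0) (y := t)
    (C := C1 * (‖S‖ + 1) * Z1 μ L (b ^ 4) S) (fun s _ => (hder s).hasDerivWithinAt)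
    (fun s _ => by
      have := h1 b hb S f hf hf1 c (Pi.single c s)
      rw [hwd]; exact this) convex_univ (Set.mem_univ _) (Set.mem_univ _)
  rw [sub_zero, Real.norm_eq_abs, Real.norm_eq_abs] at hkb
  have e0 : (Pi.single c (0 : ℝ) : Fin n → ℝ) = 0 := Pi.single_zero c
  obtain ⟨σ, hσ⟩ : ∃ σ : ℝ, σ = (-1) ^ n := ⟨_, rfl⟩
  have hσ1 : |σ| = 1 := by rw [hσ, abs_pow, abs_neg, abs_one, one_pow]
  have hdec : ∫ g, (f (yc L b (Pi.single c t) (L.rho g)) - f (yc L b 0 (L.rho g))) * w g ∂μ =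
      σ * (k t - k 0) + ∫ g, (1 - σ * (mm L (L.rho g)).det) *
        (f (yc L b (Pi.single c t) (L.rho g)) - f (yc L b 0 (L.rho g))) * w g ∂μ := by
    have i1 : ∀ v, Integrable (fun g => (mm L (L.rho g)).det * f (yc L b v (L.rho g)) * w g) μ :=
      fun v => int_cont μ ((cdet.mul (cfy v)).mul hwc)
    have i2 : Integrable (fun g => (1 - σ * (mm L (L.rho g)).det) *
        (f (yc L b (Pi.single c t) (L.rho g)) - f (yc L b 0 (L.rho g))) * w g) μ :=
      int_cont μ (((continuous_const.sub (continuous_const.mul cdet)).mul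
        ((cfy _).sub (cfy _))).mul hwc)
    rw [hk]
    simp only [e0]
    have i3 : Integrable (fun g => σ * ((mm L (L.rho g)).det *
        f (yc L b (Pi.single c t) (L.rho g)) * w g - (mm L (L.rho g)).det *
          f (yc L b 0 (L.rho g)) * w g)) μ := ((i1 _).sub (i1 _)).const_mul σ
    rw [← integral_sub (i1 _) (i1 _), ← integral_const_mul, ← integral_add i3 i2]
    refine integral_congr_ae (Filter.Eventually.of_forall fun g => ?_)
    simp only; ring
  have hrem : |∫ g, (1 - σ * (mm L (L.rho g)).det) *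
        (f (yc L b (Pi.single c t) (L.rho g)) - f (yc L b 0 (L.rho g))) * w g ∂μ| ≤
      2 * C2 * ∫ g, dv L g * w g ∂μ := by
    rw [← integral_const_mul, ← Real.norm_eq_abs]
    refine norm_integral_le_of_norm_le (int_cont μ (continuous_const.mul (dv_cont.mul hwc)))
      (Filter.Eventually.of_forall fun g => ?_)
    rw [norm_mul, norm_mul, Real.norm_eq_abs, Real.norm_eq_abs, Real.norm_eq_abs,
      abs_of_nonneg (hw0 g)]
    have e1 : |1 - σ * (mm L (L.rho g)).det| ≤ C2 * dv L g := by rw [hσ]; exact h2 g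
    have e2 : |f (yc L b (Pi.single c t) (L.rho g)) - f (yc L b 0 (L.rho g))| ≤ 2 :=
      (abs_sub _ _).trans (by have := hf1 (yc L b (Pi.single c t) (L.rho g)); have := hf1 (yc L b 0 (L.rho g)); linarith)
    calc _ ≤ (C2 * dv L g * 2) * w g :=
          mul_le_mul_of_nonneg_right (mul_le_mul e1 e2 (abs_nonneg _)
            (mul_nonneg hC2 (dv_nonneg _))) (hw0 g)
      _ = _ := by ring
  have hIdv : 0 ≤ ∫ g, dv L g * w g ∂μ :=
    integral_nonneg fun g => mul_nonneg (dv_nonneg _) (hw0 g)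
  have hZ : 0 ≤ Z1 μ L (b ^ 4) S := integral_nonneg fun g => (Real.exp_pos _).le
  have hfin : |∫ g, (f (yc L b (Pi.single c t) (L.rho g)) - f (yc L b 0 (L.rho g))) * w g ∂μ| ≤
      (C1 + 2 * C2) * (‖S‖ + 1) * |t| * Z1 μ L (b ^ 4) S +
        (C1 + 2 * C2) * ∫ g, dv L g * w g ∂μ := by
    rw [hdec]
    refine (abs_add_le _ _).trans ?_
    rw [abs_mul, hσ1, one_mul]
    have p1 : 0 ≤ 2 * C2 * (‖S‖ + 1) * |t| * Z1 μ L (b ^ 4) S := by positivity
    have p2 : 0 ≤ C1 * ∫ g, dv L g * w g ∂μ := mul_nonneg hC1 hIdv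
    linarith
  rw [hwd] at hfin
  exact hfin

end

end Pool.Agent.H991.TV
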