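import Mathlib
import Pool.Agent.H991.TV.Law
import Pool.Agent.H991.TV.One
import Pool.Agent.H991.TV.Upd

/-!
# Stability under shifts of the law of the links in the comb gauge
-/

open MeasureTheory Matrix
open scoped Matrix.Norms.Frobenius ContDiff
open Pool.Agent.H906R3.YM Pool.Agent.W793.YM Pool.Agent.TH369.WL
open Pool.Agent.W793.SCHL (PT PT_prob EX_int)

namespace Pool.Agent.H991.TV

set_option linter.unusedSectionVars false
set_option linter.unusedVariables false

noncomputable section

section affine

variable {G : Type*} [Group G] [TopologicalSpace G] [IsTopologicalGroup G] [CompactSpace G]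
  [SecondCountableTopology G] [MeasurableSpace G] [BorelSpace G] {N n : ℕ} {L : LD G N n}

variable (L) in
/-- affine functions of the matrix -/
def Af (F : G → ℝ) (B : ℝ) : Prop :=
  ∃ (c : ℝ) (S : Mat N), ‖S‖ ≤ B ∧ ∀ g, F g = c - ip S (L.rho g)

lemma Af.const (c : ℝ) : Af L (fun _ => c) 0 := ⟨c, 0, by simp, fun g => by
  rw [ip_apply]; simp⟩

lemma Af.mono {F : G → ℝ} {B B' : ℝ} (h : Af L F B) (hB : B ≤ B') : Af L F B' := by
  obtain ⟨c, S, h1, h2⟩ := h
  exact ⟨c, S, h1.trans hB, h2⟩

lemma Af.add {F H : G → ℝ} {B B' : ℝ} (h : Af L F B) (h' : Af L H B') :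
    Af L (fun g => F g + H g) (B + B') := by
  obtain ⟨c, S, h1, h2⟩ := h
  obtain ⟨c', S', h1', h2'⟩ := h'
  refine ⟨c + c', S + S', (norm_add_le _ _).trans (add_le_add h1 h1'), fun g => ?_⟩
  have h3 : ip (S + S') (L.rho g) = ip S (L.rho g) + ip S' (L.rho g) := by
    rw [ip_apply, ip_apply, ip_apply, conjTranspose_add, add_mul, trace_add, Complex.add_re]
  simp only
  rw [h2, h2', h3]; ring

lemma Af.sum {κ : Type*} (s : Finset κ) (F : κ → G → ℝ) (B : κ → ℝ)
    (h : ∀ i ∈ s, Af L (F i) (B i)) : Af L (fun g => ∑ i ∈ s, F i g) (∑ i ∈ s, B i) := by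
  classical
  induction s using Finset.induction_on with
  | empty => simpa using Af.const (L := L) 0
  | insert i s hi ih =>
    simp only [Finset.sum_insert hi]
    exact (h i (Finset.mem_insert_self _ _)).add
      (ih fun j hj => h j (Finset.mem_insert_of_mem hj))

lemma norm_rho (g : G) : ‖L.rho g‖ = ‖(1 : Mat N)‖ := by
  have := norm_lmul (L := L) g (1 : Mat N)
  rwa [mul_one] at this

lemma Af.trans {F : G → ℝ} {B : ℝ} (h : Af L F B) (a b : G) : Af L (fun g => F (a * g * b)) B := by
  obtain ⟨c, S, h1, h2⟩ := h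
  refine ⟨c, L.rho a⁻¹ * S * L.rho b⁻¹, ?_, fun g => ?_⟩
  · rw [norm_rmul, norm_lmul]; exact h1
  · simp only
    rw [h2, ip_apply, ip_apply, conjTranspose_mul, conjTranspose_mul, L.rho_inv, L.rho_inv,
      conjTranspose_conjTranspose, conjTranspose_conjTranspose, map_mul, map_mul]
    congr 2
    have e1 : Sᴴ * (L.rho a * L.rho g * L.rho b) = (Sᴴ * (L.rho a * L.rho g)) * L.rho b := by
      simp only [Matrix.mul_assoc]
    rw [e1, trace_mul_comm]
    simp only [Matrix.mul_assoc]

lemma Af.we (a b : G) : Af L (fun g => we L (a * g * b)) ‖(1 : Mat N)‖ := by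
  have h : Af L (fun g => Pool.Agent.H906R3.YM.we L g) ‖(1 : Mat N)‖ := by
    refine ⟨N, 1, le_rfl, fun g => ?_⟩
    simp only
    rw [we_tr, ip_apply, conjTranspose_one, one_mul]
  exact h.trans a b

lemma Af.we_inv (a b : G) : Af L (fun g => Pool.Agent.H906R3.YM.we L (a * g⁻¹ * b)) ‖(1 : Mat N)‖ := by
  have h := Af.we (L := L) b⁻¹ a⁻¹
  have e : (fun g => Pool.Agent.H906R3.YM.we L (a * g⁻¹ * b)) =
      fun g => Pool.Agent.H906R3.YM.we L (b⁻¹ * g * a⁻¹) := by
    funext g
    rw [← Pool.Agent.W793.YM.we_inv]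
    congr 1
    group
  rw [e]; exact h

variable {d l : ℕ} [NeZero l]

lemma eT_ne (hl : 2 ≤ l) (k : Fin d) (y : Fin d → ZMod l) : y + eT k ≠ y := by
  intro h
  have h1 : (eT k : Fin d → ZMod l) = 0 := by simpa using h
  have h2 := congrFun h1 k
  unfold eT at h2
  rw [Pi.single_eq_same, Pi.zero_apply] at h2
  have : Fact (1 < l) := ⟨by omega⟩
  exact one_ne_zero h2

/-- the action is an affine function of the matrix of each link -/
lemma act_af (hl : 2 ≤ l) (U : Ed d l → G) (y : Fin d → ZMod l) (i0 : Fin d) :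
    Af L (fun g => act L (Function.update U (y, i0) g)) (2 * d * ‖(1 : Mat N)‖) := by
  classical
  have hne : ∀ (g : G) (x : Fin d → ZMod l) (k : Fin d), k ≠ i0 →
      Function.update U (y, i0) g (x, k) = U (x, k) := fun g x k hk =>
    Function.update_of_ne (fun h => hk (Prod.ext_iff.1 h).2) _ _
  have h1 : ∀ g, act L (Function.update U (y, i0) g) = ∑ x, aA L i0 U x +
      ∑ k, ∑ x, if k ≠ i0 then we L (plqT (Function.update U (y, i0) g) x i0 k) else 0 := by
    intro g
    rw [act_eq i0]
    congr 1
    · exact Finset.sum_congr rfl fun x _ => aA_congr fun y' k hk _ => hne g y' k hk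
    · unfold aB
      exact Finset.sum_comm
  simp only [h1]
  have h2 : ∀ k : Fin d, Af L (fun g => ∑ x, if k ≠ i0 then
      we L (plqT (Function.update U (y, i0) g) x i0 k) else 0) (2 * ‖(1 : Mat N)‖) := by
    intro k
    by_cases hk : k ≠ i0
    · simp only [hk, if_true, ne_eq, not_false_eq_true]
      have h3 : ∀ x : Fin d → ZMod l, Af L (fun g =>
          we L (plqT (Function.update U (y, i0) g) x i0 k))
          ((if x = y then ‖(1 : Mat N)‖ else 0) +
            (if x = y - eT k then ‖(1 : Mat N)‖ else 0)) := by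
        intro x
        by_cases hx : x = y
        · subst hx
          rw [if_pos rfl, if_neg (fun h => eT_ne hl k x (by
            conv_lhs => rw [h]
            exact sub_add_cancel _ _)), add_zero]
          have e : (fun g => we L (plqT (Function.update U (x, i0) g) x i0 k)) =
              fun g => we L (1 * g * (U (x + eT i0, k) * (U (x + eT k, i0))⁻¹ * (U (x, k))⁻¹)) := by
            funext g
            unfold plqT
            rw [Function.update_self, hne g _ _ hk, hne g _ _ hk,
              Function.update_of_ne (fun h => eT_ne hl k x (Prod.ext_iff.1 h).1)]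
            congr 1
            group
          rw [e]
          exact Af.we _ _
        · rw [if_neg hx, zero_add]
          by_cases hx' : x = y - eT k
          · rw [if_pos hx']
            have hxy : x + eT k = y := by rw [hx', sub_add_cancel]
            have e : (fun g => we L (plqT (Function.update U (y, i0) g) x i0 k)) =
                fun g => we L ((U (x, i0) * U (x + eT i0, k)) * g⁻¹ * (U (x, k))⁻¹) := by
              funext g
              unfold plqT
              rw [hne g _ _ hk, hne g _ _ hk, hxy, Function.update_self,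
                Function.update_of_ne (fun h => hx (Prod.ext_iff.1 h).1)]
            rw [e]
            exact Af.we_inv _ _
          · rw [if_neg hx']
            have hxy : x + eT k ≠ y := fun h => hx' (by rw [← h, add_sub_cancel_right])
            have e : (fun g => we L (plqT (Function.update U (y, i0) g) x i0 k)) =
                fun g => we L (plqT U x i0 k) := by
              funext g
              unfold plqT
              rw [hne g _ _ hk, hne g _ _ hk,
                Function.update_of_ne (fun h => hx (Prod.ext_iff.1 h).1),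
                Function.update_of_ne (fun h => hxy (Prod.ext_iff.1 h).1)]
            rw [e]
            exact Af.const _
      have h4 := Af.sum Finset.univ _ _ fun x (_ : x ∈ Finset.univ) => h3 x
      rw [Finset.sum_add_distrib, Finset.sum_ite_eq' Finset.univ y,
        Finset.sum_ite_eq' Finset.univ (y - eT k)] at h4
      simp only [Finset.mem_univ, if_true] at h4
      exact h4.mono (by linarith)
    · simp only [hk, if_false, Finset.sum_const_zero]
      exact (Af.const 0).mono (by positivity)
  have h5 := (Af.const (L := L) (∑ x, aA L i0 U x)).add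
    (Af.sum Finset.univ _ _ fun k (_ : k ∈ Finset.univ) => h2 k)
  refine h5.mono (le_of_eq ?_)
  rw [Finset.sum_const, Finset.card_univ, Fintype.card_fin, nsmul_eq_mul]
  ring

end affine

section links

variable {G : Type*} [Group G] {d l : ℕ} [NeZero l] {R : ℕ} {z : Fin d → ℤ}

lemma zt_inj (hR : R < l) {v v' : Pt d} (hv : ∀ i, v i ≤ R) (hv' : ∀ i, v' i ≤ R)
    (h : zt l (z + nz v) = zt l (z + nz v')) : v = v' := by
  funext i
  have h1 := congrFun h i
  unfold zt at h1
  simp only [Pi.add_apply, nz, Int.cast_add, Int.cast_natCast] at h1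
  have h2 := add_left_cancel h1
  rw [ZMod.natCast_eq_natCast_iff'] at h2
  rwa [Nat.mod_eq_of_lt (by have := hv i; omega), Nat.mod_eq_of_lt (by have := hv' i; omega)] at h2

/-- the link `(v, k)` of the box with the corner `z` -/
def lk (l : ℕ) (z : Fin d → ℤ) (v : Pt d) (k : Fin d) : Ed d l := (zt l (z + nz v), k)

lemma uo_upd [DecidableEq (Ed d l)] (hR : R < l) (U : Ed d l → G) {v v' : Pt d} {k k' : Fin d}
    (hv : ∀ i, v i ≤ R) (hv' : ∀ i, v' i ≤ R) (h : ¬(v' = v ∧ k' = k)) (g : G) :
    uo (lf (Function.update U (lk l z v k) g)) z v' k' = uo (lf U) z v' k' := by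
  have h1 : ∀ W : Ed d l → G, uo (lf W) z v' k' = W (lk l z v' k') := fun W => rfl
  rw [h1, h1, Function.update_of_ne]
  intro h2
  exact h ⟨zt_inj hR hv' hv (Prod.ext_iff.1 h2).1, (Prod.ext_iff.1 h2).2⟩

lemma fr_upd [DecidableEq (Ed d l)] (hR : R < l) (U : Ed d l → G) {v v' : Pt d} {k : Fin d}
    (hv : ∀ i, v i ≤ R) (hv' : ∀ i, v' i ≤ R) (ht : ∃ j < k, 0 < v j) (g : G) :
    fr (uo (lf (Function.update U (lk l z v k) g)) z) v' = fr (uo (lf U) z) v' := by
  refine fr_congr' _ fun w hw k' _ hk0 => ?_
  refine uo_upd hR U hv (fun i => (hw i).trans (hv' i)) ?_ g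
  rintro ⟨rfl, rfl⟩
  obtain ⟨j, hj, hj'⟩ := ht
  have := hk0 j hj
  omega

/-- the link in the comb gauge of the box with the corner `z` -/
def hh (z : Fin d → ℤ) (v : Pt d) (k : Fin d) (U : Ed d l → G) : G := tl (uo (lf U) z) v k

lemma hh_self [DecidableEq (Ed d l)] (hR : R < l) (U : Ed d l → G) {v : Pt d} {k : Fin d}
    (hv : ∀ i, v i ≤ R) (hk : v k + 1 ≤ R) (ht : ∃ j < k, 0 < v j) (g : G) :
    hh z v k (Function.update U (lk l z v k) g) =
      fr (uo (lf U) z) v * g * (fr (uo (lf U) z) (v + es k))⁻¹ := by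
  have hv' : ∀ i, (v + es k) i ≤ R := fun i => by
    by_cases h : i = k
    · subst h; simp only [Pi.add_apply, es_same]; exact hk
    · simp only [Pi.add_apply, es_ne h, add_zero]; exact hv i
  unfold hh tl
  rw [fr_upd hR U hv hv ht, fr_upd hR U hv hv' ht]
  congr 2
  exact Function.update_self _ _ _

lemma hh_ne [DecidableEq (Ed d l)] (hR : R < l) (U : Ed d l → G) {v v' : Pt d} {k k' : Fin d}
    (hv : ∀ i, v i ≤ R) (hv' : ∀ i, v' i ≤ R) (hk' : v' k' + 1 ≤ R) (ht : ∃ j < k, 0 < v j)
    (h : ¬(v' = v ∧ k' = k)) (g : G) :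
    hh z v' k' (Function.update U (lk l z v k) g) = hh z v' k' U := by
  have hv'' : ∀ i, (v' + es k') i ≤ R := fun i => by
    by_cases h : i = k'
    · subst h; simp only [Pi.add_apply, es_same]; exact hk'
    · simp only [Pi.add_apply, es_ne h, add_zero]; exact hv' i
  unfold hh tl
  rw [fr_upd hR U hv hv' ht, fr_upd hR U hv hv'' ht, uo_upd hR U hv hv' h]

end links

end

end Pool.Agent.H991.TV
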