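import Mathlib
import Pool.Agent.H991.TV.BvT

/-!
# Stability under shifts of the law of the links in the comb gauge
-/

open MeasureTheory Matrix
open scoped Matrix.Norms.Frobenius ContDiff
open Pool.Agent.H906R3.YM Pool.Agent.W793.YM Pool.Agent.TH369.WL
open Pool.Agent.W793.SCHL (PT PT_prob EX_int)

namespace Pool.Agent.H991.TV

set_option linter.unusedSectionVars false
set_option linter.unusedVariables false

noncomputable section

section slice

variable {κ : Type*} [Fintype κ] [DecidableEq κ] {n : ℕ}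

/-- a block of coordinates replaced -/
def sl (x : κ × Fin n → ℝ) (e : κ) (y : Fin n → ℝ) : κ × Fin n → ℝ :=
  fun q => if q.1 = e then y q.2 else x q

lemma sl_deriv (x : κ × Fin n → ℝ) (e : κ) (y : Fin n → ℝ) :
    HasFDerivAt (sl x e) (ContinuousLinearMap.pi fun q : κ × Fin n =>
      if q.1 = e then ContinuousLinearMap.proj (R := ℝ) (φ := fun _ : Fin n => ℝ) q.2 else 0) y := by
  refine hasFDerivAt_pi.2 fun q => ?_
  unfold sl
  by_cases h : q.1 = e
  · simp only [h, if_true]
    exact (ContinuousLinearMap.proj (R := ℝ) (φ := fun _ : Fin n => ℝ) q.2).hasFDerivAt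
  · simp only [h, if_false]
    exact hasFDerivAt_const _ _

lemma sl_smooth (x : κ × Fin n → ℝ) (e : κ) : ContDiff ℝ ∞ (sl x e) := by
  refine contDiff_pi.2 fun q => ?_
  unfold sl
  by_cases h : q.1 = e
  · simp only [h, if_true]
    exact contDiff_apply ℝ ℝ q.2
  · simp only [h, if_false]
    exact contDiff_const

lemma pd_sl {f : (κ × Fin n → ℝ) → ℝ} (hf : ContDiff ℝ ∞ f) (x : κ × Fin n → ℝ) (e : κ)
    (c : Fin n) (y : Fin n → ℝ) : pd (fun y => f (sl x e y)) c y = pd f (e, c) (sl x e y) := by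
  unfold pd
  have h2 : HasFDerivAt f (fderiv ℝ f (sl x e y)) (sl x e y) :=
    (hf.differentiable (by simp)).differentiableAt.hasFDerivAt
  have h3 := (h2.comp y (sl_deriv x e y)).fderiv
  have h4 : fderiv ℝ (fun y => f (sl x e y)) y = _ := h3
  rw [h4]
  show fderiv ℝ f (sl x e y) _ = _
  congr 1
  funext q
  show (if q.1 = e then ContinuousLinearMap.proj (R := ℝ) (φ := fun _ : Fin n => ℝ) q.2 else 0)
    (Pi.single c 1) = _
  by_cases h : q.1 = e
  · rw [if_pos h]
    show (Pi.single c (1:ℝ) : Fin n → ℝ) q.2 = _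
    by_cases hc : q.2 = c
    · have hq : q = (e, c) := Prod.ext h hc
      rw [hq, Pi.single_eq_same, Pi.single_eq_same]
    · rw [Pi.single_eq_of_ne hc, Pi.single_eq_of_ne]
      intro hq
      exact hc (Prod.ext_iff.1 hq).2
  · rw [if_neg h, Pi.single_eq_of_ne]
    · rfl
    · intro hq
      exact h (Prod.ext_iff.1 hq).1

end slice

variable {G : Type*} [Group G] [TopologicalSpace G] [IsTopologicalGroup G] [CompactSpace G]
  [SecondCountableTopology G] [MeasurableSpace G] [BorelSpace G] (μ : Measure G)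
  [IsProbabilityMeasure μ] [μ.IsMulLeftInvariant] [μ.IsMulRightInvariant] [μ.IsInvInvariant]
  {N n : ℕ} {L : LD G N n} {d l : ℕ} [NeZero l] {R : ℕ} {z : Fin d → ℤ}

lemma hh_cont (z : Fin d → ℤ) (v : Pt d) (k : Fin d) :
    Continuous (hh z v k : (Ed d l → G) → G) := by
  have h : ∀ w : Pt d, Continuous fun U : Ed d l → G => fr (uo (lf U) z) w := by
    intro w
    have : (fun U : Ed d l → G => fr (uo (lf U) z) w) = fun U => hol (lf U) z (cmb (sz w) w) := by
      funext U; exact (cmb_fr (lf U) z w).symm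
    rw [this]
    exact (hol_cont z _).comp lf_cont
  unfold hh tl
  exact ((h v).mul (continuous_apply _)).mul (h _).inv

section main

variable {κ : Type*} [Fintype κ] [DecidableEq κ]

variable (L) in
/-- the coordinates of the links in the comb gauge -/
def XX (b : ℝ) (z : Fin d → ℤ) (w : κ → Pt d) (k : κ → Fin d) (U : Ed d l → G) :
    κ × Fin n → ℝ := fun q => b ^ 2 * fi L q.2 (hh z (w q.1) (k q.1) U)

lemma XX_cont (b : ℝ) (z : Fin d → ℤ) (w : κ → Pt d) (k : κ → Fin d) :
    Continuous (XX L b z w k : (Ed d l → G) → κ × Fin n → ℝ) :=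
  continuous_pi fun q => continuous_const.mul ((fi_cont q.2).comp (hh_cont z _ _))

/-- The law of the links in the comb gauge is stable under shifts. -/
theorem Bv_torus : ∃ C : ℝ, 0 ≤ C ∧ ∀ b : ℝ, 1 ≤ b → ∀ (l : ℕ) [NeZero l], 2 ≤ l →
    ∀ (R : ℕ), R < l → ∀ (z : Fin d → ℤ) (κ : Type) [Fintype κ] [DecidableEq κ] (w : κ → Pt d)
      (k : κ → Fin d), (∀ e i, w e i ≤ R) → (∀ e, w e (k e) + 1 ≤ R) →
      (∀ e, ∃ j < k e, 0 < w e j) → (∀ e e', w e = w e' → k e = k e' → e = e') →
      ∀ η : ℝ, (∀ e, EX μ L (b ^ 4) (fun U : Ed d l → G => dv L (hh z (w e) (k e) U)) ≤ η) →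
        Bv ((PT μ L (b ^ 4) : Measure (Ed d l → G)).map (XX L b z w k)) C (C * η) := by
  classical
  obtain ⟨C, hC, hone⟩ := one_stab μ (L := L)
  obtain ⟨B, hB⟩ : ∃ B : ℝ, B = 2 * d * ‖(1 : Mat N)‖ := ⟨_, rfl⟩
  have hB0 : 0 ≤ B := by rw [hB]; positivity
  refine ⟨C * (B + 1), by positivity, fun b hb l _ hl R hR z κ _ _ w k hw hk ht hinj η hη => ?_⟩
  have hpr := PT_prob μ (L := L) (d := d) (l := l) (b ^ 4)
  have hXc := XX_cont (L := L) (l := l) b z w k
  have hpr' : IsProbabilityMeasure ((PT μ L (b ^ 4) : Measure (Ed d l → G)).map (XX L b z w k)) :=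
    Measure.isProbabilityMeasure_map hXc.measurable.aemeasurable
  refine Bv_of_smooth fun f hf h1 hc1 hc2 j t => ?_
  obtain ⟨c1, hc1⟩ := hc1
  obtain ⟨e, c⟩ := j
  have hfc : Continuous f := hf.continuous
  have hfs : Continuous fun x : κ × Fin n → ℝ => f (x + Pi.single (e, c) t) :=
    hfc.comp (continuous_id.add continuous_const)
  rw [integral_map hXc.measurable.aemeasurable hfs.aestronglyMeasurable,
    integral_map hXc.measurable.aemeasurable hfc.aestronglyMeasurable, ← EX_int, ← EX_int]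
  have q1 : Continuous fun U : Ed d l → G => f (XX L b z w k U + Pi.single (e, c) t) :=
    hfs.comp hXc
  have q2 : Continuous fun U : Ed d l → G => f (XX L b z w k U) := hfc.comp hXc
  rw [← EX_sub μ q1 q2]
  obtain ⟨Ψ, hΨ⟩ : ∃ Ψ : (Ed d l → G) → ℝ, Ψ = fun U => f (XX L b z w k U + Pi.single (e, c) t) -
    f (XX L b z w k U) := ⟨_, rfl⟩
  have hΨc : Continuous Ψ := by rw [hΨ]; exact q1.sub q2
  rw [← hΨ]
  obtain ⟨W, hW⟩ : ∃ W : (Ed d l → G) → ℝ, W = fun U => Real.exp (-(b ^ 4 * act L U)) := ⟨_, rfl⟩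
  have hWc : Continuous W := by rw [hW]; exact wt_contT (L := L) _
  have hW0 : ∀ U, 0 < W U := fun U => by rw [hW]; exact Real.exp_pos _
  obtain ⟨ℓ, hℓ⟩ : ∃ ℓ : Ed d l, ℓ = lk l z (w e) (k e) := ⟨_, rfl⟩
  obtain ⟨D, hD⟩ : ∃ D : (Ed d l → G) → ℝ, D = fun U => dv L (hh z (w e) (k e) U) := ⟨_, rfl⟩
  have hDc : Continuous D := by rw [hD]; exact dv_cont.comp (hh_cont z _ _)
  have hcu : ∀ U : Ed d l → G, Continuous fun g : G => Function.update U ℓ g := fun U =>
    continuous_const.update ℓ continuous_id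
  -- one link
  have inner : ∀ U : Ed d l → G, |∫ g, Ψ (Function.update U ℓ g) * W (Function.update U ℓ g) ∂μ| ≤
      C * (B + 1) * |t| * ∫ g, W (Function.update U ℓ g) ∂μ +
        C * ∫ g, D (Function.update U ℓ g) * W (Function.update U ℓ g) ∂μ := by
    intro U
    obtain ⟨T1, hT1⟩ : ∃ T1, T1 = fr (uo (lf U) z) (w e) := ⟨_, rfl⟩
    obtain ⟨T2, hT2⟩ : ∃ T2, T2 = fr (uo (lf U) z) (w e + es (k e)) := ⟨_, rfl⟩
    have chg : ∀ F : (Ed d l → G) → ℝ, ∫ g, F (Function.update U ℓ g) ∂μ =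
        ∫ g, F (Function.update U ℓ (T1⁻¹ * g * T2)) ∂μ := by
      intro F
      have e1 := integral_mul_right_eq_self (μ := μ)
        (fun g => F (Function.update U ℓ (T1⁻¹ * g))) T2
      have e2 := integral_mul_left_eq_self (μ := μ) (fun g => F (Function.update U ℓ g)) T1⁻¹
      rw [← e2, ← e1]
      simp only [mul_assoc]
    obtain ⟨a0, S, hS, ha⟩ := (act_af (L := L) hl U (zt l (z + nz (w e))) (k e)).trans T1⁻¹ T2
    have hWv : ∀ g, W (Function.update U ℓ (T1⁻¹ * g * T2)) =
        Real.exp (-(b ^ 4 * a0)) * Real.exp (b ^ 4 * ip S (L.rho g)) := by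
      intro g
      rw [hW, hℓ]
      simp only
      unfold lk
      have e1 := ha g
      simp only at e1
      rw [e1, ← Real.exp_add]
      congr 1; ring
    have hhv : ∀ g, hh z (w e) (k e) (Function.update U ℓ (T1⁻¹ * g * T2)) = g := by
      intro g
      rw [hℓ, hh_self hR U (hw e) (hk e) (ht e), ← hT1, ← hT2]
      group
    have hDv : ∀ g, D (Function.update U ℓ (T1⁻¹ * g * T2)) = dv L g := by
      intro g
      rw [hD]
      simp only
      rw [hhv]
    have hXv : ∀ g, XX L b z w k (Function.update U ℓ (T1⁻¹ * g * T2)) =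
        sl (XX L b z w k U) e (yc L b 0 (L.rho g)) := by
      intro g
      funext q
      unfold sl
      by_cases hq : q.1 = e
      · rw [if_pos hq]
        unfold XX yc
        rw [hq, hhv, Pi.zero_apply, add_zero]
        rfl
      · rw [if_neg hq]
        unfold XX
        rw [hℓ, hh_ne hR U (hw e) (hw q.1) (hk q.1) (ht e)]
        rintro ⟨h2, h3⟩
        exact hq (hinj _ _ h2 h3)
    have hXt : ∀ g, XX L b z w k (Function.update U ℓ (T1⁻¹ * g * T2)) + Pi.single (e, c) t =
        sl (XX L b z w k U) e (yc L b (Pi.single c t) (L.rho g)) := by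
      intro g
      rw [hXv]
      funext q
      rw [Pi.add_apply]
      unfold sl
      by_cases hq : q.1 = e
      · rw [if_pos hq, if_pos hq]
        unfold yc
        rw [Pi.zero_apply, add_zero]
        congr 1
        by_cases hc : q.2 = c
        · have hq' : q = (e, c) := Prod.ext hq hc
          rw [hq', Pi.single_eq_same, Pi.single_eq_same]
        · rw [Pi.single_eq_of_ne hc, Pi.single_eq_of_ne]
          intro hq'
          exact hc (Prod.ext_iff.1 hq').2
      · rw [if_neg hq, if_neg hq, Pi.single_eq_of_ne, add_zero]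
        intro hq'
        exact hq (Prod.ext_iff.1 hq').1
    have hf' : ContDiff ℝ ∞ fun y => f (sl (XX L b z w k U) e y) :=
      hf.comp (sl_smooth (XX L b z w k U) e)
    have h2 := hone b hb S _ hf' (fun y => h1 _) ⟨c1, fun c y => by rw [pd_sl hf]; exact hc1 _ _⟩ c t
    have i1 : ∫ g, Ψ (Function.update U ℓ g) * W (Function.update U ℓ g) ∂μ =
        Real.exp (-(b ^ 4 * a0)) * ∫ g, (f (sl (XX L b z w k U) e
          (yc L b (Pi.single c t) (L.rho g))) - f (sl (XX L b z w k U) e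
            (yc L b 0 (L.rho g)))) * Real.exp (b ^ 4 * ip S (L.rho g)) ∂μ := by
      rw [chg (fun U => Ψ U * W U), ← integral_const_mul]
      refine integral_congr_ae (Filter.Eventually.of_forall fun g => ?_)
      simp only
      rw [hWv, hΨ]
      simp only
      rw [hXt, hXv]; ring
    have i2 : ∫ g, W (Function.update U ℓ g) ∂μ =
        Real.exp (-(b ^ 4 * a0)) * Z1 μ L (b ^ 4) S := by
      unfold Z1
      rw [chg W, ← integral_const_mul]
      exact integral_congr_ae (Filter.Eventually.of_forall fun g => hWv g)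
    have i3 : ∫ g, D (Function.update U ℓ g) * W (Function.update U ℓ g) ∂μ =
        Real.exp (-(b ^ 4 * a0)) * ∫ g, dv L g * Real.exp (b ^ 4 * ip S (L.rho g)) ∂μ := by
      rw [chg (fun U => D U * W U), ← integral_const_mul]
      refine integral_congr_ae (Filter.Eventually.of_forall fun g => ?_)
      simp only
      rw [hWv, hDv]; ring
    rw [i1, i2, i3, abs_mul, Real.abs_exp]
    have h3 : Real.exp (-(b ^ 4 * a0)) * |∫ g, (f (sl (XX L b z w k U) e
          (yc L b (Pi.single c t) (L.rho g))) - f (sl (XX L b z w k U) e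
            (yc L b 0 (L.rho g)))) * Real.exp (b ^ 4 * ip S (L.rho g)) ∂μ| ≤
        Real.exp (-(b ^ 4 * a0)) * (C * (‖S‖ + 1) * |t| * Z1 μ L (b ^ 4) S +
          C * ∫ g, dv L g * Real.exp (b ^ 4 * ip S (L.rho g)) ∂μ) :=
      mul_le_mul_of_nonneg_left h2 (Real.exp_pos _).le
    refine h3.trans ?_
    have hZ : 0 ≤ Z1 μ L (b ^ 4) S := integral_nonneg fun g => (Real.exp_pos _).le
    have hSB : ‖S‖ + 1 ≤ B + 1 := by rw [hB]; linarith
    have h4 : C * (‖S‖ + 1) * |t| * Z1 μ L (b ^ 4) S ≤ C * (B + 1) * |t| * Z1 μ L (b ^ 4) S := by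
      gcongr
    calc _ ≤ Real.exp (-(b ^ 4 * a0)) * (C * (B + 1) * |t| * Z1 μ L (b ^ 4) S +
          C * ∫ g, dv L g * Real.exp (b ^ 4 * ip S (L.rho g)) ∂μ) :=
          mul_le_mul_of_nonneg_left (by linarith) (Real.exp_pos _).le
      _ = _ := by ring
  -- integration over the other links
  have iΨ : Integrable (fun U => Ψ U * W U) (ME μ (Ed d l)) := integrable_cont μ (hΨc.mul hWc)
  have iW : Integrable W (ME μ (Ed d l)) := integrable_cont μ hWc
  have iD : Integrable (fun U => D U * W U) (ME μ (Ed d l)) := integrable_cont μ (hDc.mul hWc)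
  have j1 := integrable_upd (fun _ : Ed d l => μ) ℓ iW
  have j2 := integrable_upd (fun _ : Ed d l => μ) ℓ iD
  have key : |∫ U, Ψ U * W U ∂(ME μ (Ed d l))| ≤ C * (B + 1) * |t| * ∫ U, W U ∂(ME μ (Ed d l)) +
      C * ∫ U, D U * W U ∂(ME μ (Ed d l)) := by
    rw [integral_upd (fun _ : Ed d l => μ) ℓ iΨ, integral_upd (fun _ : Ed d l => μ) ℓ iW,
      integral_upd (fun _ : Ed d l => μ) ℓ iD, ← integral_const_mul, ← integral_const_mul,
      ← integral_add (j1.const_mul _) (j2.const_mul _), ← Real.norm_eq_abs]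
    exact norm_integral_le_of_norm_le ((j1.const_mul _).add (j2.const_mul _))
      (Filter.Eventually.of_forall fun U => by rw [Real.norm_eq_abs]; exact inner U)
  have hZ := Zt_pos μ (L := L) (d := d) (l := l) (b ^ 4)
  have z1 : ∫ U, W U ∂(ME μ (Ed d l)) = Zt μ L (b ^ 4) (fun _ : Ed d l → G => 1) := by
    unfold Zt
    simp only [one_mul]
    rw [hW]
  have z2 : ∫ U, D U * W U ∂(ME μ (Ed d l)) = Zt μ L (b ^ 4) D := by
    unfold Zt
    rw [hW]
  have z3 : ∫ U, Ψ U * W U ∂(ME μ (Ed d l)) = Zt μ L (b ^ 4) Ψ := by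
    unfold Zt
    rw [hW]
  rw [z1, z2, z3] at key
  have hηe : Zt μ L (b ^ 4) D ≤ η * Zt μ L (b ^ 4) (fun _ : Ed d l → G => 1) := by
    have := hη e
    unfold EX at this
    rw [div_le_iff₀ hZ] at this
    rw [hD]; exact this
  have hη0 : 0 ≤ η := le_trans (EX_nonneg μ fun U => dv_nonneg _) (hη e)
  unfold EX
  rw [abs_div, abs_of_pos hZ, div_le_iff₀ hZ]
  refine key.trans ?_
  have h5 : C * Zt μ L (b ^ 4) D ≤ C * (B + 1) * η * Zt μ L (b ^ 4) (fun _ : Ed d l → G => 1) := by
    calc C * Zt μ L (b ^ 4) D ≤ C * (η * Zt μ L (b ^ 4) (fun _ : Ed d l → G => 1)) :=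
          mul_le_mul_of_nonneg_left hηe hC
      _ = C * 1 * η * Zt μ L (b ^ 4) (fun _ : Ed d l → G => 1) := by ring
      _ ≤ _ := by
        gcongr
        linarith
  linarith

end main

end

end Pool.Agent.H991.TV
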