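import Mathlib
import Pool.Agent.H991.TV.Interp
import Pool.Agent.H991.TV.Upd

/-!
# Integration by parts for Gaussian measures
-/

open MeasureTheory Filter ProbabilityTheory Matrix WithLp
open scoped ContDiff Topology NNReal MatrixOrder

namespace Pool.Agent.H991.TV

set_option linter.unusedSectionVars false

noncomputable section

lemma pdf_deriv (x : ℝ) :
    HasDerivAt (gaussianPDFReal 0 1) (-x * gaussianPDFReal 0 1 x) x := by
  unfold gaussianPDFReal
  have h1 : HasDerivAt (fun x : ℝ => -(x - 0) ^ 2 / (2 * ((1 : ℝ≥0) : ℝ))) (-x) x := by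
    have h2 := ((hasDerivAt_id x).sub_const (0 : ℝ)).pow 2
    have h3 := h2.neg.div_const (2 * ((1 : ℝ≥0) : ℝ))
    refine h3.congr_deriv ?_
    simp only [id, sub_zero, Nat.cast_ofNat, Nat.add_one_sub_one, pow_one, mul_one, NNReal.coe_one]
    ring
  have h4 := (h1.exp).const_mul ((Real.sqrt (2 * Real.pi * ((1 : ℝ≥0) : ℝ)))⁻¹)
  refine h4.congr_deriv ?_
  ring

/-- integration by parts for the standard normal distribution -/
lemma ibp1 {g g' : ℝ → ℝ} (hg : ∀ x, HasDerivAt g (g' x) x) (hg' : Continuous g') {c0 c1 : ℝ}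
    (h0 : ∀ x, |g x| ≤ c0) (h1 : ∀ x, |g' x| ≤ c1) :
    ∫ x, x * g x ∂(gaussianReal 0 1) = ∫ x, g' x ∂(gaussianReal 0 1) := by
  have hgc : Continuous g := continuous_iff_continuousAt.2 fun x => (hg x).continuousAt
  have hv : (1 : ℝ≥0) ≠ 0 := one_ne_zero
  rw [integral_gaussianReal_eq_integral_smul hv, integral_gaussianReal_eq_integral_smul hv]
  simp only [smul_eq_mul]
  have i0 : Integrable (gaussianPDFReal 0 1) := integrable_gaussianPDFReal 0 1
  have i1 : Integrable (fun x : ℝ => x * gaussianPDFReal 0 1 x) := by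
    have e1 : Integrable (fun x : ℝ => x) (gaussianReal 0 1) :=
      (memLp_id_gaussianReal (μ := 0) (v := 1) 1).integrable (by simp)
    rw [gaussianReal_of_var_ne_zero 0 hv] at e1
    have e2 := (integrable_withDensity_iff (measurable_gaussianPDF 0 1)
      (Filter.Eventually.of_forall fun x => gaussianPDF_lt_top)).1 e1
    simpa only [toReal_gaussianPDF] using e2
  have hm : AEStronglyMeasurable (gaussianPDFReal 0 1) volume :=
    (measurable_gaussianPDFReal 0 1).aestronglyMeasurable
  have a1 : Integrable (g * gaussianPDFReal 0 1) :=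
    i0.bdd_mul (c := c0) hgc.aestronglyMeasurable (Filter.Eventually.of_forall h0)
  have a2 : Integrable (g' * gaussianPDFReal 0 1) :=
    i0.bdd_mul (c := c1) hg'.aestronglyMeasurable (Filter.Eventually.of_forall h1)
  have a3 : Integrable (g * fun x => -x * gaussianPDFReal 0 1 x) := by
    have e1 := i1.bdd_mul (c := c0) (f := g) hgc.aestronglyMeasurable
      (Filter.Eventually.of_forall h0)
    refine e1.neg.congr (Filter.Eventually.of_forall fun x => ?_)
    simp only [Pi.neg_apply, Pi.mul_apply]; ring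
  have h2 := integral_mul_deriv_eq_deriv_mul_of_integrable (u := g) (v := gaussianPDFReal 0 1)
    (u' := g') (v' := fun x => -x * gaussianPDFReal 0 1 x) (fun x _ => hg x)
    (fun x _ => pdf_deriv x) a3 a2 a1
  have h3 : ∫ x, gaussianPDFReal 0 1 x * (x * g x) =
      -∫ x, g x * (-x * gaussianPDFReal 0 1 x) := by
    rw [← integral_neg]
    refine integral_congr_ae (Filter.Eventually.of_forall fun x => ?_)
    simp only; ring
  rw [h3, h2, neg_neg]
  refine integral_congr_ae (Filter.Eventually.of_forall fun x => ?_)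
  simp only; ring

variable {ι : Type*} [Fintype ι] [DecidableEq ι]

/-- the product of standard normal distributions -/
abbrev gst (ι : Type*) [Fintype ι] : Measure (ι → ℝ) := Measure.pi fun _ : ι => gaussianReal 0 1

lemma gst_int (i : ι) : Integrable (fun x : ι → ℝ => x i) (gst ι) := by
  have e1 : Integrable (fun x : ℝ => x) (gaussianReal 0 1) :=
    (memLp_id_gaussianReal (μ := 0) (v := 1) 1).integrable (by simp)
  exact (measurePreserving_eval (fun _ : ι => gaussianReal 0 1) i).integrable_comp_of_integrable e1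

/-- integration by parts for the product -/
lemma ibpn {F : (ι → ℝ) → ℝ} (hF : ContDiff ℝ ∞ F) {c0 c1 : ℝ} (h0 : ∀ x, |F x| ≤ c0)
    (h1 : ∀ j x, |pd F j x| ≤ c1) (k : ι) :
    ∫ x, x k * F x ∂(gst ι) = ∫ x, pd F k x ∂(gst ι) := by
  have i1 : Integrable (fun x : ι → ℝ => x k * F x) (gst ι) := by
    have := (gst_int k).bdd_mul (c := c0) hF.continuous.aestronglyMeasurable
      (Filter.Eventually.of_forall h0)
    refine this.congr (Filter.Eventually.of_forall fun x => ?_)
    simp only; ring
  have i2 : Integrable (fun x : ι → ℝ => pd F k x) (gst ι) :=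
    Integrable.of_bound (pd_smooth hF k).continuous.aestronglyMeasurable c1
      (Filter.Eventually.of_forall fun x => h1 k x)
  rw [integral_upd (fun _ : ι => gaussianReal 0 1) k i1,
    integral_upd (fun _ : ι => gaussianReal 0 1) k i2]
  refine integral_congr_ae (Filter.Eventually.of_forall fun x => ?_)
  simp only [Function.update_self]
  have hd : ∀ y, HasDerivAt (fun y => F (Function.update x k y))
      (pd F k (Function.update x k y)) y := by
    intro y
    have h2 : HasFDerivAt F (fderiv ℝ F (Function.update x k y)) (Function.update x k y) :=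
      (hF.differentiable (by simp)).differentiableAt.hasFDerivAt
    have h3 : HasDerivAt (fun y => Function.update x k y) (Pi.single k (1 : ℝ)) y :=
      hasDerivAt_update x k y
    exact h2.comp_hasDerivAt y h3
  have hc : Continuous fun y : ℝ => Function.update x k y :=
    continuous_const.update k continuous_id
  exact ibp1 hd ((pd_smooth hF k).continuous.comp hc) (fun y => h0 _) (fun y => h1 _ _)

/-- the centred Gaussian measure with covariance `S` -/
def gau (S : Matrix ι ι ℝ) : Measure (ι → ℝ) :=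
  (multivariateGaussian (0 : EuclideanSpace ℝ ι) S).map ofLp

instance (S : Matrix ι ι ℝ) : IsProbabilityMeasure (gau S) :=
  Measure.isProbabilityMeasure_map (by fun_prop)

lemma gau_eq (S : Matrix ι ι ℝ) : gau S = (gst ι).map fun z => CFC.sqrt S *ᵥ z := by
  unfold gau multivariateGaussian
  rw [← map_pi_eq_stdGaussian]
  rw [Measure.map_map (by fun_prop) (by fun_prop), Measure.map_map (by fun_prop) (by fun_prop)]
  congr 1
  funext z
  simp only [Function.comp, zero_add]
  rw [Matrix.toEuclideanCLM_toLp]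

lemma pd_lin {F : (ι → ℝ) → ℝ} (hF : ContDiff ℝ ∞ F) (B : Matrix ι ι ℝ) (k : ι) (z : ι → ℝ) :
    pd (fun z => F (B *ᵥ z)) k z = ∑ j, B j k * pd F j (B *ᵥ z) := by
  obtain ⟨T, hT⟩ : ∃ T : (ι → ℝ) →L[ℝ] (ι → ℝ), ∀ z, T z = B *ᵥ z :=
    ⟨LinearMap.toContinuousLinearMap B.mulVecLin, fun z => rfl⟩
  have h1 : HasFDerivAt (fun z => T z) T z := T.hasFDerivAt
  have h2 : HasFDerivAt F (fderiv ℝ F (T z)) (T z) :=
    (hF.differentiable (by simp)).differentiableAt.hasFDerivAt
  have h3 := (h2.comp z h1).fderiv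
  have h4 : (F ∘ fun z => T z) = fun z => F (B *ᵥ z) := by
    funext z; simp only [Function.comp, hT]
  rw [h4] at h3
  unfold pd
  rw [h3, ContinuousLinearMap.comp_apply, hT, hT, fderiv_sum]
  refine Finset.sum_congr rfl fun j _ => ?_
  congr 1
  simp [Matrix.mulVec, dotProduct, Pi.single_apply]

lemma mulVec_cont (B : Matrix ι ι ℝ) : Continuous fun z : ι → ℝ => B *ᵥ z :=
  Continuous.matrix_mulVec continuous_const continuous_id

lemma gau_int (S : Matrix ι ι ℝ) (i : ι) : Integrable (fun x : ι → ℝ => x i) (gau S) := by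
  rw [gau_eq]
  have hm : Measurable fun z : ι → ℝ => CFC.sqrt S *ᵥ z := (mulVec_cont _).measurable
  rw [integrable_map_measure (measurable_pi_apply i).aestronglyMeasurable hm.aemeasurable]
  show Integrable (fun z : ι → ℝ => ∑ k, CFC.sqrt S i k * z k) (gst ι)
  exact integrable_finsetSum _ fun k _ => (gst_int k).const_mul _

theorem gau_St {S : Matrix ι ι ℝ} (hS : S.PosSemidef) : Stn (gau S) (fun i j => S i j) 0 := by
  intro g hg c0 c1 h0 h1 i
  obtain ⟨B, hB⟩ : ∃ B, B = CFC.sqrt S := ⟨_, rfl⟩
  have hBB : B * B = S := by rw [hB]; exact CFC.sqrt_mul_sqrt_self _ hS.nonneg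
  have hBt : ∀ a b, B a b = B b a := by
    intro a b
    have h2 : IsSelfAdjoint B := by rw [hB]; exact (CFC.sqrt_nonneg S).isSelfAdjoint
    have h3 : star B = B := h2
    have h4 := congrFun (congrFun h3 a) b
    rw [Matrix.star_apply] at h4
    simpa using h4.symm
  have hm : Measurable fun z : ι → ℝ => B *ᵥ z := (mulVec_cont _).measurable
  have hG : ContDiff ℝ ∞ fun z : ι → ℝ => g (B *ᵥ z) :=
    hg.comp (LinearMap.toContinuousLinearMap B.mulVecLin).contDiff
  obtain ⟨b1, hb1⟩ : ∃ b1 : ℝ, b1 = ∑ a, ∑ b, |B a b| * c1 := ⟨_, rfl⟩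
  have hc1 : ∀ j : ι, 0 ≤ c1 := fun j => (abs_nonneg _).trans (h1 j 0)
  have hGb : ∀ k z, |pd (fun z => g (B *ᵥ z)) k z| ≤ b1 := by
    intro k z
    rw [pd_lin hg]
    refine (Finset.abs_sum_le_sum_abs _ _).trans ?_
    rw [hb1]
    refine Finset.sum_le_sum fun j _ => ?_
    rw [abs_mul]
    refine le_trans (mul_le_mul_of_nonneg_left (h1 j _) (abs_nonneg _)) ?_
    exact Finset.single_le_sum (f := fun b => |B j b| * c1)
      (fun b _ => mul_nonneg (abs_nonneg _) (hc1 j)) (Finset.mem_univ k)
  have ipd : ∀ j, Integrable (fun z => pd g j (B *ᵥ z)) (gst ι) := fun j =>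
    Integrable.of_bound ((pd_smooth hg j).continuous.comp (mulVec_cont B)).aestronglyMeasurable c1
      (Filter.Eventually.of_forall fun z => h1 _ _)
  have ixg : ∀ k, Integrable (fun z : ι → ℝ => z k * g (B *ᵥ z)) (gst ι) := fun k => by
    have := (gst_int k).bdd_mul (c := c0) (f := fun z => g (B *ᵥ z)) hG.continuous.aestronglyMeasurable
      (Filter.Eventually.of_forall fun z => h0 _)
    refine this.congr (Filter.Eventually.of_forall fun x => ?_)
    simp only; ring
  have e1 : ∫ x, x i * g x ∂(gau S) = ∑ j, S i j * ∫ x, pd g j x ∂(gau S) := by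
    have hcx : Continuous fun x : ι → ℝ => x i * g x := (continuous_apply i).mul hg.continuous
    rw [gau_eq, ← hB, integral_map hm.aemeasurable hcx.aestronglyMeasurable]
    have e2 : ∀ j, ∫ x, pd g j x ∂(Measure.map (fun z : ι → ℝ => B *ᵥ z) (gst ι)) =
        ∫ z, pd g j (B *ᵥ z) ∂(gst ι) := fun j =>
      integral_map hm.aemeasurable (pd_smooth hg j).continuous.aestronglyMeasurable
    simp only [e2]
    have e3 : ∀ z : ι → ℝ, (B *ᵥ z) i * g (B *ᵥ z) = ∑ k, B i k * (z k * g (B *ᵥ z)) := by
      intro z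
      have : (B *ᵥ z) i = ∑ k, B i k * z k := rfl
      rw [this, Finset.sum_mul]
      exact Finset.sum_congr rfl fun k _ => by ring
    simp only [e3]
    rw [integral_finsetSum _ fun k _ => (ixg k).const_mul _]
    have e4 : ∀ k, ∫ z, B i k * (z k * g (B *ᵥ z)) ∂(gst ι) =
        ∑ j, B i k * (B j k * ∫ z, pd g j (B *ᵥ z) ∂(gst ι)) := by
      intro k
      rw [integral_const_mul, ibpn hG (fun z => h0 _) hGb k]
      simp only [pd_lin hg]
      rw [integral_finsetSum _ fun j _ => (ipd j).const_mul _, Finset.mul_sum]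
      refine Finset.sum_congr rfl fun j _ => ?_
      rw [integral_const_mul]
    rw [Finset.sum_congr rfl fun k _ => e4 k, Finset.sum_comm]
    refine Finset.sum_congr rfl fun j _ => ?_
    have e5 : S i j = ∑ k, B i k * B j k := by
      rw [← hBB, Matrix.mul_apply]
      exact Finset.sum_congr rfl fun k _ => by rw [hBt k j]
    rw [e5, Finset.sum_mul]
    exact Finset.sum_congr rfl fun k _ => by ring
  rw [e1, sub_self, abs_zero, zero_mul]

end

end Pool.Agent.H991.TV
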