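import Mathlib
import Pool.Agent.H991.TV.BvU

/-!
# The lasso of a link of the box
-/

open MeasureTheory Matrix
open scoped Matrix.Norms.Frobenius ContDiff
open Pool.Agent.H906R3.YM Pool.Agent.W793.YM Pool.Agent.TH369.WL

namespace Pool.Agent.H991.TV

set_option linter.unusedSectionVars false
set_option linter.unusedVariables false

noncomputable section

variable {d : ℕ} {G : Type*} [Group G]

/-- the reversed path -/
def bk (p : List (Fin d × Bool)) : List (Fin d × Bool) := (p.reverse).map fun s => (s.1, !s.2)

lemma bk_cons (s : Fin d × Bool) (p : List (Fin d × Bool)) : bk (s :: p) = bk p ++ [(s.1, !s.2)] := by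
  unfold bk
  rw [List.reverse_cons, List.map_append]
  rfl

lemma bk_len (p : List (Fin d × Bool)) : (bk p).length = p.length := by
  unfold bk; simp

lemma dest_bk (p : List (Fin d × Bool)) (x : Fin d → ℤ) : dest (dest x p) (bk p) = x := by
  induction p generalizing x with
  | nil => rfl
  | cons s p ih =>
    obtain ⟨i, s⟩ := s
    rw [bk_cons, dest_append]
    cases s with
    | true =>
      simp only [dest]
      rw [ih]
      simp [dest]
    | false =>
      simp only [dest]
      rw [ih]
      simp [dest]

lemma hol_bk (V : Ez d → G) (p : List (Fin d × Bool)) (x : Fin d → ℤ) :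
    hol V (dest x p) (bk p) = (hol V x p)⁻¹ := by
  induction p generalizing x with
  | nil => simp [hol, bk]
  | cons s p ih =>
    obtain ⟨i, s⟩ := s
    rw [bk_cons, hol_append]
    cases s with
    | true =>
      simp only [dest]
      rw [ih, dest_bk]
      simp [hol]
    | false =>
      simp only [dest]
      rw [ih, dest_bk]
      simp [hol]

/-- the lasso of a link -/
def pth (v : Pt d) (k : Fin d) : List (Fin d × Bool) :=
  cmb (sz v) v ++ ((k, true) :: bk (cmb (sz (v + es k)) (v + es k)))

lemma sz_add (v : Pt d) (k : Fin d) : sz (v + es k) = sz v + 1 := by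
  have h : 0 < (v + es k) k := by simp [es]
  have := sz_sub h
  rwa [add_tsub_cancel_right] at this

lemma pth_len (v : Pt d) (k : Fin d) : (pth v k).length ≤ 2 * sz v + 2 := by
  unfold pth
  rw [List.length_append, List.length_cons, bk_len]
  have h1 := cmb_len (sz v) v
  have h2 := cmb_len (sz (v + es k)) (v + es k)
  rw [sz_add] at h2
  rw [sz_add]
  omega

lemma pth_dest (z : Fin d → ℤ) (v : Pt d) (k : Fin d) : dest z (pth v k) = z := by
  unfold pth
  rw [dest_append, cmb_dest z _ v rfl]
  simp only [dest]
  rw [add_assoc, ← nz_add, ← cmb_dest z _ (v + es k) rfl, dest_bk]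

lemma pth_hol {l : ℕ} (U : Ed d l → G) (z : Fin d → ℤ) (v : Pt d) (k : Fin d) :
    hol (lf U) z (pth v k) = hh z v k U := by
  unfold pth
  rw [hol_append, cmb_dest z _ v rfl]
  simp only [hol]
  rw [add_assoc, ← nz_add, ← cmb_dest z _ (v + es k) rfl, hol_bk, cmb_fr, cmb_fr]
  unfold hh tl
  rw [← mul_assoc]
  rfl

lemma hol_gt {l : ℕ} (γ : (Fin d → ZMod l) → G) (U : Ed d l → G) (p : List (Fin d × Bool))
    (x : Fin d → ℤ) : hol (lf (gt γ U)) x p =
      γ (zt l x) * hol (lf U) x p * (γ (zt l (dest x p)))⁻¹ := by
  induction p generalizing x with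
  | nil => simp [hol, dest]
  | cons s p ih =>
    obtain ⟨i, s⟩ := s
    cases s with
    | true =>
      simp only [hol, dest]
      rw [ih]
      have h1 : lf (gt γ U) (x, i) = γ (zt l x) * lf U (x, i) * (γ (zt l (x + Pi.single i 1)))⁻¹ := by
        rw [zt_add]; rfl
      rw [h1]
      group
    | false =>
      simp only [hol, dest]
      rw [ih]
      have h1 : lf (gt γ U) (x - Pi.single i 1, i) = γ (zt l (x - Pi.single i 1)) *
          lf U (x - Pi.single i 1, i) * (γ (zt l x))⁻¹ := by
        have h2 : zt l x = zt l (x - Pi.single i 1) + eT i := (zt_sub x i).symm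
        rw [h2]; rfl
      rw [h1]
      group

end

end Pool.Agent.H991.TV
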