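import Mathlib
import Pool.Agent.H991.TV.Path
import Pool.Agent.H991.TV.Gau
import Pool.Graph.R_seed8.TH369.WL.Main

/-!
# The covariance of the limit
-/

open MeasureTheory Matrix Filter
open scoped Matrix.Norms.Frobenius ContDiff Topology
open Pool.Agent.H906R3.YM Pool.Agent.W793.YM
open Pool.Agent.TH369.WL (fF lks QK fF_asy cov_fF cw cw_psd oo lks_mem lks_trans QK_trans sg N0 N0_fF
  fcs_len fF_SW QK_sub QK_le lks_len N0_nonneg)
open Pool.Agent.W793.SCH (S_B1 S_TR green gK)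

namespace Pool.Agent.H991.TV

set_option linter.unusedSectionVars false
set_option linter.unusedVariables false

noncomputable section

variable {d : ℕ} {κ : Type*} [Fintype κ] [DecidableEq κ]

/-- the covariance matrix of the links of the box -/
def sg0 (g : (Fin d → ℤ) → ℝ) (n : ℕ) (w : κ → Pt d) (k : κ → Fin d) :
    Matrix (κ × Fin n) (κ × Fin n) ℝ := fun q q' =>
  if q.2 = q'.2 then QK g (lks 0 (pth (w q.1) (k q.1))) (lks 0 (pth (w q'.1) (k q'.1))) else 0

/-- the corner of the box -/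
def zz (d K R : ℕ) : Fin d → ℤ := fun _ => (K : ℤ) + 2 + (2 * d * R + 2 : ℕ)

lemma sg0_z (g : (Fin d → ℤ) → ℝ) (n : ℕ) (w : κ → Pt d) (k : κ → Fin d) (z : Fin d → ℤ)
    (q q' : κ × Fin n) : sg0 g n w k q q' = if q.2 = q'.2 then
      QK g (lks z (pth (w q.1) (k q.1))) (lks z (pth (w q'.1) (k q'.1))) else 0 := by
  unfold sg0
  have h := QK_trans g z 0 0 (pth (w q.1) (k q.1)) (pth (w q'.1) (k q'.1))
  rw [zero_add] at h
  rw [h]

section geo

variable {R K : ℕ} {w : κ → Pt d} {k : κ → Fin d}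

lemma len_pth (hw : ∀ e i, w e i ≤ R) (e : κ) : (pth (w e) (k e)).length ≤ 2 * d * R + 2 := by
  have h1 := pth_len (w e) (k e)
  have h2 := sz_le (hw e)
  calc _ ≤ 2 * sz (w e) + 2 := h1
    _ ≤ 2 * (d * R) + 2 := by omega
    _ = _ := by ring

lemma geo1 (hw : ∀ e i, w e i ≤ R) (e : κ) (i : Fin d) :
    zz d K R i + (pth (w e) (k e)).length ≤ oo d K i + (4 * d * R + 4 : ℕ) := by
  have h1 : ((pth (w e) (k e)).length : ℤ) ≤ (2 * d * R + 2 : ℕ) := by exact_mod_cast len_pth hw e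
  unfold zz oo
  have h2 : ((4 * d * R + 4 : ℕ) : ℤ) = 2 * (2 * d * R + 2 : ℕ) := by push_cast; ring
  omega

lemma geo2 (hw : ∀ e i, w e i ≤ R) (e : κ) (i : Fin d) :
    oo d K i + (pth (w e) (k e)).length ≤ zz d K R i := by
  have h1 : ((pth (w e) (k e)).length : ℤ) ≤ (2 * d * R + 2 : ℕ) := by exact_mod_cast len_pth hw e
  unfold zz oo
  omega

/-- the covariance on the torus -/
lemma cov_pth (hB : S_B1) (hd : 3 ≤ d) (hw : ∀ e i, w e i ≤ R) (hRK : d * (4 * d * R + 4) ≤ K)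
    {l : ℕ} [NeZero l] (hl : 3 * K + 5 < l) (e e' : κ) :
    ipF (TL K (fF l (oo d K) (zz d K R) (pth (w e) (k e))))
      (TL K (fF l (oo d K) (zz d K R) (pth (w e') (k e')))) =
      QK (gK d K) (lks (zz d K R) (pth (w e) (k e))) (lks (zz d K R) (pth (w e') (k e'))) := by
  refine cov_fF hB (by omega) K _ _ _ _ _ (geo2 hw e) (pth_dest _ _ _) (geo2 hw e')
    (pth_dest _ _ _) fun q hq q' hq' i => ?_
  have h1 := lks_mem _ _ q hq i
  have h2 := lks_mem _ _ q' hq' i
  have h3 : ((pth (w e) (k e)).length : ℤ) ≤ (2 * d * R + 2 : ℕ) := by exact_mod_cast len_pth hw e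
  have h4 : ((pth (w e') (k e')).length : ℤ) ≤ (2 * d * R + 2 : ℕ) := by
    exact_mod_cast len_pth hw e'
  have h5 : 4 * d * R + 4 ≤ K := le_trans (Nat.le_mul_of_pos_left _ (by omega)) hRK
  have h6 : ((4 * d * R + 4 : ℕ) : ℤ) ≤ K := by exact_mod_cast h5
  have h7 : ((4 * d * R + 4 : ℕ) : ℤ) = 2 * (2 * d * R + 2 : ℕ) := by push_cast; ring
  have h8 : |q.1.1 i - q'.1.1 i| ≤ K := by
    rw [abs_le]; constructor <;> omega
  have h9 : (3 * (K : ℤ) + 5) < l := by exact_mod_cast hl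
  omega

lemma psdK (hB : S_B1) (hd : 3 ≤ d) (hw : ∀ e i, w e i ≤ R) (hRK : d * (4 * d * R + 4) ≤ K)
    {n : ℕ} (s : κ × Fin n → ℝ) :
    0 ≤ ∑ q, ∑ q', s q * s q' * sg0 (gK d K) n w k q q' := by
  have : NeZero (3 * K + 6) := ⟨by omega⟩
  have h := cw_psd (l := 3 * K + 6) K (fun q : κ × Fin n => fF (3 * K + 6) (oo d K) (zz d K R)
    (pth (w q.1) (k q.1))) (fun q => q.2) s
  refine h.trans (le_of_eq ?_)
  refine Finset.sum_congr rfl fun q _ => Finset.sum_congr rfl fun q' _ => ?_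
  congr 1
  unfold cw
  rw [sg0_z _ _ _ _ (zz d K R)]
  by_cases hq : q.2 = q'.2
  · rw [if_pos hq, if_pos hq, cov_pth hB hd hw hRK (by omega)]
  · rw [if_neg hq, if_neg hq]

lemma sg0_diff {CT : ℝ} (hCT : 0 ≤ CT) {g g' : (Fin d → ℤ) → ℝ} (hg : ∀ z, |g z - g' z| ≤ CT)
    (hw : ∀ e i, w e i ≤ R) {n : ℕ} (q q' : κ × Fin n) :
    |sg0 g n w k q q' - sg0 g' n w k q q'| ≤ (2 * d * R + 2) ^ 2 * CT := by
  unfold sg0
  by_cases hq : q.2 = q'.2
  · rw [if_pos hq, if_pos hq, QK_sub]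
    refine (QK_le hCT hg _ _).trans ?_
    rw [lks_len, lks_len, pow_two, mul_assoc]
    have h1 : ((pth (w q.1) (k q.1)).length : ℝ) ≤ 2 * d * R + 2 := by
      exact_mod_cast len_pth hw q.1
    have h2 : ((pth (w q'.1) (k q'.1)).length : ℝ) ≤ 2 * d * R + 2 := by
      exact_mod_cast len_pth hw q'.1
    gcongr
  · rw [if_neg hq, if_neg hq, sub_self, abs_zero]
    positivity

lemma sg0_symm (hd : 3 ≤ d) (hB : S_B1) (hT : S_TR) (hw : ∀ e i, w e i ≤ R) {n : ℕ}
    (q q' : κ × Fin n) : sg0 (green d) n w k q q' = sg0 (green d) n w k q' q := by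
  obtain ⟨CT, hCT, _, _, hgK⟩ := hT d hd
  have hlim : ∀ q q' : κ × Fin n, Tendsto (fun K : ℕ => sg0 (gK d K) n w k q q') atTop
      (𝓝 (sg0 (green d) n w k q q')) := by
    intro q q'
    rw [tendsto_iff_norm_sub_tendsto_zero]
    have e1 : Tendsto (fun K : ℕ => ((2 * d * R + 2 : ℝ) ^ 2 * (CT / Real.sqrt K))) atTop (𝓝 0) := by
      have e2 : Tendsto (fun K : ℕ => Real.sqrt K) atTop atTop :=
        Real.tendsto_sqrt_atTop.comp tendsto_natCast_atTop_atTop
      simpa using (e2.const_div_atTop CT).const_mul ((2 * d * R + 2 : ℝ) ^ 2)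
    refine squeeze_zero' (Filter.Eventually.of_forall fun K => norm_nonneg _) ?_ e1
    filter_upwards [eventually_ge_atTop 1] with K hK
    rw [Real.norm_eq_abs]
    exact sg0_diff (by positivity) (fun z => hgK K z hK) hw q q'
  have h1 : ∀ᶠ K : ℕ in atTop, sg0 (gK d K) n w k q q' = sg0 (gK d K) n w k q' q := by
    filter_upwards [eventually_ge_atTop (d * (4 * d * R + 4))] with K hK
    have : NeZero (3 * K + 6) := ⟨by omega⟩
    rw [sg0_z _ _ _ _ (zz d K R), sg0_z _ _ _ _ (zz d K R)]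
    by_cases hq : q.2 = q'.2
    · rw [if_pos hq, if_pos hq.symm, ← cov_pth hB hd hw hK (l := 3 * K + 6) (by omega),
        ← cov_pth hB hd hw hK (l := 3 * K + 6) (by omega), ipF_comm]
    · rw [if_neg hq, if_neg (fun h => hq h.symm)]
  exact tendsto_nhds_unique (hlim q q') ((hlim q' q).congr' (h1.mono fun K h => h.symm))

lemma sg0_psd (hd : 3 ≤ d) (hB : S_B1) (hT : S_TR) (hw : ∀ e i, w e i ≤ R) {n : ℕ} :
    (sg0 (green d) n w k).PosSemidef := by
  obtain ⟨CT, hCT, _, _, hgK⟩ := hT d hd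
  refine PosSemidef.of_dotProduct_mulVec_nonneg ?_ fun s => ?_
  · ext q q'
    rw [conjTranspose_apply]
    simp only [star_trivial]
    exact sg0_symm hd hB hT hw q' q
  · have hlim : Tendsto (fun K : ℕ => ∑ q, ∑ q', s q * s q' * sg0 (gK d K) n w k q q') atTop
        (𝓝 (∑ q, ∑ q', s q * s q' * sg0 (green d) n w k q q')) := by
      refine tendsto_finsetSum _ fun q _ => tendsto_finsetSum _ fun q' _ => Tendsto.const_mul _ ?_
      rw [tendsto_iff_norm_sub_tendsto_zero]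
      have e1 : Tendsto (fun K : ℕ => ((2 * d * R + 2 : ℝ) ^ 2 * (CT / Real.sqrt K))) atTop
          (𝓝 0) := by
        have e2 : Tendsto (fun K : ℕ => Real.sqrt K) atTop atTop :=
          Real.tendsto_sqrt_atTop.comp tendsto_natCast_atTop_atTop
        simpa using (e2.const_div_atTop CT).const_mul ((2 * d * R + 2 : ℝ) ^ 2)
      refine squeeze_zero' (Filter.Eventually.of_forall fun K => norm_nonneg _) ?_ e1
      filter_upwards [eventually_ge_atTop 1] with K hK
      rw [Real.norm_eq_abs]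
      exact sg0_diff (by positivity) (fun z => hgK K z hK) hw q q'
    have h0 : 0 ≤ ∑ q, ∑ q', s q * s q' * sg0 (green d) n w k q q' :=
      ge_of_tendsto hlim (by
        filter_upwards [eventually_ge_atTop (d * (4 * d * R + 4))] with K hK
        exact psdK hB hd hw hK s)
    refine h0.trans (le_of_eq ?_)
    simp only [dotProduct, mulVec, star_trivial, Finset.mul_sum]
    exact Finset.sum_congr rfl fun q _ => Finset.sum_congr rfl fun q' _ => by ring

end geo

end

end Pool.Agent.H991.TV
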