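import Mathlib
import Pool.Agent.H991.TV.Sig

/-!
# The local law on the torus: weak closeness and stability
-/

open MeasureTheory Matrix Filter
open scoped Matrix.Norms.Frobenius ContDiff Topology
open Pool.Agent.H906R3.YM Pool.Agent.W793.YM
open Pool.Agent.TH369.WL (fF lks QK fF_asy cov_fF cw cw_psd oo lks_mem lks_trans QK_trans sg N0 N0_fF
  fcs_len fF_SW QK_sub QK_le lks_len N0_nonneg uo uo_plq sL sL_nonneg sL_cont ct_zt ipF_zero_left
  asy_zero fcs)
open Pool.Agent.W793.SCH (S_B1 S_TR green gK)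
open Pool.Agent.W793.SCHL (PT PT_prob EX_int)

namespace Pool.Agent.H991.TV

set_option linter.unusedSectionVars false
set_option linter.unusedVariables false

noncomputable section

section forms

variable {d l n : ℕ} [NeZero l] {κ : Type*} [Fintype κ] [DecidableEq κ]

/-- the forms of the links of the box -/
def ff (l : ℕ) [NeZero l] (o z : Fin d → ℤ) (w : κ → Pt d) (k : κ → Fin d) (q : κ × Fin n) :
    Fin n → Fm d l := fun α => if q.2 = α then fF l o z (pth (w q.1) (k q.1)) else 0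

variable (o z : Fin d → ℤ) (w : κ → Pt d) (k : κ → Fin d) (q : κ × Fin n)

lemma ff_asy (α : Fin n) : Asy (ff l o z w k q α) := by
  unfold ff
  split_ifs
  · exact fF_asy _ _ _
  · exact asy_zero

lemma N1_ff : N1 (ff l o z w k q) = N0 (fF l o z (pth (w q.1) (k q.1))) := by
  have h1 : N1 (ff l o z w k q) = ∑ α, N0 (ff l o z w k q α) := rfl
  rw [h1, Finset.sum_eq_single q.2]
  · unfold ff; rw [if_pos rfl]
  · intro α _ hα
    unfold ff
    rw [if_neg (fun h => hα h.symm)]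
    unfold N0; simp
  · intro h; exact absurd (Finset.mem_univ _) h

lemma cov_ff (K : ℕ) (q' : κ × Fin n) : ∑ a, ipF (d1 (AK K (ff l o z w k q) a))
    (d1 (AK K (ff l o z w k q') a)) = if q.2 = q'.2 then
      ipF (TL K (fF l o z (pth (w q.1) (k q.1)))) (TL K (fF l o z (pth (w q'.1) (k q'.1)))) else 0 := by
  simp only [d1_AK]
  rw [Finset.sum_eq_single q.2]
  · unfold ff
    rw [if_pos rfl]
    by_cases h : q.2 = q'.2
    · rw [if_pos h, if_pos h.symm]
    · rw [if_neg h, if_neg (fun hc => h hc.symm), map_zero, ipF_comm, ipF_zero_left]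
  · intro α _ hα
    unfold ff
    rw [if_neg (fun h => hα h.symm), map_zero, ipF_zero_left]
  · intro h; exact absurd (Finset.mem_univ _) h

end forms

variable {G : Type*} [Group G] [TopologicalSpace G] [IsTopologicalGroup G] [CompactSpace G]
  [SecondCountableTopology G] [MeasurableSpace G] [BorelSpace G] (μ : Measure G)
  [IsProbabilityMeasure μ] [μ.IsMulLeftInvariant] [μ.IsMulRightInvariant] [μ.IsInvInvariant]
  {N n : ℕ} {L : LD G N n} {d l : ℕ} [NeZero l]

lemma Fs_ff {κ : Type*} [Fintype κ] [DecidableEq κ] (o z : Fin d → ℤ) (w : κ → Pt d)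
    (k : κ → Fin d) (q : κ × Fin n) (U : Ed d l → G) :
    Fs L (ff l o z w k q) U = ipF (fF l o z (pth (w q.1) (k q.1))) (Fz L U q.2) := by
  unfold Fs
  rw [Finset.sum_eq_single q.2]
  · unfold ff; rw [if_pos rfl]
  · intro α _ hα
    unfold ff
    rw [if_neg (fun h => hα h.symm), ipF_zero_left]
  · intro h; exact absurd (Finset.mem_univ _) h

lemma dv_hh {R : ℕ} (U : Ed d l → G) (z : Fin d → ℤ) {v : Pt d} (k : Fin d)
    (hv : ∀ i, v i ≤ R) : dv L (hh z v k U) ≤ (d * R : ℕ) * sL L z R U := by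
  unfold hh
  have h1 := dv_tl (L := L) (uo (lf U) z) (sL_nonneg (L := L) z R U) v k (fun v' j hv' hj _ => by
    rw [uo_plq]
    have h4 := le_sB (L := L) (M := R + 1) (tr (zt l z) U) (v := v')
      (fun i => Nat.lt_succ_of_le ((hv' i).trans (hv i))) hj
    rw [plqT_tr, ct_zt] at h4
    exact h4)
  refine h1.trans (mul_le_mul_of_nonneg_right ?_ (sL_nonneg _ _ _))
  exact_mod_cast sz_le hv

lemma E_dv (hd : 1 ≤ d) : ∃ C : ℝ, 0 ≤ C ∧ ∀ b : ℝ, 1 ≤ b → ∀ (m : ℕ) [NeZero m], 2 ≤ m →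
    ∀ (R : ℕ), 1 ≤ R → ∀ (z : Fin d → ℤ) (v : Pt d) (k : Fin d), (∀ i, v i ≤ R) →
      EX μ L (b ^ 4) (fun U : Ed d (2 * m) → G => dv L (hh z v k U)) ≤
        C * (R : ℝ) ^ (2 * d + 1) / b := by
  obtain ⟨C, hC, h⟩ := sB_moms μ (L := L) hd
  refine ⟨d * (C * 3 ^ (2 * d)), by positivity, fun b hb m _ hm R hR z v k hv => ?_⟩
  have hb0 : 0 < b := by linarith
  have hR1 : (1 : ℝ) ≤ R := by exact_mod_cast hR
  obtain ⟨-, -, h1⟩ := h b hb m hm (R + 1)
  have h2 : EX μ L (b ^ 4) (fun U : Ed d (2 * m) → G => sL L z R U) ≤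
      C * (3 * R) ^ (2 * d) / b := by
    rw [le_div_iff₀ hb0, mul_comm]
    have e1 : EX μ L (b ^ 4) (fun U : Ed d (2 * m) → G => sL L z R U) =
        EX μ L (b ^ 4) (fun U : Ed d (2 * m) → G => sB L (R + 1) U) :=
      EX_tr μ (zt (2 * m) z) (fun U : Ed d (2 * m) → G => sB L (R + 1) U)
    rw [e1]
    refine h1.trans (mul_le_mul_of_nonneg_left ?_ (by linarith))
    refine pow_le_pow_left₀ (by positivity) ?_ _
    push_cast; linarith
  have h3 : EX μ L (b ^ 4) (fun U : Ed d (2 * m) → G => dv L (hh z v k U)) ≤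
      (d * R : ℕ) * EX μ L (b ^ 4) (fun U : Ed d (2 * m) → G => sL L z R U) := by
    rw [← EX_smul]
    exact EX_mono μ (dv_cont.comp (hh_cont z v k)) (continuous_const.mul (sL_cont z R))
      fun U => dv_hh U z k hv
  refine h3.trans ?_
  calc ((d * R : ℕ) : ℝ) * EX μ L (b ^ 4) (fun U : Ed d (2 * m) → G => sL L z R U) ≤
      (d * R : ℕ) * (C * (3 * R) ^ (2 * d) / b) := mul_le_mul_of_nonneg_left h2 (by positivity)
    _ = _ := by
      push_cast
      rw [mul_pow, pow_succ]; ring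

lemma hh_gt {κ : Type*} (γ : St d l → G) (U : Ed d l → G) (z : Fin d → ℤ) (v : Pt d) (k : Fin d) :
    hh z v k (gt γ U) = γ (zt l z) * hh z v k U * (γ (zt l z))⁻¹ := by
  rw [← pth_hol, hol_gt, pth_dest, pth_hol]

/-- arithmetic -/
lemma arF {d R : ℕ} (hd : 1 ≤ d) (hR : 1 ≤ R) {p : List (Fin d × Bool)}
    (hp : p.length ≤ 2 * d * R + 2) : Fn d (4 * d * R + 4) p ≤ 32 * d ^ 3 * R ^ 2 := by
  unfold Fn
  have h0 : 1 ≤ d * R := Nat.one_le_iff_ne_zero.2 (by positivity)
  have h1 : p.length * (d * (4 * d * R + 4)) ≤ 32 * d ^ 3 * R ^ 2 := by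
    calc p.length * (d * (4 * d * R + 4)) ≤ (2 * d * R + 2) * (d * (4 * d * R + 4)) :=
          Nat.mul_le_mul_right _ hp
      _ = 8 * d * (d * R + 1) * (d * R + 1) := by ring
      _ ≤ 8 * d * (2 * (d * R)) * (2 * (d * R)) := by gcongr <;> omega
      _ = _ := by ring
  exact_mod_cast h1

end

end Pool.Agent.H991.TV
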