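import Mathlib
import Pool.Agent.H991.TV.Core

/-!
# The local law on the torus: weak closeness
-/

open MeasureTheory Matrix Filter
open scoped Matrix.Norms.Frobenius ContDiff Topology
open Pool.Agent.H906R3.YM Pool.Agent.W793.YM
open Pool.Agent.TH369.WL (fF lks QK fF_asy cov_fF cw cw_psd oo lks_mem lks_trans QK_trans sg N0 N0_fF
  fcs_len fF_SW QK_sub QK_le lks_len N0_nonneg uo uo_plq sL sL_nonneg sL_cont ct_zt ipF_zero_left
  asy_zero fcs)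
open Pool.Agent.W793.SCH (S_B1 S_TR green gK)
open Pool.Agent.W793.SCHL (PT PT_prob EX_int)

namespace Pool.Agent.H991.TV

set_option linter.unusedSectionVars false
set_option linter.unusedVariables false

noncomputable section

variable {G : Type*} [Group G] [TopologicalSpace G] [IsTopologicalGroup G] [CompactSpace G]
  [SecondCountableTopology G] [MeasurableSpace G] [BorelSpace G] (μ : Measure G)
  [IsProbabilityMeasure μ] [μ.IsMulLeftInvariant] [μ.IsMulRightInvariant] [μ.IsInvInvariant]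
  {N n : ℕ} {L : LD G N n} {d l : ℕ} [NeZero l]

/-- the coordinates of a link, transported to the origin of the torus -/
def Xp (L : LD G N n) (b : ℝ) (z : Fin d → ℤ) (v : Pt d) (k : Fin d) (a : Fin n)
    (U : Ed d l → G) : ℝ := b ^ 2 * fi L a (Pc U (zt l z) * hh z v k U * (Pc U (zt l z))⁻¹)

lemma Xp_cont (b : ℝ) (z : Fin d → ℤ) (v : Pt d) (k : Fin d) (a : Fin n) :
    Continuous (Xp L b z v k a : (Ed d l → G) → ℝ) :=
  continuous_const.mul ((fi_cont a).comp (((Pc_cont _).mul (hh_cont z v k)).mul (Pc_cont _).inv))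

section

variable {κ : Type*} [Fintype κ] [DecidableEq κ] {w : κ → Pt d} {k : κ → Fin d}

lemma N1_ff_le (hd : 3 ≤ d) {R K : ℕ} (hR : 1 ≤ R) (hw : ∀ e i, w e i ≤ R) (q : κ × Fin n) :
    N1 (ff l (oo d K) (zz d K R) w k q) ≤ 64 * d ^ 3 * R ^ 2 := by
  rw [N1_ff]
  refine (N0_fF _ _ _).trans ?_
  have h1 := fcs_len (oo d K) (4 * d * R + 4) (pth (w q.1) (k q.1)) (zz d K R)
    (geo1 hw q.1) (geo2 hw q.1)
  have h2 := arF (by omega : 1 ≤ d) hR (len_pth (k := k) hw q.1)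
  unfold Fn at h2
  have h3 : ((fcs (oo d K) (zz d K R) (pth (w q.1) (k q.1))).length : ℝ) ≤
      ((pth (w q.1) (k q.1)).length * (d * (4 * d * R + 4)) : ℕ) := by exact_mod_cast h1
  linarith

/-- the link and its linearisation -/
theorem Xp_Fs (hd : 3 ≤ d) : ∃ C : ℝ, 0 ≤ C ∧ ∀ (R K : ℕ), 1 ≤ R → d * (4 * d * R + 4) ≤ K →
    ∀ b : ℝ, (K : ℝ) ^ (2 * d + 4) ≤ b → ∀ (m : ℕ) [NeZero m], 3 * K + 5 < 2 * m →
    ∀ (κ : Type) [Fintype κ] [DecidableEq κ] (w : κ → Pt d) (k : κ → Fin d), (∀ e i, w e i ≤ R) →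
    ∀ q : κ × Fin n, EX μ L (b ^ 4) (fun U : Ed d (2 * m) → G =>
      |Xp L b (zz d K R) (w q.1) (k q.1) q.2 U -
        b ^ 2 * Fs L (ff (2 * m) (oo d K) (zz d K R) w k q) U|) ≤ C * R ^ 4 / K := by
  have hd1 : 1 ≤ d := by omega
  obtain ⟨C, hC, h⟩ := sB_moms μ (L := L) hd1
  refine ⟨9216 * d ^ 6 * (C * 9 ^ (2 * d)), by positivity,
    fun R K hR hRK b hb m _ hKm κ _ _ w k hw q => ?_⟩
  have hR1 : (1 : ℝ) ≤ R := by exact_mod_cast hR
  have hd1' : (1 : ℝ) ≤ d := by exact_mod_cast hd1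
  have hK1 : 1 ≤ K := by
    refine le_trans ?_ hRK
    exact Nat.one_le_iff_ne_zero.2 (by positivity)
  have hK1' : (1 : ℝ) ≤ K := by exact_mod_cast hK1
  have hb1 : 1 ≤ b := le_trans (one_le_pow₀ hK1') hb
  have hb0 : 0 < b := by linarith
  obtain ⟨M, hM⟩ : ∃ M, M = 3 * K + 5 := ⟨_, rfl⟩
  have hMl : M < 2 * m := by omega
  have hM8 : (M : ℝ) ≤ 8 * K := by rw [hM]; push_cast; linarith
  have hM9 : (M : ℝ) + 1 ≤ 9 * K := by rw [hM]; push_cast; linarith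
  obtain ⟨-, e1, -⟩ := h b hb1 m (by omega) M
  have hRKz : ((d * (4 * d * R + 4) : ℕ) : ℤ) ≤ K := by exact_mod_cast hRK
  -- pointwise
  obtain ⟨c, hc⟩ : ∃ c : ℝ, c = 9216 * d ^ 6 * R ^ 4 * K := ⟨_, rfl⟩
  have hpt : ∀ U : Ed d (2 * m) → G, |Xp L b (zz d K R) (w q.1) (k q.1) q.2 U -
        b ^ 2 * Fs L (ff (2 * m) (oo d K) (zz d K R) w k q) U| ≤ b ^ 2 * c * sB L M U ^ 2 := by
    intro U
    have h1 := lin0 (L := L) (M := M) (R := 4 * d * R + 4) (o := oo d K) (z := zz d K R)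
      (p := pth (w q.1) (k q.1)) hd1 U hMl (fun i => by
        unfold oo
        rw [hM]
        push_cast at hRKz ⊢
        constructor <;> linarith) (geo1 hw q.1) (geo2 hw q.1) (pth_dest _ _ _) q.2
    unfold Xp
    rw [Fs_ff, ← mul_sub, abs_mul, abs_of_pos (by positivity : (0:ℝ) < b ^ 2),
      mul_assoc (b ^ 2) c]
    refine mul_le_mul_of_nonneg_left ?_ (sq_nonneg b)
    rw [pth_hol] at h1
    refine h1.trans (mul_le_mul_of_nonneg_right ?_ (sq_nonneg (sB L M U)))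
    have h2 := arF hd1 hR (len_pth (k := k) hw q.1)
    have h3 := Fn_nonneg d (4 * d * R + 4) (pth (w q.1) (k q.1))
    have h4 : ((d * (4 * d * R + 4) : ℕ) : ℝ) ≤ 8 * d ^ 2 * R := by
      push_cast
      have h5 : (1 : ℝ) ≤ d * R := one_le_mul_of_one_le_of_one_le hd1' hR1
      calc (d : ℝ) * (4 * d * R + 4) ≤ d * (4 * (d * R) + 4 * (d * R)) := by
            refine mul_le_mul_of_nonneg_left ?_ (by positivity)
            linarith
        _ = _ := by ring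
    obtain ⟨x, hx⟩ : ∃ x : ℝ, x = Fn d (4 * d * R + 4) (pth (w q.1) (k q.1)) := ⟨_, rfl⟩
    obtain ⟨y, hy⟩ : ∃ y : ℝ, y = ((d * (4 * d * R + 4) : ℕ) : ℝ) := ⟨_, rfl⟩
    rw [← hx] at h2 h3 ⊢
    have hy0 : 0 ≤ y := by rw [hy]; positivity
    rw [← hy] at h4 ⊢
    have s1 : x ^ 2 + 4 * x * (y * (d * M)) ≤ (32 * (d : ℝ) ^ 3 * R ^ 2) ^ 2 +
        4 * (32 * (d : ℝ) ^ 3 * R ^ 2) * ((8 * (d : ℝ) ^ 2 * R) * (d * (8 * K))) := by
      gcongr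
    have s2 : (32 * (d : ℝ) ^ 3 * R ^ 2) ^ 2 +
        4 * (32 * (d : ℝ) ^ 3 * R ^ 2) * ((8 * (d : ℝ) ^ 2 * R) * (d * (8 * K))) =
        1024 * (d : ℝ) ^ 6 * R ^ 4 * 1 + 8192 * ((d : ℝ) ^ 6 * R ^ 3 * 1 * K) := by ring
    have s3 : 1024 * (d : ℝ) ^ 6 * R ^ 4 * 1 + 8192 * ((d : ℝ) ^ 6 * R ^ 3 * 1 * K) ≤
        1024 * (d : ℝ) ^ 6 * R ^ 4 * K + 8192 * ((d : ℝ) ^ 6 * R ^ 3 * R * K) := by gcongr
    have s4 : 1024 * (d : ℝ) ^ 6 * R ^ 4 * K + 8192 * ((d : ℝ) ^ 6 * R ^ 3 * R * K) = c := by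
      rw [hc]; ring
    linarith
  have c1 : Continuous fun U : Ed d (2 * m) → G => |Xp L b (zz d K R) (w q.1) (k q.1) q.2 U -
        b ^ 2 * Fs L (ff (2 * m) (oo d K) (zz d K R) w k q) U| :=
    ((Xp_cont b _ _ _ _).sub (continuous_const.mul (Fs_cont _))).abs
  have h2 := EX_mono μ (L := L) (β := b ^ 4)
    (H := fun U : Ed d (2 * m) → G => b ^ 2 * c * sB L M U ^ 2) c1
    (continuous_const.mul ((sB_cont (L := L) (l := 2 * m) (d := d) M).pow 2)) hpt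
  rw [EX_smul] at h2
  refine h2.trans ?_
  have h3 : b ^ 2 * EX μ L (b ^ 4) (fun U : Ed d (2 * m) → G => sB L M U ^ 2) ≤
      C * (9 * K) ^ (2 * d) / b := by
    rw [le_div_iff₀ hb0]
    refine le_trans (le_of_eq ?_) (e1.trans (mul_le_mul_of_nonneg_left
      (pow_le_pow_left₀ (by positivity) hM9 _) (by linarith)))
    ring
  have hc0 : 0 ≤ c := by rw [hc]; positivity
  calc b ^ 2 * c * EX μ L (b ^ 4) (fun U : Ed d (2 * m) → G => sB L M U ^ 2) =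
      c * (b ^ 2 * EX μ L (b ^ 4) (fun U : Ed d (2 * m) → G => sB L M U ^ 2)) := by ring
    _ ≤ c * (C * (9 * K) ^ (2 * d) / b) := mul_le_mul_of_nonneg_left h3 hc0
    _ = 9216 * d ^ 6 * (C * 9 ^ (2 * d)) * R ^ 4 * ((K : ℝ) ^ (2 * d + 1) / b) := by
        rw [hc, mul_pow, pow_succ]; ring
    _ ≤ 9216 * d ^ 6 * (C * 9 ^ (2 * d)) * R ^ 4 * (1 / K) := by
        refine mul_le_mul_of_nonneg_left ?_ (by positivity)
        rw [div_le_div_iff₀ hb0 (by positivity), one_mul, ← pow_succ]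
        exact (pow_le_pow_right₀ hK1' (by omega)).trans hb
    _ = _ := by ring

/-- the linearisation and its exact part -/
theorem Fs_exact (hd : 3 ≤ d) : ∃ C : ℝ, 0 ≤ C ∧ ∀ (R K : ℕ), 1 ≤ R → d * (4 * d * R + 4) ≤ K →
    ∀ b : ℝ, (K : ℝ) ^ (2 * d + 4) ≤ b → ∀ (m : ℕ) [NeZero m], 3 * K + 5 < 2 * m →
    ∀ (κ : Type) [Fintype κ] [DecidableEq κ] (w : κ → Pt d) (k : κ → Fin d), (∀ e i, w e i ≤ R) →
    ∀ q : κ × Fin n, EX μ L (b ^ 4) (fun U : Ed d (2 * m) → G =>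
      |b ^ 2 * Fs L (ff (2 * m) (oo d K) (zz d K R) w k q) U -
        b ^ 2 * Fs L (fun a => d1 (AK K (ff (2 * m) (oo d K) (zz d K R) w k q) a)) U|) ≤
          C * R ^ 4 / Real.sqrt (Real.sqrt K) := by
  have hd1 : 1 ≤ d := by omega
  obtain ⟨C, hC, h⟩ := near_exact μ (L := L) hd
  refine ⟨C * (64 * d ^ 3 + (1 + 64 * d ^ 3) ^ 2), by positivity,
    fun R K hR hRK b hb m _ hKm κ _ _ w k hw q => ?_⟩
  have hR1 : (1 : ℝ) ≤ R := by exact_mod_cast hR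
  have hd1' : (1 : ℝ) ≤ d := by exact_mod_cast hd1
  have hK1 : 1 ≤ K := by
    refine le_trans ?_ hRK
    exact Nat.one_le_iff_ne_zero.2 (by positivity)
  have hK1' : (1 : ℝ) ≤ K := by exact_mod_cast hK1
  have hb1 : 1 ≤ b := le_trans (one_le_pow₀ hK1') hb
  have hb0 : 0 < b := by linarith
  have hRK2 : 4 * d * R + 4 < K := by
    have h1 : 3 * (4 * d * R + 4) ≤ d * (4 * d * R + 4) := Nat.mul_le_mul_right _ hd
    omega
  have hs1 : (1 : ℝ) ≤ Real.sqrt K := Real.one_le_sqrt.2 hK1'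
  have hτ1 : (1 : ℝ) ≤ Real.sqrt (Real.sqrt K) := Real.one_le_sqrt.2 hs1
  obtain ⟨τ, hτ⟩ : ∃ τ, τ = Real.sqrt (Real.sqrt K) := ⟨_, rfl⟩
  rw [← hτ] at hτ1 ⊢
  have hτ0 : 0 < τ := by linarith
  have hτK : τ ≤ K := by
    have e1 : τ ^ 2 = Real.sqrt K := by rw [hτ]; exact Real.sq_sqrt (Real.sqrt_nonneg _)
    have e2 : Real.sqrt K ^ 2 = K := Real.sq_sqrt (by positivity)
    have e3 : (K : ℝ) = τ ^ 4 := by rw [← e2, ← e1]; ring
    rw [e3]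
    calc τ = τ ^ 1 := (pow_one _).symm
      _ ≤ τ ^ 4 := pow_le_pow_right₀ hτ1 (by norm_num)
  have hτd : τ ≤ Real.sqrt (Real.sqrt K ^ (d - 2)) := by
    rw [hτ]
    refine Real.sqrt_le_sqrt ?_
    calc Real.sqrt K = Real.sqrt K ^ 1 := (pow_one _).symm
      _ ≤ Real.sqrt K ^ (d - 2) := pow_le_pow_right₀ hs1 (by omega)
  have h1 := h b hb1 m K hK1 hKm (ff (2 * m) (oo d K) (zz d K R) w k q)
    (fun a => ff_asy _ _ _ _ _ _) (fun a j k' => by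
      unfold ff
      split_ifs
      · exact fF_SW hRK2 (by omega) (geo1 hw q.1) j k'
      · intro x hx; exact absurd rfl hx)
  have hN := N1_ff_le (l := 2 * m) (k := k) (K := K) hd hR hw q
  have hN0 := N1_nonneg (ff (2 * m) (oo d K) (zz d K R) w k q)
  obtain ⟨F, hF⟩ : ∃ F, F = N1 (ff (2 * m) (oo d K) (zz d K R) w k q) := ⟨_, rfl⟩
  rw [← hF] at h1 hN hN0
  refine h1.trans ?_
  have hR2 : (R : ℝ) ^ 2 ≤ R ^ 4 := pow_le_pow_right₀ hR1 (by norm_num)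
  have hR21 : (1 : ℝ) ≤ R ^ 2 := one_le_pow₀ hR1
  have k1 : F / Real.sqrt (Real.sqrt K ^ (d - 2)) ≤ 64 * d ^ 3 * R ^ 4 / τ := by
    refine div_le_div₀ (by positivity) (hN.trans ?_) hτ0 hτd
    exact mul_le_mul_of_nonneg_left hR2 (by positivity)
  have k2 : (K : ℝ) ^ (2 * d + 3) * (1 + F) ^ 2 / b ≤ (1 + 64 * d ^ 3) ^ 2 * R ^ 4 / τ := by
    have k3 : 1 + F ≤ (1 + 64 * d ^ 3) * R ^ 2 := by
      have : (1 + 64 * (d : ℝ) ^ 3) * R ^ 2 = R ^ 2 + 64 * d ^ 3 * R ^ 2 := by ring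
      rw [this]; linarith
    have k4 : (1 + F) ^ 2 ≤ (1 + 64 * d ^ 3) ^ 2 * R ^ 4 := by
      calc (1 + F) ^ 2 ≤ ((1 + 64 * d ^ 3) * R ^ 2) ^ 2 := pow_le_pow_left₀ (by linarith) k3 2
        _ = _ := by ring
    rw [div_le_div_iff₀ hb0 hτ0]
    calc (K : ℝ) ^ (2 * d + 3) * (1 + F) ^ 2 * τ ≤
        (K : ℝ) ^ (2 * d + 3) * ((1 + 64 * d ^ 3) ^ 2 * R ^ 4) * K := by gcongr
      _ = (1 + 64 * d ^ 3) ^ 2 * R ^ 4 * (K : ℝ) ^ (2 * d + 4) := by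
          rw [pow_succ (K : ℝ) (2 * d + 3)]; ring
      _ ≤ (1 + 64 * d ^ 3) ^ 2 * R ^ 4 * b := mul_le_mul_of_nonneg_left hb (by positivity)
  calc C * (F / Real.sqrt (Real.sqrt K ^ (d - 2)) + (K : ℝ) ^ (2 * d + 3) * (1 + F) ^ 2 / b) ≤
      C * (64 * d ^ 3 * R ^ 4 / τ + (1 + 64 * d ^ 3) ^ 2 * R ^ 4 / τ) :=
        mul_le_mul_of_nonneg_left (add_le_add k1 k2) hC.le
    _ = _ := by ring

end

end

end Pool.Agent.H991.TV
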