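import Mathlib
import Pool.Agent.H991.TV.Core2

/-!
# The local law on the torus
-/

open MeasureTheory Matrix Filter
open scoped Matrix.Norms.Frobenius ContDiff Topology
open Pool.Agent.H906R3.YM Pool.Agent.W793.YM
open Pool.Agent.TH369.WL (fF lks QK fF_asy cov_fF cw cw_psd oo lks_mem lks_trans QK_trans sg N0 N0_fF
  fcs_len fF_SW QK_sub QK_le lks_len N0_nonneg uo uo_plq sL sL_nonneg sL_cont ct_zt ipF_zero_left
  asy_zero fcs)
open Pool.Agent.W793.SCH (S_B1 S_TR green gK)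
open Pool.Agent.W793.SCHL (PT PT_prob EX_int)

namespace Pool.Agent.H991.TV

set_option linter.unusedSectionVars false
set_option linter.unusedVariables false

noncomputable section

variable {G : Type*} [Group G] [TopologicalSpace G] [IsTopologicalGroup G] [CompactSpace G]
  [SecondCountableTopology G] [MeasurableSpace G] [BorelSpace G] (μ : Measure G)
  [IsProbabilityMeasure μ] [μ.IsMulLeftInvariant] [μ.IsMulRightInvariant] [μ.IsInvInvariant]
  {N n : ℕ} {L : LD G N n} {d l : ℕ} [NeZero l]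

/-- the exact parts -/
def Ye (L : LD G N n) (b : ℝ) {κ : Type*} [Fintype κ] [DecidableEq κ] (K R : ℕ) (w : κ → Pt d)
    (k : κ → Fin d) (U : Ed d l → G) : κ × Fin n → ℝ := fun q =>
  b ^ 2 * Fs L (fun a => d1 (AK K (ff l (oo d K) (zz d K R) w k q) a)) U

lemma Ye_cont (b : ℝ) {κ : Type*} [Fintype κ] [DecidableEq κ] (K R : ℕ) (w : κ → Pt d)
    (k : κ → Fin d) : Continuous (Ye L b K R w k : (Ed d l → G) → κ × Fin n → ℝ) :=
  continuous_pi fun q => continuous_const.mul (Fs_cont _)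

lemma cont_bdd_int {F : (Ed d l → G) → ℝ} (hF : Continuous F) (β : ℝ) :
    Integrable F (PT μ L β : Measure (Ed d l → G)) := by
  have := PT_prob μ (L := L) (d := d) (l := l) β
  exact hF.integrable_of_hasCompactSupport (HasCompactSupport.of_compactSpace _)

/-- integration by parts for the exact parts -/
theorem Ye_St (hd : 3 ≤ d) (hB : S_B1) (hT : S_TR) : ∃ C : ℝ, 0 ≤ C ∧ ∀ (R K : ℕ), 1 ≤ R →
    d * (4 * d * R + 4) ≤ K → ∀ b : ℝ, (K : ℝ) ^ (2 * d + 4) ≤ b → ∀ (m : ℕ) [NeZero m],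
    3 * K + 5 < 2 * m → ∀ (κ : Type) [Fintype κ] [DecidableEq κ] (w : κ → Pt d) (k : κ → Fin d),
    (∀ e i, w e i ≤ R) →
      Stn ((PT μ L (b ^ 4) : Measure (Ed d (2 * m) → G)).map (Ye L b K R w k))
        (fun i j => sg0 (green d) n w k i j)
        (C * (Fintype.card (κ × Fin n) + 1) * R ^ 4 / Real.sqrt K) := by
  have hd1 : 1 ≤ d := by omega
  obtain ⟨C, hC, h⟩ := ibp_exact μ (L := L) hd1
  obtain ⟨CT, hCT, _, _, hgK⟩ := hT d hd
  refine ⟨C * (9 ^ (2 * d + 1) * (1 + 128 * d ^ 3) ^ 2) + 16 * d ^ 2 * CT, by positivity,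
    fun R K hR hRK b hb m _ hKm κ _ _ w k hw => ?_⟩
  have hR1 : (1 : ℝ) ≤ R := by exact_mod_cast hR
  have hd1' : (1 : ℝ) ≤ d := by exact_mod_cast hd1
  have hK1 : 1 ≤ K := by
    refine le_trans ?_ hRK
    exact Nat.one_le_iff_ne_zero.2 (by positivity)
  have hK1' : (1 : ℝ) ≤ K := by exact_mod_cast hK1
  have hb1 : 1 ≤ b := le_trans (one_le_pow₀ hK1') hb
  have hb0 : 0 < b := by linarith
  have hRK2 : 4 * d * R + 4 < K := by
    have h1 : 3 * (4 * d * R + 4) ≤ d * (4 * d * R + 4) := Nat.mul_le_mul_right _ hd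
    omega
  obtain ⟨M, hM⟩ : ∃ M, M = 3 * K + 5 := ⟨_, rfl⟩
  have hMl : M < 2 * m := by omega
  have hM9 : (M : ℝ) + 1 ≤ 9 * K := by rw [hM]; push_cast; linarith
  have hcd : (0 : ℝ) ≤ Fintype.card (κ × Fin n) := Nat.cast_nonneg _
  have hsK : (1 : ℝ) ≤ Real.sqrt K := Real.one_le_sqrt.2 hK1'
  have hsKK : Real.sqrt K ≤ K := by
    have e1 : Real.sqrt K ^ 2 = K := Real.sq_sqrt (by positivity)
    nlinarith
  have hsK0 : 0 < Real.sqrt K := by linarith
  -- supports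
  have hSW : ∀ (q : κ × Fin n) a j k', SW (K + 2) (2 * K + 2)
      (ff (2 * m) (oo d K) (zz d K R) w k q a j k') := by
    intro q a j k'
    unfold ff
    split_ifs
    · exact fF_SW hRK2 (by omega) (geo1 hw q.1) j k'
    · intro x hx; exact absurd rfl hx
  have hAB : ∀ (q : κ × Fin n) α ι, AB M (AK K (ff (2 * m) (oo d K) (zz d K R) w k q) α ι) := by
    intro q α ι x hx i
    have sU : ∀ a j k', SW 2 (3 * K + 2) (uKs K (ff (2 * m) (oo d K) (zz d K R) w k q) a j k') :=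
      fun a j k' => ((hSW q a j k').uK (k := K) (by omega) (by omega)).mono (by omega) (by omega)
    have sA : ∀ a k', SW 2 (3 * K + 3) (AK K (ff (2 * m) (oo d K) (zz d K R) w k q) a k') :=
      fun a k' => SW.ds2 (sU a) (by omega) k'
    have := sA α ι x hx i
    omega
  have hS1 : ∀ q : κ × Fin n, S1 (AK K (ff (2 * m) (oo d K) (zz d K R) w k q)) ≤
      128 * d ^ 3 * R ^ 2 * K := by
    intro q
    have e1 := S1_AK (show 0 < d by omega) K (ff (2 * m) (oo d K) (zz d K R) w k q)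
    have e2 := N1_ff_le (l := 2 * m) (k := k) (K := K) hd hR hw q
    have e3 := mul_le_mul_of_nonneg_left e2 (by positivity : (0:ℝ) ≤ 2 * K)
    linarith
  -- the integration by parts
  have hYc := Ye_cont (L := L) (l := 2 * m) b K R w k
  have hmain : Stn ((PT μ L (b ^ 4) : Measure (Ed d (2 * m) → G)).map (Ye L b K R w k))
      (fun i j => sg0 (gK d K) n w k i j)
      (C * (9 ^ (2 * d + 1) * (1 + 128 * d ^ 3) ^ 2) * (Fintype.card (κ × Fin n) + 1) * R ^ 4 /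
        Real.sqrt K) := by
    intro g hg c0 c1 h0 h1 i
    have hc0 : 0 ≤ c0 := (abs_nonneg _).trans (h0 0)
    have hc1 : 0 ≤ c1 := (abs_nonneg _).trans (h1 i 0)
    have h2 := h b hb1 m (by omega) M hMl (κ × Fin n)
      (fun q => AK K (ff (2 * m) (oo d K) (zz d K R) w k q)) hAB _ hS1 g hg c0 c1 h0 h1 i
    have m1 : Measurable fun x : κ × Fin n → ℝ => x i * g x :=
      ((measurable_pi_apply i).mul hg.continuous.measurable)
    have m2 : ∀ j, Measurable (pd g j) := fun j => (pd_smooth hg j).continuous.measurable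
    have e1 : ∫ x, x i * g x ∂((PT μ L (b ^ 4) : Measure (Ed d (2 * m) → G)).map
        (Ye L b K R w k)) = EX μ L (b ^ 4) (fun U : Ed d (2 * m) → G => b ^ 2 * Fs L (fun a =>
          d1 (AK K (ff (2 * m) (oo d K) (zz d K R) w k i) a)) U * g (fun j => b ^ 2 *
            Fs L (fun a => d1 (AK K (ff (2 * m) (oo d K) (zz d K R) w k j) a)) U)) := by
      rw [integral_map hYc.measurable.aemeasurable m1.aestronglyMeasurable, EX_int]
      rfl
    have e2 : ∀ j, ∫ x, pd g j x ∂((PT μ L (b ^ 4) : Measure (Ed d (2 * m) → G)).map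
        (Ye L b K R w k)) = EX μ L (b ^ 4) (fun U : Ed d (2 * m) → G => pd g j (fun j => b ^ 2 *
            Fs L (fun a => d1 (AK K (ff (2 * m) (oo d K) (zz d K R) w k j) a)) U)) := by
      intro j
      rw [integral_map hYc.measurable.aemeasurable (m2 j).aestronglyMeasurable, EX_int]
      rfl
    have e3 : ∀ j, (∑ a, ipF (d1 (AK K (ff (2 * m) (oo d K) (zz d K R) w k i) a))
        (d1 (AK K (ff (2 * m) (oo d K) (zz d K R) w k j) a))) = sg0 (gK d K) n w k i j := by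
      intro j
      rw [cov_ff, sg0_z _ _ _ _ (zz d K R), cov_pth hB hd hw hRK hKm]
    rw [e1]
    simp only [e2, ← e3]
    refine h2.trans (mul_le_mul_of_nonneg_right ?_ (by linarith))
    have k3 : 1 + 128 * (d : ℝ) ^ 3 * R ^ 2 * K ≤ (1 + 128 * d ^ 3) * (R ^ 2 * K) := by
      have e4 : (1 + 128 * (d : ℝ) ^ 3) * (R ^ 2 * K) = R ^ 2 * K + 128 * d ^ 3 * R ^ 2 * K := by
        ring
      have e5 : (1 : ℝ) ≤ R ^ 2 * K := one_le_mul_of_one_le_of_one_le (one_le_pow₀ hR1) hK1'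
      rw [e4]; linarith
    have k4 : C * (Fintype.card (κ × Fin n) + 1) * ((M : ℝ) + 1) ^ (2 * d + 1) *
        (1 + 128 * (d : ℝ) ^ 3 * R ^ 2 * K) ^ 2 ≤
        C * (Fintype.card (κ × Fin n) + 1) * (9 * K) ^ (2 * d + 1) *
          ((1 + 128 * d ^ 3) * (R ^ 2 * K)) ^ 2 := by gcongr
    rw [div_le_div_iff₀ hb0 hsK0]
    calc C * (Fintype.card (κ × Fin n) + 1) * ((M : ℝ) + 1) ^ (2 * d + 1) *
        (1 + 128 * (d : ℝ) ^ 3 * R ^ 2 * K) ^ 2 * Real.sqrt K ≤
        C * (Fintype.card (κ × Fin n) + 1) * (9 * K) ^ (2 * d + 1) *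
          ((1 + 128 * d ^ 3) * (R ^ 2 * K)) ^ 2 * K := by gcongr
      _ = C * (9 ^ (2 * d + 1) * (1 + 128 * d ^ 3) ^ 2) * (Fintype.card (κ × Fin n) + 1) * R ^ 4 *
          (K : ℝ) ^ (2 * d + 4) := by
          rw [mul_pow 9 (K : ℝ), show 2 * d + 4 = (2 * d + 1) + 3 by ring, pow_add (K : ℝ)]; ring
      _ ≤ C * (9 ^ (2 * d + 1) * (1 + 128 * d ^ 3) ^ 2) * (Fintype.card (κ × Fin n) + 1) * R ^ 4 *
          b := mul_le_mul_of_nonneg_left hb (by positivity)
  have hpr := PT_prob μ (L := L) (d := d) (l := 2 * m) (b ^ 4)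
  have hpr' : IsProbabilityMeasure ((PT μ L (b ^ 4) : Measure (Ed d (2 * m) → G)).map
    (Ye L b K R w k)) := Measure.isProbabilityMeasure_map hYc.measurable.aemeasurable
  have h3 := hmain.cov (A' := fun i j => sg0 (green d) n w k i j)
    (e := (2 * d * R + 2) ^ 2 * (CT / Real.sqrt K)) (by positivity)
    fun i j => sg0_diff (by positivity) (fun z => hgK K z hK1) hw i j
  intro g hg c0 c1 h0 h1 i
  have hc0 : 0 ≤ c0 := (abs_nonneg _).trans (h0 0)
  have hc1 : 0 ≤ c1 := (abs_nonneg _).trans (h1 i 0)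
  refine (h3 g hg c0 c1 h0 h1 i).trans (mul_le_mul_of_nonneg_right ?_ (by linarith))
  obtain ⟨χ, hχ⟩ : ∃ χ : ℝ, χ = Fintype.card (κ × Fin n) := ⟨_, rfl⟩
  rw [← hχ] at hcd ⊢
  have k1 : χ * ((2 * d * R + 2) ^ 2 * (CT / Real.sqrt K)) ≤
      16 * d ^ 2 * CT * (χ + 1) * R ^ 4 / Real.sqrt K := by
    have k2 : (2 * (d : ℝ) * R + 2) ≤ 4 * d * R := by
      have : (1 : ℝ) ≤ d * R := one_le_mul_of_one_le_of_one_le hd1' hR1
      linarith
    calc χ * ((2 * d * R + 2) ^ 2 * (CT / Real.sqrt K)) ≤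
        (χ + 1) * ((4 * d * R) ^ 2 * (CT / Real.sqrt K)) := by gcongr; linarith
      _ = 16 * d ^ 2 * CT * (χ + 1) * R ^ 2 / Real.sqrt K := by ring
      _ ≤ 16 * d ^ 2 * CT * (χ + 1) * R ^ 4 / Real.sqrt K := by
        gcongr
        norm_num
  refine (add_le_add le_rfl k1).trans (le_of_eq ?_)
  ring

/-- Weak closeness of the law of the links of the box to the Gaussian law. -/
theorem Wk_torus (hd : 3 ≤ d) (hB : S_B1) (hT : S_TR) : ∃ C : ℝ, 0 ≤ C ∧ ∀ (R K : ℕ), 1 ≤ R →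
    d * (4 * d * R + 4) ≤ K → ∀ b : ℝ, (K : ℝ) ^ (2 * d + 4) ≤ b → ∀ (m : ℕ) [NeZero m],
    3 * K + 5 < 2 * m → ∀ (κ : Type) [Fintype κ] [DecidableEq κ] (w : κ → Pt d) (k : κ → Fin d),
    (∀ e i, w e i ≤ R) →
      Wk ((PT μ L (b ^ 4) : Measure (Ed d (2 * m) → G)).map (XX L b (zz d K R) w k))
        (gau (sg0 (green d) n w k))
        (C * (Fintype.card (κ × Fin n) + 1) ^ 2 * R ^ 4 / Real.sqrt (Real.sqrt K)) := by
  have hd1 : 1 ≤ d := by omega
  obtain ⟨C1, hC1, h1⟩ := Xp_Fs μ (L := L) hd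
  obtain ⟨C2, hC2, h2⟩ := Fs_exact μ (L := L) hd
  obtain ⟨C3, hC3, h3⟩ := Ye_St μ (L := L) hd hB hT
  refine ⟨C1 + C2 + 2 * C3, by positivity, fun R K hR hRK b hb m _ hKm κ _ _ w k hw => ?_⟩
  have k1 := h1 R K hR hRK b hb m hKm κ w k hw
  have k2 := h2 R K hR hRK b hb m hKm κ w k hw
  have k3 := h3 R K hR hRK b hb m hKm κ w k hw
  have hR1 : (1 : ℝ) ≤ R := by exact_mod_cast hR
  have hK1 : 1 ≤ K := by
    refine le_trans ?_ hRK
    exact Nat.one_le_iff_ne_zero.2 (by positivity)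
  have hK1' : (1 : ℝ) ≤ K := by exact_mod_cast hK1
  have hRK2 : 4 * d * R + 4 < K := by
    have h1 : 3 * (4 * d * R + 4) ≤ d * (4 * d * R + 4) := Nat.mul_le_mul_right _ hd
    omega
  have hcd : (0 : ℝ) ≤ Fintype.card (κ × Fin n) := Nat.cast_nonneg _
  have hXc := XX_cont (L := L) (l := 2 * m) b (zz d K R) w k
  have hYc := Ye_cont (L := L) (l := 2 * m) b K R w k
  have hpr := PT_prob μ (L := L) (d := d) (l := 2 * m) (b ^ 4)
  have hpr' : IsProbabilityMeasure ((PT μ L (b ^ 4) : Measure (Ed d (2 * m) → G)).map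
    (Ye L b K R w k)) := Measure.isProbabilityMeasure_map hYc.measurable.aemeasurable
  have hgp : IsProbabilityMeasure (gau (sg0 (green d) n w k)) := inferInstance
  have hP : ∀ i, Integrable (fun x : κ × Fin n → ℝ => x i)
      ((PT μ L (b ^ 4) : Measure (Ed d (2 * m) → G)).map (Ye L b K R w k)) := by
    intro i
    rw [integrable_map_measure (measurable_pi_apply i).aestronglyMeasurable
      hYc.measurable.aemeasurable]
    exact cont_bdd_int μ ((continuous_apply i).comp hYc) _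
  have wk := k3.wk hP (gau_int _) (by positivity) (gau_St (sg0_psd (k := k) hd hB hT hw))
  obtain ⟨τ, hτ⟩ : ∃ τ, τ = Real.sqrt (Real.sqrt K) := ⟨_, rfl⟩
  have hs1 : (1 : ℝ) ≤ Real.sqrt K := Real.one_le_sqrt.2 hK1'
  have hτ1 : (1 : ℝ) ≤ τ := by rw [hτ]; exact Real.one_le_sqrt.2 hs1
  have hτ0 : 0 < τ := by linarith
  have hτ2 : Real.sqrt K = τ ^ 2 := by rw [hτ]; exact (Real.sq_sqrt (Real.sqrt_nonneg _)).symm
  have hτ4 : (K : ℝ) = τ ^ 4 := by
    have : (K : ℝ) = Real.sqrt K ^ 2 := (Real.sq_sqrt (by positivity)).symm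
    rw [this, hτ2]; ring
  have hτs : τ ≤ Real.sqrt K := by
    rw [hτ2]; calc τ = τ ^ 1 := (pow_one _).symm
      _ ≤ τ ^ 2 := pow_le_pow_right₀ hτ1 (by norm_num)
  have hτK : τ ≤ K := by
    rw [hτ4]; calc τ = τ ^ 1 := (pow_one _).symm
      _ ≤ τ ^ 4 := pow_le_pow_right₀ hτ1 (by norm_num)
  rw [← hτ] at k2 ⊢
  obtain ⟨χ, hχ⟩ : ∃ χ : ℝ, χ = Fintype.card (κ × Fin n) := ⟨_, rfl⟩
  rw [← hχ] at hcd wk ⊢
  intro f hf f0 c1 c2 p1 p2 f1 f2
  have hfc : Continuous f := hf.continuous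
  -- the law
  obtain ⟨Xv, hXv⟩ : ∃ Xv : (Ed d (2 * m) → G) → κ × Fin n → ℝ, Xv = fun U q =>
    Xp L b (zz d K R) (w q.1) (k q.1) q.2 U := ⟨_, rfl⟩
  have hXvc : Continuous Xv := by
    rw [hXv]; exact continuous_pi fun q => Xp_cont b _ _ _ _
  have hz0 : zt (2 * m) (zz d K R) ≠ 0 := zt_ne (by omega) fun i => by
    unfold zz
    have e1 : ((4 * d * R + 4 : ℕ) : ℤ) = 2 * (2 * d * R + 2 : ℕ) := by push_cast; ring
    have e2 : ((4 * d * R + 4 : ℕ) : ℤ) < K := by exact_mod_cast hRK2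
    have e3 : (3 * (K : ℤ) + 5) < ((2 * m : ℕ) : ℤ) := by exact_mod_cast hKm
    constructor <;> omega
  have law : EX μ L (b ^ 4) (fun U : Ed d (2 * m) → G => f (XX L b (zz d K R) w k U)) =
      EX μ L (b ^ 4) (fun U => f (Xv U)) := by
    have hΦ : Continuous fun g : κ → G => f fun q : κ × Fin n => b ^ 2 * fi L q.2 (g q.1) :=
      hfc.comp (continuous_pi fun q => continuous_const.mul
        ((fi_cont q.2).comp (continuous_apply q.1)))
    have := law_eq μ (L := L) (β := b ^ 4) hΦ (h := fun e U => hh (zz d K R) (w e) (k e) U)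
      (fun e => hh_cont _ _ _) hz0 (fun e γ U => hh_gt (κ := κ) γ U _ _ _)
    rw [hXv]
    exact this.symm
  have cE1 : Continuous fun U : Ed d (2 * m) → G => f (Xv U) := hfc.comp hXvc
  have cE2 : Continuous fun U : Ed d (2 * m) → G => f (Ye L b K R w k U) := hfc.comp hYc
  have cmpr : |EX μ L (b ^ 4) (fun U => f (Xv U)) -
      EX μ L (b ^ 4) (fun U : Ed d (2 * m) → G => f (Ye L b K R w k U))| ≤
      c1 * (χ * ((C1 + C2) * R ^ 4 / τ)) := by
    refine (EX_close μ cE1 cE2).trans ?_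
    have e1 : ∀ q, Continuous fun U : Ed d (2 * m) → G => |Xv U q - Ye L b K R w k U q| := fun q =>
      (((continuous_apply q).comp hXvc).sub ((continuous_apply q).comp hYc)).abs
    have e2 : EX μ L (b ^ 4) (fun U : Ed d (2 * m) → G => |f (Xv U) - f (Ye L b K R w k U)|) ≤
        c1 * ∑ q, EX μ L (b ^ 4) (fun U : Ed d (2 * m) → G => |Xv U q - Ye L b K R w k U q|) := by
      rw [← EX_sum μ Finset.univ (F := fun q (U : Ed d (2 * m) → G) =>
        |Xv U q - Ye L b K R w k U q|) fun q _ => e1 q, ← EX_smul]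
      exact EX_mono μ (cE1.sub cE2).abs (continuous_const.mul (continuous_finsetSum _ fun q _ =>
        e1 q)) fun U => lip hf f1 _ _
    refine e2.trans (mul_le_mul_of_nonneg_left ?_ p1)
    have e3 : ∀ q, EX μ L (b ^ 4) (fun U : Ed d (2 * m) → G => |Xv U q - Ye L b K R w k U q|) ≤
        (C1 + C2) * R ^ 4 / τ := by
      intro q
      have c1' : Continuous fun U : Ed d (2 * m) → G =>
          |Xp L b (zz d K R) (w q.1) (k q.1) q.2 U -
            b ^ 2 * Fs L (ff (2 * m) (oo d K) (zz d K R) w k q) U| :=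
        ((Xp_cont b _ _ _ _).sub (continuous_const.mul (Fs_cont _))).abs
      have c2' : Continuous fun U : Ed d (2 * m) → G =>
          |b ^ 2 * Fs L (ff (2 * m) (oo d K) (zz d K R) w k q) U -
        b ^ 2 * Fs L (fun a => d1 (AK K (ff (2 * m) (oo d K) (zz d K R) w k q) a)) U| :=
        ((continuous_const.mul (Fs_cont _)).sub (continuous_const.mul (Fs_cont _))).abs
      have e4 := EX_mono μ (L := L) (β := b ^ 4) (e1 q) (c1'.add c2') fun U => by
        rw [hXv]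
        unfold Ye
        exact abs_sub_le _ _ _
      have e5 := EX_add μ (L := L) (β := b ^ 4) c1' c2'
      have e6 : EX μ L (b ^ 4) (fun U : Ed d (2 * m) → G => |Xv U q - Ye L b K R w k U q|) ≤
          C1 * R ^ 4 / K + C2 * R ^ 4 / τ := by
        refine e4.trans ((le_of_eq e5).trans (add_le_add (k1 q) (k2 q)))
      have e7 : C1 * (R : ℝ) ^ 4 / K ≤ C1 * R ^ 4 / τ :=
        div_le_div_of_nonneg_left (by positivity) hτ0 hτK
      calc _ ≤ _ := e6
        _ ≤ C1 * R ^ 4 / τ + C2 * R ^ 4 / τ := by linarith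
        _ = _ := by ring
    calc ∑ q, EX μ L (b ^ 4) (fun U : Ed d (2 * m) → G => |Xv U q - Ye L b K R w k U q|) ≤
        ∑ _q : κ × Fin n, (C1 + C2) * R ^ 4 / τ := Finset.sum_le_sum fun q _ => e3 q
      _ = _ := by rw [Finset.sum_const, Finset.card_univ, nsmul_eq_mul, hχ]
  have w1 := wk f hf f0 c1 c2 p1 p2 f1 f2
  rw [integral_map hYc.measurable.aemeasurable hfc.aestronglyMeasurable, ← EX_int] at w1
  rw [integral_map hXc.measurable.aemeasurable hfc.aestronglyMeasurable, ← EX_int, law]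
  refine (abs_sub_le _ (EX μ L (b ^ 4) (fun U : Ed d (2 * m) → G => f (Ye L b K R w k U))) _).trans
    ((add_le_add cmpr w1).trans ?_)
  have x1 : C3 * (χ + 1) * (R : ℝ) ^ 4 / Real.sqrt K ≤ C3 * (χ + 1) * R ^ 4 / τ :=
    div_le_div_of_nonneg_left (by positivity) hτ0 hτs
  have x2 : 2 * χ * (C3 * (χ + 1) * (R : ℝ) ^ 4 / Real.sqrt K) * (c1 + c2) ≤
      2 * (χ + 1) * (C3 * (χ + 1) * R ^ 4 / τ) * (c1 + c2) := by gcongr; linarith
  have x3 : c1 * (χ * ((C1 + C2) * (R : ℝ) ^ 4 / τ)) ≤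
      (c1 + c2) * ((χ + 1) ^ 2 * ((C1 + C2) * R ^ 4 / τ)) := by
    have x4 : χ ≤ (χ + 1) ^ 2 := by nlinarith
    have x5 : 0 ≤ (C1 + C2) * (R : ℝ) ^ 4 / τ := by positivity
    gcongr
    linarith
  calc _ ≤ (c1 + c2) * ((χ + 1) ^ 2 * ((C1 + C2) * R ^ 4 / τ)) +
        2 * (χ + 1) * (C3 * (χ + 1) * R ^ 4 / τ) * (c1 + c2) := add_le_add x3 x2
    _ = _ := by ring

end

end Pool.Agent.H991.TV
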