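import Mathlib
import Pool.Agent.H991.TV.Core3

/-!
# The total variation bound on the torus
-/

open MeasureTheory Matrix Filter
open scoped Matrix.Norms.Frobenius ContDiff Topology
open Pool.Agent.H906R3.YM Pool.Agent.W793.YM
open Pool.Agent.TH369.WL (fF lks QK oo)
open Pool.Agent.W793.SCH (S_B1 S_TR green gK)
open Pool.Agent.W793.SCHL (PT PT_prob EX_int)

namespace Pool.Agent.H991.TV

set_option linter.unusedSectionVars false
set_option linter.unusedVariables false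

noncomputable section

/-- the number of links of the box -/
lemma card_le {d R : ℕ} (hR : 1 ≤ R) {κ : Type} [Fintype κ] (w : κ → Pt d) (k : κ → Fin d)
    (hw : ∀ e i, w e i ≤ R) (hinj : ∀ e e', w e = w e' → k e = k e' → e = e') :
    (Fintype.card κ : ℝ) ≤ 2 ^ d * d * R ^ d := by
  have h1 : Fintype.card κ ≤ Fintype.card ((Fin d → Fin (R + 1)) × Fin d) := by
    refine Fintype.card_le_of_injective
      (fun e => ((fun i => (⟨w e i, Nat.lt_succ_of_le (hw e i)⟩ : Fin (R + 1))), k e)) ?_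
    intro e e' h
    have h2 := congrArg Prod.fst h
    have h3 := congrArg Prod.snd h
    refine hinj e e' (funext fun i => ?_) h3
    have h4 := congrFun h2 i
    simpa using h4
  have h2 : Fintype.card ((Fin d → Fin (R + 1)) × Fin d) = (R + 1) ^ d * d := by
    simp
  rw [h2] at h1
  have hR1 : (1 : ℝ) ≤ R := by exact_mod_cast hR
  calc (Fintype.card κ : ℝ) ≤ ((R + 1) ^ d * d : ℕ) := by exact_mod_cast h1
    _ = ((R : ℝ) + 1) ^ d * d := by push_cast; ring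
    _ ≤ (2 * R) ^ d * d := by gcongr; linarith
    _ = _ := by rw [mul_pow]; ring

variable {G : Type*} [Group G] [TopologicalSpace G] [IsTopologicalGroup G] [CompactSpace G]
  [SecondCountableTopology G] [MeasurableSpace G] [BorelSpace G] (μ : Measure G)
  [IsProbabilityMeasure μ] [μ.IsMulLeftInvariant] [μ.IsMulRightInvariant] [μ.IsInvInvariant]
  {N n : ℕ} {L : LD G N n} {d : ℕ}

/-- The Gaussian law is stable under shifts. -/
theorem Bv_gau (hd : 3 ≤ d) (hB : S_B1) (hT : S_TR) {C2 C3 : ℝ} (hC2 : 0 ≤ C2)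
    (h2 : ∀ b : ℝ, 1 ≤ b → ∀ (l : ℕ) [NeZero l], 2 ≤ l →
    ∀ (R : ℕ), R < l → ∀ (z : Fin d → ℤ) (κ : Type) [Fintype κ] [DecidableEq κ] (w : κ → Pt d)
      (k : κ → Fin d), (∀ e i, w e i ≤ R) → (∀ e, w e (k e) + 1 ≤ R) →
      (∀ e, ∃ j < k e, 0 < w e j) → (∀ e e', w e = w e' → k e = k e' → e = e') →
      ∀ η : ℝ, (∀ e, EX μ L (b ^ 4) (fun U : Ed d l → G => dv L (hh z (w e) (k e) U)) ≤ η) →
        Bv ((PT μ L (b ^ 4) : Measure (Ed d l → G)).map (XX L b z w k)) C2 (C2 * η))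
    (h3 : ∀ b : ℝ, 1 ≤ b → ∀ (m : ℕ) [NeZero m], 2 ≤ m →
    ∀ (R : ℕ), 1 ≤ R → ∀ (z : Fin d → ℤ) (v : Pt d) (k : Fin d), (∀ i, v i ≤ R) →
      EX μ L (b ^ 4) (fun U : Ed d (2 * m) → G => dv L (hh z v k U)) ≤
        C3 * (R : ℝ) ^ (2 * d + 1) / b)
    {R : ℕ} (hR : 1 ≤ R) {κ : Type} [Fintype κ] [DecidableEq κ] (w : κ → Pt d)
      (k : κ → Fin d) (hw : ∀ e i, w e i ≤ R) (hk : ∀ e, w e (k e) + 1 ≤ R)
      (ht : ∀ e, ∃ j < k e, 0 < w e j) (hinj : ∀ e e', w e = w e' → k e = k e' → e = e') :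
    Bv (gau (sg0 (green d) n w k)) C2 0 := by
  obtain ⟨C1, hC1, h1⟩ := Wk_torus μ (L := L) hd hB hT
  obtain ⟨K, hK⟩ : ∃ K : ℕ → ℕ, K = fun j => d * (4 * d * R + 4) + j := ⟨_, rfl⟩
  have hK0 : ∀ j, d * (4 * d * R + 4) ≤ K j := fun j => by rw [hK]; exact Nat.le_add_right _ _
  have hK1 : ∀ j, 1 ≤ K j := fun j => by
    refine le_trans ?_ (hK0 j)
    exact Nat.one_le_iff_ne_zero.2 (by positivity)
  have hKt : Tendsto (fun j => (K j : ℝ)) atTop atTop := by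
    rw [hK]
    refine tendsto_natCast_atTop_atTop.comp ?_
    exact tendsto_atTop_mono (fun j => Nat.le_add_left _ _) tendsto_id
  have hRK : ∀ j, R < K j := by
    intro j
    have e1 : 1 * (4 * 1 * R + 4) ≤ d * (4 * d * R + 4) := by gcongr <;> omega
    have e2 := hK0 j
    omega
  have p1 : ∀ j, (1 : ℝ) ≤ (K j : ℝ) := fun j => by exact_mod_cast hK1 j
  have p2 : ∀ j, (1 : ℝ) ≤ (K j : ℝ) ^ (2 * d + 4) := fun j => one_le_pow₀ (p1 j)
  have pr : ∀ j, IsProbabilityMeasure ((PT μ L (((K j : ℝ) ^ (2 * d + 4)) ^ 4) :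
      Measure (Ed d (2 * (3 * K j + 5 + 1)) → G)).map
        (XX L ((K j : ℝ) ^ (2 * d + 4)) (zz d (K j) R) w k)) := fun j => by
    have := PT_prob μ (L := L) (d := d) (l := 2 * (3 * K j + 5 + 1)) (((K j : ℝ) ^ (2 * d + 4)) ^ 4)
    exact Measure.isProbabilityMeasure_map (XX_cont _ _ _ _).measurable.aemeasurable
  refine Bv_limit' (P := fun j => (PT μ L (((K j : ℝ) ^ (2 * d + 4)) ^ 4) :
      Measure (Ed d (2 * (3 * K j + 5 + 1)) → G)).map
        (XX L ((K j : ℝ) ^ (2 * d + 4)) (zz d (K j) R) w k))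
    (ε := fun j => C1 * (Fintype.card (κ × Fin n) + 1) ^ 2 * R ^ 4 / Real.sqrt (Real.sqrt (K j)))
    (η := fun j => C2 * (C3 * (R : ℝ) ^ (2 * d + 1) / (K j : ℝ) ^ (2 * d + 4)))
    (fun j => h1 R (K j) hR (hK0 j) _ le_rfl _ (by omega) κ w k hw)
    (fun j => h2 _ (p2 j) _ (by omega) R (by have := hRK j; omega) _ κ w k hw hk ht hinj _
      fun e => h3 _ (p2 j) _ (by omega) R hR _ _ _ (hw e)) ?_ ?_
  · have e1 : Tendsto (fun j => Real.sqrt (Real.sqrt (K j))) atTop atTop :=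
      Real.tendsto_sqrt_atTop.comp (Real.tendsto_sqrt_atTop.comp hKt)
    exact tendsto_const_nhds.div_atTop e1
  · have e1 : Tendsto (fun j => (K j : ℝ) ^ (2 * d + 4)) atTop atTop :=
      (tendsto_pow_atTop (by omega)).comp hKt
    have e2 := (tendsto_const_nhds (x := C3 * (R : ℝ) ^ (2 * d + 1))).div_atTop e1
    simpa using e2.const_mul C2

/-- The total variation bound for the links of the box in the comb gauge. -/
theorem TV_zz (hd : 3 ≤ d) (hB : S_B1) (hT : S_TR) : ∃ C : ℝ, 0 ≤ C ∧ ∀ (R K : ℕ), 1 ≤ R →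
    d * (4 * d * R + 4) ≤ K → ∀ b : ℝ, (K : ℝ) ^ (2 * d + 4) ≤ b → ∀ (m : ℕ) [NeZero m],
    3 * K + 5 < 2 * m → ∀ (κ : Type) [Fintype κ] [DecidableEq κ] (w : κ → Pt d) (k : κ → Fin d),
    (∀ e i, w e i ≤ R) → (∀ e, w e (k e) + 1 ≤ R) → (∀ e, ∃ j < k e, 0 < w e j) →
    (∀ e e', w e = w e' → k e = k e' → e = e') → ∀ τ : ℝ, 1 ≤ τ → τ ^ 12 = K →
    ∀ f : (κ × Fin n → ℝ) → ℝ, Measurable f → (∀ x, |f x| ≤ 1) →
      |∫ x, f x ∂((PT μ L (b ^ 4) : Measure (Ed d (2 * m) → G)).map (XX L b (zz d K R) w k)) -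
        ∫ x, f x ∂(gau (sg0 (green d) n w k))| ≤ C * R ^ (3 * d + 4) / τ := by
  obtain ⟨C1, hC1, h1⟩ := Wk_torus μ (L := L) hd hB hT
  obtain ⟨C2, hC2, h2⟩ := Bv_torus μ (L := L) (d := d)
  obtain ⟨C3, hC3, h3⟩ := E_dv μ (L := L) (show 1 ≤ d by omega)
  obtain ⟨C4, hC4, h4⟩ := tv'
  obtain ⟨D, hD⟩ : ∃ D : ℝ, D = 2 ^ d * d * n := ⟨_, rfl⟩
  have hD0 : 0 ≤ D := by rw [hD]; positivity
  refine ⟨2 * D * C2 + D * C2 * C3 + C4 * C1 * (D + 1) ^ 2, by positivity,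
    fun R K hR hRK b hb m _ hKm κ _ _ w k hw hk ht hinj τ hτ hτK f hf hf1 => ?_⟩
  have hR1 : (1 : ℝ) ≤ R := by exact_mod_cast hR
  have hK1 : 1 ≤ K := by
    refine le_trans ?_ hRK
    exact Nat.one_le_iff_ne_zero.2 (by positivity)
  have hK1' : (1 : ℝ) ≤ K := by exact_mod_cast hK1
  have hb1 : 1 ≤ b := le_trans (one_le_pow₀ hK1') hb
  have hb0 : 0 < b := by linarith
  have hτ0 : 0 < τ := by linarith
  have hRK2 : R < K := by
    have e1 : 1 * (4 * 1 * R + 4) ≤ d * (4 * d * R + 4) := by gcongr <;> omega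
    omega
  have hcard : (Fintype.card (κ × Fin n) : ℝ) ≤ D * R ^ d := by
    have e1 := card_le hR w k hw hinj
    rw [Fintype.card_prod, Fintype.card_fin, hD]
    push_cast
    calc (Fintype.card κ : ℝ) * n ≤ 2 ^ d * d * R ^ d * n :=
          mul_le_mul_of_nonneg_right e1 (Nat.cast_nonneg _)
      _ = _ := by ring
  have hcard0 : (0 : ℝ) ≤ Fintype.card (κ × Fin n) := Nat.cast_nonneg _
  have hpr := PT_prob μ (L := L) (d := d) (l := 2 * m) (b ^ 4)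
  have hpr' : IsProbabilityMeasure ((PT μ L (b ^ 4) : Measure (Ed d (2 * m) → G)).map
    (XX L b (zz d K R) w k)) :=
      Measure.isProbabilityMeasure_map (XX_cont _ _ _ _).measurable.aemeasurable
  have hs4 : Real.sqrt (Real.sqrt K) = τ ^ 3 := by
    have e1 : Real.sqrt K = τ ^ 6 := by
      rw [← hτK, show τ ^ 12 = (τ ^ 6) ^ 2 by ring]
      exact Real.sqrt_sq (by positivity)
    rw [e1, show τ ^ 6 = (τ ^ 3) ^ 2 by ring]
    exact Real.sqrt_sq (by positivity)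
  have k1 := h1 R K hR hRK b hb m hKm κ w k hw
  rw [hs4] at k1
  have k2 := h2 b hb1 (2 * m) (by omega) R (by omega) (zz d K R) κ w k hw hk ht hinj _
    fun e => h3 b hb1 m (by omega) R hR _ _ _ (hw e)
  have k3 := Bv_gau μ (L := L) (C2 := C2) (C3 := C3) hd hB hT hC2
    (fun b hb l _ hl R hR z κ _ _ w k => h2 b hb l hl R hR z κ w k)
    (fun b hb m _ hm R => h3 b hb m hm R) hR w k hw hk ht hinj
  obtain ⟨χ, hχ⟩ : ∃ χ : ℝ, χ = Fintype.card (κ × Fin n) := ⟨_, rfl⟩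
  have k4 := h4 (κ × Fin n) _ _ (C1 * (Fintype.card (κ × Fin n) + 1) ^ 2 * R ^ 4 / τ ^ 3) C2
    (C2 * (C3 * (R : ℝ) ^ (2 * d + 1) / b)) (by positivity) hC2 k1 k2 k3 (1 / τ) (by positivity)
    (by rw [div_le_one hτ0]; exact hτ) f hf hf1
  refine k4.trans ?_
  rw [← hχ] at hcard hcard0 ⊢
  have hbτ : τ ≤ b := by
    calc τ = τ ^ 1 := (pow_one _).symm
      _ ≤ τ ^ 12 := pow_le_pow_right₀ hτ (by norm_num)
      _ = (K : ℝ) ^ 1 := by rw [hτK, pow_one]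
      _ ≤ (K : ℝ) ^ (2 * d + 4) := pow_le_pow_right₀ hK1' (by omega)
      _ ≤ b := hb
  have pR : ∀ j ≤ 3 * d + 4, (R : ℝ) ^ j ≤ R ^ (3 * d + 4) := fun j hj => pow_le_pow_right₀ hR1 hj
  have t1 : χ * (2 * (C2 * (1 / τ))) ≤ 2 * D * C2 * R ^ (3 * d + 4) / τ := by
    calc χ * (2 * (C2 * (1 / τ))) ≤ (D * R ^ d) * (2 * (C2 * (1 / τ))) :=
          mul_le_mul_of_nonneg_right hcard (by positivity)
      _ = 2 * D * C2 * R ^ d / τ := by ring
      _ ≤ _ := by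
        have := pR d (by omega)
        gcongr
  have t2 : χ * (C2 * (C3 * (R : ℝ) ^ (2 * d + 1) / b)) ≤
      D * C2 * C3 * R ^ (3 * d + 4) / τ := by
    calc χ * (C2 * (C3 * (R : ℝ) ^ (2 * d + 1) / b)) ≤
          (D * R ^ d) * (C2 * (C3 * (R : ℝ) ^ (2 * d + 1) / b)) :=
          mul_le_mul_of_nonneg_right hcard (by positivity)
      _ = D * C2 * C3 * R ^ (3 * d + 1) / b := by
          rw [show 3 * d + 1 = d + (2 * d + 1) by ring, pow_add]; ring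
      _ ≤ D * C2 * C3 * R ^ (3 * d + 4) / b := by
          have := pR (3 * d + 1) (by omega)
          gcongr
      _ ≤ _ := div_le_div_of_nonneg_left (by positivity) hτ0 hbτ
  have t3 : C4 * (C1 * (χ + 1) ^ 2 * R ^ 4 / τ ^ 3) / (1 / τ) ^ 2 ≤
      C4 * C1 * (D + 1) ^ 2 * R ^ (3 * d + 4) / τ := by
    have e1 : χ + 1 ≤ (D + 1) * R ^ d := by
      have : (1 : ℝ) ≤ R ^ d := one_le_pow₀ hR1
      nlinarith
    have e2 : C4 * (C1 * (χ + 1) ^ 2 * R ^ 4 / τ ^ 3) / (1 / τ) ^ 2 =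
        C4 * C1 * (χ + 1) ^ 2 * R ^ 4 / τ := by
      field_simp
    rw [e2]
    calc C4 * C1 * (χ + 1) ^ 2 * R ^ 4 / τ ≤ C4 * C1 * ((D + 1) * R ^ d) ^ 2 * R ^ 4 / τ := by
          gcongr
      _ = C4 * C1 * (D + 1) ^ 2 * R ^ (2 * d + 4) / τ := by
          rw [mul_pow, show 2 * d + 4 = d * 2 + 4 by ring, pow_add (R : ℝ), pow_mul (R : ℝ)]; ring
      _ ≤ _ := by
          have := pR (2 * d + 4) (by omega)
          gcongr
  calc χ * (2 * (C2 * (1 / τ)) + C2 * (C3 * (R : ℝ) ^ (2 * d + 1) / b)) +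
        C4 * (C1 * (χ + 1) ^ 2 * R ^ 4 / τ ^ 3) / (1 / τ) ^ 2 =
        χ * (2 * (C2 * (1 / τ))) + χ * (C2 * (C3 * (R : ℝ) ^ (2 * d + 1) / b)) +
        C4 * (C1 * (χ + 1) ^ 2 * R ^ 4 / τ ^ 3) / (1 / τ) ^ 2 := by ring
    _ ≤ 2 * D * C2 * R ^ (3 * d + 4) / τ + D * C2 * C3 * R ^ (3 * d + 4) / τ +
        C4 * C1 * (D + 1) ^ 2 * R ^ (3 * d + 4) / τ := add_le_add (add_le_add t1 t2) t3
    _ = _ := by ring

end

end Pool.Agent.H991.TV
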