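import Mathlib
import Pool.Agent.H991.TV.Core4

/-!
# The total variation bound in terms of the inverse coupling
-/

open MeasureTheory Matrix Filter
open scoped Matrix.Norms.Frobenius ContDiff Topology
open Pool.Agent.H906R3.YM Pool.Agent.W793.YM
open Pool.Agent.TH369.WL (fF lks QK oo lf_tr)
open Pool.Agent.W793.SCH (S_B1 S_TR green gK)
open Pool.Agent.W793.SCHL (PT PT_prob EX_int)

namespace Pool.Agent.H991.TV

set_option linter.unusedSectionVars false
set_option linter.unusedVariables false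

noncomputable section

/-- the scales -/
lemma scal {β : ℝ} (hβ : 1 ≤ β) (d : ℕ) : ∃ (b : ℝ) (K : ℕ) (τ : ℝ), 1 ≤ b ∧ b ^ 4 = β ∧
    b ^ 2 = Real.sqrt β ∧ 1 ≤ K ∧ (K : ℝ) ^ (2 * d + 4) ≤ b ∧ 1 ≤ τ ∧ τ ^ 12 = K ∧
      β ^ (1 / (96 * (d + 2)) : ℝ) ≤ 2 * τ := by
  obtain ⟨b, hb⟩ : ∃ b, b = Real.sqrt (Real.sqrt β) := ⟨_, rfl⟩
  have hβ0 : 0 ≤ β := by linarith
  have hb1 : 1 ≤ b := by
    rw [hb]; exact Real.one_le_sqrt.2 (Real.one_le_sqrt.2 hβ)
  have hb0 : 0 ≤ b := by linarith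
  have hb2 : b ^ 2 = Real.sqrt β := by rw [hb]; exact Real.sq_sqrt (Real.sqrt_nonneg _)
  have hb4 : b ^ 4 = β := by
    rw [show b ^ 4 = (b ^ 2) ^ 2 by ring, hb2]; exact Real.sq_sqrt hβ0
  obtain ⟨u, hu⟩ : ∃ u, u = b ^ (1 / (2 * d + 4) : ℝ) := ⟨_, rfl⟩
  have hu1 : 1 ≤ u := by rw [hu]; exact Real.one_le_rpow hb1 (by positivity)
  have hu0 : 0 ≤ u := by linarith
  have hub : u ^ (2 * d + 4) = b := by
    rw [hu, ← Real.rpow_natCast, ← Real.rpow_mul hb0]
    have : (1 / (2 * (d : ℝ) + 4) * ((2 * d + 4 : ℕ) : ℝ)) = 1 := by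
      push_cast
      field_simp
    rw [this, Real.rpow_one]
  obtain ⟨K, hK⟩ : ∃ K, K = ⌊u⌋₊ := ⟨_, rfl⟩
  have hK1 : 1 ≤ K := by rw [hK]; exact Nat.le_floor (by exact_mod_cast hu1)
  have hKu : (K : ℝ) ≤ u := by rw [hK]; exact Nat.floor_le hu0
  have huK : u ≤ 2 * K := by
    have h1 := Nat.lt_floor_add_one u
    rw [← hK] at h1
    have h2 : (1 : ℝ) ≤ K := by exact_mod_cast hK1
    linarith
  have hK0 : (0 : ℝ) ≤ K := Nat.cast_nonneg _
  have hK1' : (1 : ℝ) ≤ K := by exact_mod_cast hK1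
  refine ⟨b, K, (K : ℝ) ^ (1 / 12 : ℝ), hb1, hb4, hb2, hK1, ?_, Real.one_le_rpow hK1' (by norm_num),
    ?_, ?_⟩
  · rw [← hub]; exact pow_le_pow_left₀ hK0 hKu _
  · rw [← Real.rpow_natCast, ← Real.rpow_mul hK0]
    norm_num
  · have e1 : β ^ (1 / (96 * (d + 2)) : ℝ) = u ^ (1 / 12 : ℝ) := by
      rw [← hb4, hu, ← Real.rpow_natCast, ← Real.rpow_mul hb0, ← Real.rpow_mul hb0]
      congr 1
      push_cast
      field_simp
      ring
    rw [e1]
    calc u ^ (1 / 12 : ℝ) ≤ (2 * K) ^ (1 / 12 : ℝ) := Real.rpow_le_rpow hu0 huK (by norm_num)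
      _ = 2 ^ (1 / 12 : ℝ) * (K : ℝ) ^ (1 / 12 : ℝ) := Real.mul_rpow (by norm_num) hK0
      _ ≤ 2 * (K : ℝ) ^ (1 / 12 : ℝ) := by
        refine mul_le_mul_of_nonneg_right ?_ (by positivity)
        calc (2 : ℝ) ^ (1 / 12 : ℝ) ≤ 2 ^ (1 : ℝ) :=
              Real.rpow_le_rpow_of_exponent_le (by norm_num) (by norm_num)
          _ = 2 := Real.rpow_one 2

variable {G : Type} [Group G] [TopologicalSpace G] [IsTopologicalGroup G] [CompactSpace G]
  [SecondCountableTopology G] [MeasurableSpace G] [BorelSpace G] (μ : Measure G)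
  [IsProbabilityMeasure μ] [μ.IsMulLeftInvariant] [μ.IsMulRightInvariant] [μ.IsInvInvariant]
  {N n : ℕ} {L : LD G N n} {d : ℕ}

variable (L) in
/-- the coordinates of a configuration of the infinite lattice -/
def XV (β : ℝ) {κ : Type} (x : Fin d → ℤ) (w : κ → Pt d) (k : κ → Fin d) (V : Ez d → G) :
    κ × Fin n → ℝ := fun q => Real.sqrt β * fi L q.2 (hol V x (pth (w q.1) (k q.1)))

lemma XX_XV {l : ℕ} {b β : ℝ} (hb : b ^ 2 = Real.sqrt β) {κ : Type} (z : Fin d → ℤ) (w : κ → Pt d)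
    (k : κ → Fin d) (U : Ed d l → G) : XX L b z w k U = XV L β z w k (lf U) := by
  funext q
  unfold XX XV
  rw [pth_hol, hb]

lemma XV_tr {l : ℕ} [NeZero l] {β : ℝ} {κ : Type} (t z : Fin d → ℤ) (w : κ → Pt d)
    (k : κ → Fin d) (U : Ed d l → G) :
    XV L β z w k (lf (tr (zt l t) U)) = XV L β (z + t) w k (lf U) := by
  funext q
  unfold XV
  rw [lf_tr, hol_trans]

/-- change of the base point -/
lemma EX_base {l : ℕ} [NeZero l] {β : ℝ} {κ : Type} (x z : Fin d → ℤ) (w : κ → Pt d)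
    (k : κ → Fin d) (f : (κ × Fin n → ℝ) → ℝ) :
    EX μ L β (fun U : Ed d l → G => f (XV L β x w k (lf U))) =
      EX μ L β (fun U : Ed d l → G => f (XV L β z w k (lf U))) := by
  have h := EX_tr μ (L := L) (β := β) (zt l (z - x)) (fun U : Ed d l → G => f (XV L β x w k (lf U)))
  rw [← h]
  congr 1
  funext U
  rw [XV_tr, add_sub_cancel]

/-- The total variation bound on the torus. -/
theorem TV_tor (hd : 3 ≤ d) (hB : S_B1) (hT : S_TR) : ∃ C : ℝ, 0 ≤ C ∧ ∀ R : ℕ, 1 ≤ R →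
    ∀ β : ℝ, 1 ≤ β → ∀ (m : ℕ) [NeZero m], β ≤ 2 * m → ∀ x : Fin d → ℤ,
    ∀ (κ : Type) [Fintype κ] [DecidableEq κ] (w : κ → Pt d) (k : κ → Fin d),
    (∀ e i, w e i ≤ R) → (∀ e, w e (k e) + 1 ≤ R) → (∀ e, ∃ j < k e, 0 < w e j) →
    (∀ e e', w e = w e' → k e = k e' → e = e') →
    ∀ f : (κ × Fin n → ℝ) → ℝ, Measurable f → (∀ x, |f x| ≤ 1) →
      |EX μ L β (fun U : Ed d (2 * m) → G => f (XV L β x w k (lf U))) -
        ∫ y, f y ∂(gau (sg0 (green d) n w k))| ≤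
          C * R ^ (3 * d + 4) / β ^ (1 / (96 * (d + 2)) : ℝ) := by
  obtain ⟨C, hC, h⟩ := TV_zz μ (L := L) hd hB hT
  refine ⟨2 * C + 32 * d ^ 2, by positivity,
    fun R hR β hβ m _ hm x κ _ _ w k hw hk ht hinj f hf h1 => ?_⟩
  obtain ⟨b, K, τ, hb1, hb4, hb2, hK1, hKb, hτ1, hτK, hβτ⟩ := scal hβ d
  have hR1 : (1 : ℝ) ≤ R := by exact_mod_cast hR
  have hK1' : (1 : ℝ) ≤ K := by exact_mod_cast hK1
  have hd1' : (1 : ℝ) ≤ d := by exact_mod_cast (by omega : 1 ≤ d)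
  have hτ0 : 0 < τ := by linarith
  have hRq : (R : ℝ) ≤ R ^ (3 * d + 4) := by
    calc (R : ℝ) = R ^ 1 := (pow_one _).symm
      _ ≤ _ := pow_le_pow_right₀ hR1 (by omega)
  have hbp : 0 < β ^ (1 / (96 * (d + 2)) : ℝ) := Real.rpow_pos_of_pos (by linarith) _
  by_cases hc : d * (4 * d * R + 4) ≤ K
  · have h48 : 48 ≤ K := by
      refine le_trans ?_ hc
      calc 48 = 3 * (4 * 3 * 1 + 4) := by norm_num
        _ ≤ _ := by gcongr
    have hKm : 3 * K + 5 < 2 * m := by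
      have e1 : (K : ℝ) ^ 2 ≤ 2 * m := by
        calc (K : ℝ) ^ 2 ≤ (K : ℝ) ^ (2 * d + 4) := pow_le_pow_right₀ hK1' (by omega)
          _ ≤ b := hKb
          _ = b ^ 1 := (pow_one _).symm
          _ ≤ b ^ 4 := pow_le_pow_right₀ hb1 (by norm_num)
          _ = β := hb4
          _ ≤ 2 * m := hm
      have e2 : K ^ 2 ≤ 2 * m := by exact_mod_cast e1
      nlinarith
    have k1 := h R K hR hc b hKb m hKm κ w k hw hk ht hinj τ hτ1 hτK f hf h1
    rw [integral_map (XX_cont _ _ _ _).measurable.aemeasurable hf.aestronglyMeasurable,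
      ← EX_int, hb4] at k1
    have e1 : (fun U : Ed d (2 * m) → G => f (XX L b (zz d K R) w k U)) =
        fun U => f (XV L β (zz d K R) w k (lf U)) := by
      funext U
      rw [XX_XV hb2]
    rw [e1, ← EX_base μ x (zz d K R) w k f] at k1
    refine k1.trans ?_
    rw [div_le_div_iff₀ hτ0 hbp]
    calc C * R ^ (3 * d + 4) * β ^ (1 / (96 * (d + 2)) : ℝ) ≤ C * R ^ (3 * d + 4) * (2 * τ) :=
          mul_le_mul_of_nonneg_left hβτ (by positivity)
      _ ≤ (2 * C + 32 * d ^ 2) * R ^ (3 * d + 4) * τ := by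
          have : 0 ≤ 32 * (d : ℝ) ^ 2 * R ^ (3 * d + 4) * τ := by positivity
          linarith
  · push Not at hc
    have hpr := PT_prob μ (L := L) (d := d) (l := 2 * m) β
    have e1 : |EX μ L β (fun U : Ed d (2 * m) → G => f (XV L β x w k (lf U)))| ≤ 1 := by
      rw [EX_int]
      have := norm_integral_le_of_norm_le_const (μ := (PT μ L β : Measure (Ed d (2 * m) → G)))
        (f := fun U => f (XV L β x w k (lf U))) (C := 1)
        (Filter.Eventually.of_forall fun U => by rw [Real.norm_eq_abs]; exact h1 _)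
      simpa using this
    have e2 : |∫ y, f y ∂(gau (sg0 (green d) n w k))| ≤ 1 := by
      have := norm_integral_le_of_norm_le_const (μ := gau (sg0 (green d) n w k))
        (f := f) (C := 1) (Filter.Eventually.of_forall fun U => by
          rw [Real.norm_eq_abs]; exact h1 _)
      simpa using this
    have e3 := abs_sub (EX μ L β (fun U : Ed d (2 * m) → G => f (XV L β x w k (lf U))))
      (∫ y, f y ∂(gau (sg0 (green d) n w k)))
    refine (e3.trans (add_le_add e1 e2)).trans ?_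
    rw [le_div_iff₀ hbp]
    have hτK' : τ ≤ K := by
      rw [← hτK]
      calc τ = τ ^ 1 := (pow_one _).symm
        _ ≤ τ ^ 12 := pow_le_pow_right₀ hτ1 (by norm_num)
    have hc' : (K : ℝ) ≤ d * (4 * d * R + 4) := by exact_mod_cast hc.le
    have e4 : (d : ℝ) * (4 * d * R + 4) ≤ 8 * d ^ 2 * R := by
      have : (1 : ℝ) ≤ d * R := one_le_mul_of_one_le_of_one_le hd1' hR1
      nlinarith
    calc (1 + 1) * β ^ (1 / (96 * (d + 2)) : ℝ) ≤ (1 + 1) * (2 * (8 * d ^ 2 * R)) := by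
          gcongr
          linarith
      _ = 32 * d ^ 2 * R := by ring
      _ ≤ 32 * d ^ 2 * R ^ (3 * d + 4) := mul_le_mul_of_nonneg_left hRq (by positivity)
      _ ≤ (2 * C + 32 * d ^ 2) * R ^ (3 * d + 4) := by
          refine mul_le_mul_of_nonneg_right ?_ (by positivity)
          linarith

end

end Pool.Agent.H991.TV
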