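import Mathlib
import Pool.Agent.H991.TV.Tor

/-!
# The total variation bound in infinite volume, and the gauge invariant functions
-/

open MeasureTheory Matrix Filter
open scoped Matrix.Norms.Frobenius ContDiff Topology
open Pool.Agent.H906R3.YM Pool.Agent.W793.YM
open Pool.Agent.TH369.WL (fF lks QK oo lf_tr uo wz nz)
open Pool.Agent.W793.SCH (S_B1 S_TR green gK)
open Pool.Agent.W793.SCHL (PT PT_prob EX_int)

namespace Pool.Agent.H991.TV

set_option linter.unusedSectionVars false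
set_option linter.unusedVariables false

noncomputable section

variable {G : Type} [Group G] [TopologicalSpace G] [IsTopologicalGroup G] [CompactSpace G]
  [SecondCountableTopology G] [MeasurableSpace G] [BorelSpace G] (μ : Measure G)
  [IsProbabilityMeasure μ] [μ.IsMulLeftInvariant] [μ.IsMulRightInvariant] [μ.IsInvInvariant]
  {N n : ℕ} {L : LD G N n} {d : ℕ}

variable (L) in
/-- the upper bounds on the tori of even side at least `β` pass to `P` -/
def Lmt (β : ℝ) (P : Measure (Ez d → G)) : Prop :=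
  IsProbabilityMeasure P ∧ ∀ (F : (Ez d → G) → ℝ) (c : ℝ), Continuous F →
    (∀ (m : ℕ) [NeZero m], β ≤ 2 * m → EX μ L β (fun U : Ed d (2 * m) → G => F (lf U)) ≤ c) →
      ∫ V, F V ∂P ≤ c

lemma XV_cont {β : ℝ} {κ : Type} (x : Fin d → ℤ) (w : κ → Pt d) (k : κ → Fin d) :
    Continuous (XV L β x w k : (Ez d → G) → κ × Fin n → ℝ) :=
  continuous_pi fun q => continuous_const.mul ((fi_cont q.2).comp (hol_cont x _))

/-- The total variation bound in infinite volume. -/
theorem TV_inf (hd : 3 ≤ d) (hB : S_B1) (hT : S_TR) : ∃ C : ℝ, 0 ≤ C ∧ ∀ R : ℕ, 1 ≤ R →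
    ∀ β : ℝ, 1 ≤ β → ∀ P : Measure (Ez d → G), Lmt μ L β P → ∀ x : Fin d → ℤ,
    ∀ (κ : Type) [Fintype κ] [DecidableEq κ] (w : κ → Pt d) (k : κ → Fin d),
    (∀ e i, w e i ≤ R) → (∀ e, w e (k e) + 1 ≤ R) → (∀ e, ∃ j < k e, 0 < w e j) →
    (∀ e e', w e = w e' → k e = k e' → e = e') →
    ∀ f : (κ × Fin n → ℝ) → ℝ, Measurable f → (∀ x, |f x| ≤ 1) →
      |∫ V, f (XV L β x w k V) ∂P - ∫ y, f y ∂(gau (sg0 (green d) n w k))| ≤
          C * R ^ (3 * d + 4) / β ^ (1 / (96 * (d + 2)) : ℝ) := by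
  obtain ⟨C, hC, h⟩ := TV_tor μ (L := L) hd hB hT
  refine ⟨C, hC, fun R hR β hβ P hP x κ _ _ w k hw hk ht hinj f hf h1 => ?_⟩
  obtain ⟨hP1, hP2⟩ := hP
  have hXc := XV_cont (L := L) (β := β) x w k
  have hpr : IsProbabilityMeasure (P.map (XV L β x w k)) :=
    Measure.isProbabilityMeasure_map hXc.measurable.aemeasurable
  have key : ∀ g : (κ × Fin n → ℝ) → ℝ, Continuous g → (∀ x, |g x| ≤ 1) →
      ∫ V, g (XV L β x w k V) ∂P - ∫ y, g y ∂(gau (sg0 (green d) n w k)) ≤
          C * R ^ (3 * d + 4) / β ^ (1 / (96 * (d + 2)) : ℝ) := by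
    intro g hg g1
    rw [sub_le_iff_le_add]
    refine hP2 (fun V => g (XV L β x w k V)) _ (hg.comp hXc) fun m _ hm => ?_
    have := (abs_le.1 (h R hR β hβ m hm x κ w k hw hk ht hinj g hg.measurable g1)).2
    linarith
  rw [← integral_map hXc.measurable.aemeasurable hf.aestronglyMeasurable]
  refine meas_of_cont (fun g hg g1 => ?_) hf h1
  rw [integral_map hXc.measurable.aemeasurable hg.aestronglyMeasurable]
  have k1 := key g hg g1
  have k2 := key (fun y => -g y) hg.neg fun y => by rw [abs_neg]; exact g1 y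
  rw [integral_neg, integral_neg] at k2
  rw [abs_le]
  constructor <;> linarith

/-- the links are close to the identity -/
theorem dv_inf (hd : 1 ≤ d) : ∃ C : ℝ, 0 ≤ C ∧ ∀ R : ℕ, 1 ≤ R →
    ∀ β : ℝ, 4 ≤ β → ∀ P : Measure (Ez d → G), Lmt μ L β P → ∀ (x : Fin d → ℤ) (v : Pt d)
    (k : Fin d), (∀ i, v i ≤ R) →
      ∫ V, dv L (hol V x (pth v k)) ∂P ≤ C * R ^ (2 * d + 1) / β ^ (1 / (96 * (d + 2)) : ℝ) := by
  obtain ⟨C, hC, h⟩ := E_dv μ (L := L) hd
  refine ⟨2 * C, by positivity, fun R hR β hβ P hP x v k hv => ?_⟩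
  obtain ⟨b, K, τ, hb1, hb4, hb2, hK1, hKb, hτ1, hτK, hβτ⟩ := scal (by linarith : 1 ≤ β) d
  have hK1' : (1 : ℝ) ≤ K := by exact_mod_cast hK1
  have hbp : 0 < β ^ (1 / (96 * (d + 2)) : ℝ) := Real.rpow_pos_of_pos (by linarith) _
  have hb0 : 0 < b := by linarith
  refine hP.2 _ _ (dv_cont.comp (hol_cont x _)) fun m _ hm => ?_
  have hm2 : 2 ≤ m := by
    have : (4 : ℝ) ≤ 2 * m := hβ.trans hm
    have : (2 : ℝ) ≤ m := by linarith
    exact_mod_cast this
  have h1 := h b hb1 m hm2 R hR x v k hv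
  rw [hb4] at h1
  have e1 : (fun U : Ed d (2 * m) → G => dv L (hh x v k U)) =
      fun U => dv L (hol (lf U) x (pth v k)) := by
    funext U
    rw [pth_hol]
  rw [e1] at h1
  refine h1.trans ?_
  rw [div_le_div_iff₀ hb0 hbp]
  have hτb : τ ≤ b := by
    calc τ = τ ^ 1 := (pow_one _).symm
      _ ≤ τ ^ 12 := pow_le_pow_right₀ hτ1 (by norm_num)
      _ = (K : ℝ) ^ 1 := by rw [hτK, pow_one]
      _ ≤ (K : ℝ) ^ (2 * d + 4) := pow_le_pow_right₀ hK1' (by omega)
      _ ≤ b := hKb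
  calc C * R ^ (2 * d + 1) * β ^ (1 / (96 * (d + 2)) : ℝ) ≤ C * R ^ (2 * d + 1) * (2 * b) :=
        mul_le_mul_of_nonneg_left (by linarith) (by positivity)
    _ = _ := by ring

/-- the gauge transformation to the comb gauge -/
lemma gau_fix (V : Ez d → G) (x : Fin d → ℤ) (w : Pt d) (i : Fin d) :
    fr (uo V x) (wz x (x + nz w)) * V (x + nz w, i) *
      (fr (uo V x) (wz x (x + nz w + Pi.single i 1)))⁻¹ = tl (uo V x) w i := by
  have h1 : wz x (x + nz w) = w := by
    funext j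
    simp [wz, nz]
  have h2 : wz x (x + nz w + Pi.single i 1) = w + es i := by
    rw [Pool.Agent.TH369.WL.wz_add (fun j => by simp [nz]), h1]
  rw [h1, h2]
  rfl

lemma pth_tl (V : Ez d → G) (x : Fin d → ℤ) (w : Pt d) (i : Fin d) :
    hol V x (pth w i) = tl (uo V x) w i := by
  unfold pth
  rw [Pool.Agent.TH369.WL.hol_append, Pool.Agent.TH369.WL.cmb_dest x _ w rfl]
  simp only [hol]
  rw [add_assoc, ← Pool.Agent.TH369.WL.nz_add,
    ← Pool.Agent.TH369.WL.cmb_dest x _ (w + es i) rfl, hol_bk, Pool.Agent.TH369.WL.cmb_fr,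
    Pool.Agent.TH369.WL.cmb_fr]
  unfold tl
  rw [← mul_assoc]
  rfl

/-- the configuration with given links in the comb gauge -/
def ext {κ : Type} (x : Fin d → ℤ) (w : κ → Pt d) (k : κ → Fin d) (h : κ → G) : Ez d → G :=
  open Classical in
  fun e => if hh : ∃ c, w c = wz x e.1 ∧ k c = e.2 then h hh.choose else 1

lemma ext_meas {κ : Type} (x : Fin d → ℤ) (w : κ → Pt d) (k : κ → Fin d) :
    Measurable (ext x w k : (κ → G) → Ez d → G) := by
  refine measurable_pi_lambda _ fun e => ?_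
  unfold ext
  by_cases hh : ∃ c, w c = wz x e.1 ∧ k c = e.2
  · simp only [dif_pos hh]
    exact measurable_pi_apply _
  · simp only [dif_neg hh]
    exact measurable_const

/-- a gauge invariant function of the box is a function of the links in the comb gauge -/
lemma gi_ext {κ : Type} {R : ℕ} (x : Fin d → ℤ) (w : κ → Pt d) (k : κ → Fin d)
    (ht : ∀ e, ∃ j < k e, 0 < w e j)
    (hinj : ∀ e e', w e = w e' → k e = k e' → e = e')
    (hall : ∀ v i, (∀ j, v j ≤ R) → v i + 1 ≤ R → (∃ j < i, 0 < v j) → ∃ e, w e = v ∧ k e = i)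
    {F : (Ez d → G) → ℝ}
    (hF : ∀ (γ : (Fin d → ℤ) → G) V,
      F (fun e => γ e.1 * V e * (γ (e.1 + Pi.single e.2 1))⁻¹) = F V)
    (hF' : ∀ V V', (∀ (v : Pt d) (i : Fin d), (∀ j, v j ≤ R) → v i + 1 ≤ R →
      V (x + nz v, i) = V' (x + nz v, i)) → F V = F V') (V : Ez d → G) :
    F V = F (ext x w k fun e => hol V x (pth (w e) (k e))) := by
  rw [← hF (fun y => fr (uo V x) (wz x y)) V]
  refine hF' _ _ fun v i hv hi => ?_
  simp only
  rw [gau_fix]
  have h1 : wz x (x + nz v) = v := by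
    funext j
    simp [wz, nz]
  unfold ext
  by_cases hh : ∃ c, w c = wz x (x + nz v) ∧ k c = i
  · rw [dif_pos hh]
    have h2 := hh.choose_spec
    have h3 : (fun e => hol V x (pth (w e) (k e))) hh.choose =
        hol V x (pth (w hh.choose) (k hh.choose)) := rfl
    rw [h3, h2.1, h2.2, pth_tl, h1]
  · rw [dif_neg hh]
    refine tl_tree _ _ _ fun j hj => ?_
    by_contra hc
    refine hh ?_
    rw [h1]
    exact hall v i hv hi ⟨j, hj, Nat.pos_of_ne_zero hc⟩

/-- the inverse of the chart near the identity -/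
lemma chart {Cq : ℝ} (hCq : 0 ≤ Cq)
    (hq : ∀ g : G, |we L g - 1 / 2 * ∑ a, fi L a g ^ 2| ≤ Cq * dv L g ^ 4)
    (hρ : ∀ g : G, dv L g = 0 → g = 1) :
    ∃ c : ℝ, 0 < c ∧ ∃ Θ : (Fin n → ℝ) → G, Measurable Θ ∧
      ∀ g, dv L g ≤ c → Θ (fun a => fi L a g) = g := by
  obtain ⟨c, hc⟩ : ∃ c : ℝ, c = 1 / (4 * (n + 1) * (Cq + 1)) := ⟨_, rfl⟩
  have hn : (0 : ℝ) ≤ n := Nat.cast_nonneg _
  have hc0 : 0 < c := by rw [hc]; positivity
  have hc1 : c * (4 * (n + 1) * (Cq + 1)) = 1 := by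
    rw [hc]; field_simp
  have hcn : c * (n + 1) ≤ 1 / 4 := by nlinarith [mul_nonneg hc0.le (by positivity : 0 ≤ (n + 1 : ℝ)), mul_nonneg (mul_nonneg hc0.le (by positivity : 0 ≤ (n + 1 : ℝ))) hCq]
  have hcq : c * (Cq + 1) ≤ 1 / 4 := by nlinarith [mul_nonneg hc0.le (by positivity : 0 ≤ (Cq + 1 : ℝ)), mul_nonneg (mul_nonneg hc0.le hn) (by positivity : 0 ≤ (Cq + 1 : ℝ))]
  have hc4 : c ≤ 1 / 4 := by nlinarith
  -- the chart controls the distance
  have key : ∀ k : G, dv L k ≤ 2 * c → dv L k ^ 2 ≤ 2 * ∑ a, fi L a k ^ 2 := by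
    intro k hk
    have h1 := (abs_le.1 (hq k)).2
    have h2 := dv_sq (L := L) k
    have h0 := dv_nonneg (L := L) k
    have h3 : dv L k ^ 4 ≤ (2 * c) ^ 2 * dv L k ^ 2 := by
      rw [show dv L k ^ 4 = dv L k ^ 2 * dv L k ^ 2 by ring]
      exact mul_le_mul_of_nonneg_right (pow_le_pow_left₀ h0 hk 2) (by positivity)
    have h4 : Cq * dv L k ^ 4 ≤ Cq * ((2 * c) ^ 2 * dv L k ^ 2) :=
      mul_le_mul_of_nonneg_left h3 hCq
    have h5 : Cq * (2 * c) ^ 2 ≤ 1 / 4 := by nlinarith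
    have h6 : Cq * ((2 * c) ^ 2 * dv L k ^ 2) ≤ 1 / 4 * dv L k ^ 2 := by
      rw [← mul_assoc]; exact mul_le_mul_of_nonneg_right h5 (by positivity)
    linarith
  have inj : ∀ g h : G, dv L g ≤ c → dv L h ≤ c → (∀ a, fi L a g = fi L a h) → g = h := by
    intro g h hg hh hgh
    have h0 := dv_nonneg (L := L) h
    obtain ⟨k, hk⟩ : ∃ k, k = g * h⁻¹ := ⟨_, rfl⟩
    have hk2 : dv L k ≤ 2 * c := by
      rw [hk]; have := dv_mul (L := L) g h⁻¹; rw [dv_inv] at this; linarith
    have hkh : k * h = g := by rw [hk]; group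
    have k0 := dv_nonneg (L := L) k
    have h1 : ∀ a, fi L a k ^ 2 ≤ (dv L k * c) ^ 2 := by
      intro a
      have h2 := fi_mul (L := L) a k h
      rw [hkh, hgh a] at h2
      have h3 : |fi L a k| ≤ dv L k * c := by
        have e1 : fi L a h - fi L a k - fi L a h = -fi L a k := by ring
        rw [e1, abs_neg] at h2
        exact h2.trans (mul_le_mul_of_nonneg_left hh k0)
      rw [← sq_abs (fi L a k)]
      exact pow_le_pow_left₀ (abs_nonneg _) h3 2
    have h2 : ∑ a, fi L a k ^ 2 ≤ n * (dv L k * c) ^ 2 := by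
      calc ∑ a, fi L a k ^ 2 ≤ ∑ _a : Fin n, (dv L k * c) ^ 2 := Finset.sum_le_sum fun a _ => h1 a
        _ = _ := by rw [Finset.sum_const, Finset.card_univ, Fintype.card_fin, nsmul_eq_mul]
    have h3 := key k hk2
    have h4 : 2 * (n * c ^ 2) ≤ 1 / 2 := by nlinarith [mul_nonneg hn hc0.le]
    have h5 : dv L k ^ 2 ≤ 1 / 2 * dv L k ^ 2 := by
      calc dv L k ^ 2 ≤ 2 * (n * (dv L k * c) ^ 2) := by linarith
        _ = 2 * (n * c ^ 2) * dv L k ^ 2 := by ring
        _ ≤ _ := mul_le_mul_of_nonneg_right h4 (by positivity)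
    have h6 : dv L k ^ 2 = 0 := by nlinarith [sq_nonneg (dv L k)]
    have h7 : dv L k = 0 := by simpa using h6
    have h8 := hρ k h7
    rw [h8, one_mul] at hkh
    exact hkh.symm
  -- the inverse map
  obtain ⟨O, hO⟩ : ∃ O : Set G, ∀ g, g ∈ O ↔ dv L g ≤ c := ⟨{g | dv L g ≤ c}, fun g => Iff.rfl⟩
  have hOc : IsClosed O := by
    have : O = {g | dv L g ≤ c} := Set.ext hO
    rw [this]; exact isClosed_le dv_cont continuous_const
  have : CompactSpace O := isCompact_iff_compactSpace.1 hOc.isCompact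
  obtain ⟨φ, hφ⟩ : ∃ φ : O → Fin n → ℝ, φ = fun (g : O) a => fi L a (g : G) := ⟨_, rfl⟩
  have hφc : Continuous φ := by
    rw [hφ]; exact continuous_pi fun a => (fi_cont a).comp continuous_subtype_val
  have hφi : Function.Injective φ := by
    intro g h hgh
    rw [hφ] at hgh
    exact Subtype.ext (inj g h ((hO _).1 g.2) ((hO _).1 h.2) fun a => congrFun hgh a)
  have hφe : MeasurableEmbedding φ :=
    (hφc.isClosedEmbedding hφi).measurableEmbedding
  refine ⟨c, hc0, Function.extend φ (fun g => (g : G)) fun _ => 1,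
    hφe.measurable_extend measurable_subtype_coe measurable_const, fun g hg => ?_⟩
  have e2 : (fun a => fi L a g) = φ ⟨g, (hO g).2 hg⟩ := by rw [hφ]
  rw [e2, hφi.extend_apply]

/-- The comparison of the gauge invariant functions of the box. -/
theorem GI (hd : 3 ≤ d) (hB : S_B1) (hT : S_TR) {Cq : ℝ} (hCq : 0 ≤ Cq)
    (hq : ∀ g : G, |we L g - 1 / 2 * ∑ a, fi L a g ^ 2| ≤ Cq * dv L g ^ 4)
    (hρ : ∀ g : G, dv L g = 0 → g = 1) : ∃ C : ℝ, 0 ≤ C ∧ ∀ R : ℕ, 1 ≤ R →
    ∀ β : ℝ, 1 ≤ β → ∀ P P' : Measure (Ez d → G), Lmt μ L β P → Lmt μ L β P' → ∀ x : Fin d → ℤ,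
    ∀ (κ : Type) [Fintype κ] [DecidableEq κ] (w : κ → Pt d) (k : κ → Fin d),
    (∀ e i, w e i ≤ R) → (∀ e, w e (k e) + 1 ≤ R) → (∀ e, ∃ j < k e, 0 < w e j) →
    (∀ e e', w e = w e' → k e = k e' → e = e') →
    (∀ v i, (∀ j, v j ≤ R) → v i + 1 ≤ R → (∃ j < i, 0 < v j) → ∃ e, w e = v ∧ k e = i) →
    ∀ F : (Ez d → G) → ℝ, Measurable F → (∀ V, |F V| ≤ 1) →
    (∀ (γ : (Fin d → ℤ) → G) V,
      F (fun e => γ e.1 * V e * (γ (e.1 + Pi.single e.2 1))⁻¹) = F V) →
    (∀ V V', (∀ (v : Pt d) (i : Fin d), (∀ j, v j ≤ R) → v i + 1 ≤ R →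
      V (x + nz v, i) = V' (x + nz v, i)) → F V = F V') →
      |∫ V, F V ∂P - ∫ V, F V ∂P'| ≤ C * R ^ (3 * d + 4) / β ^ (1 / (96 * (d + 2)) : ℝ) := by
  obtain ⟨C1, hC1, h1⟩ := TV_inf μ (L := L) hd hB hT
  obtain ⟨C2, hC2, h2⟩ := dv_inf μ (L := L) (show 1 ≤ d by omega)
  obtain ⟨c, hc, Θ, hΘ, hΘc⟩ := chart (L := L) hCq hq hρ
  obtain ⟨D, hD⟩ : ∃ D : ℝ, D = 2 ^ d * d := ⟨_, rfl⟩
  have hD0 : 0 ≤ D := by rw [hD]; positivity
  refine ⟨2 * (C1 + 2 / c * (D * C2)) + 8, by positivity,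
    fun R hR β hβ P P' hP hP' x κ _ _ w k hw hk ht hinj hall F hF F1 Fg Fb => ?_⟩
  have hR1 : (1 : ℝ) ≤ R := by exact_mod_cast hR
  have hbp : 0 < β ^ (1 / (96 * (d + 2)) : ℝ) := Real.rpow_pos_of_pos (by linarith) _
  have hθ : (1 / (96 * ((d : ℝ) + 2))) ≤ 1 := by
    rw [div_le_one (by positivity)]
    have : (0 : ℝ) ≤ d := Nat.cast_nonneg _
    linarith
  have tot : ∀ Q : Measure (Ez d → G), IsProbabilityMeasure Q → |∫ V, F V ∂Q| ≤ 1 := by
    intro Q hQ
    have := norm_integral_le_of_norm_le_const (μ := Q)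
      (f := F) (C := 1) (Filter.Eventually.of_forall fun U => by
        rw [Real.norm_eq_abs]; exact F1 _)
    simpa using this
  by_cases h4 : 4 ≤ β
  · obtain ⟨Φ, hΦ⟩ : ∃ Φ : (κ × Fin n → ℝ) → ℝ, Φ = fun y =>
      F (ext x w k fun e => Θ fun a => y (e, a) / Real.sqrt β) := ⟨_, rfl⟩
    have hsβ : 0 < Real.sqrt β := Real.sqrt_pos.2 (by linarith)
    have hΦm : Measurable Φ := by
      rw [hΦ]
      refine hF.comp ((ext_meas x w k).comp (measurable_pi_lambda _ fun e => hΘ.comp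
        (measurable_pi_lambda _ fun a => (measurable_pi_apply (e, a)).div_const _)))
    have hΦ1 : ∀ y, |Φ y| ≤ 1 := fun y => by rw [hΦ]; exact F1 _
    have hpt : ∀ V, |F V - Φ (XV L β x w k V)| ≤
        2 / c * ∑ e, dv L (hol V x (pth (w e) (k e))) := by
      intro V
      by_cases hV : ∀ e, dv L (hol V x (pth (w e) (k e))) ≤ c
      · have e1 : Φ (XV L β x w k V) = F V := by
          rw [hΦ, gi_ext x w k ht hinj hall Fg Fb V]
          have e3 : (fun e => Θ fun a => XV L β x w k V (e, a) / Real.sqrt β) =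
              fun e => hol V x (pth (w e) (k e)) := by
            funext e
            have e4 : (fun a => XV L β x w k V (e, a) / Real.sqrt β) =
                fun a => fi L a (hol V x (pth (w e) (k e))) := by
              funext a
              unfold XV
              field_simp
            rw [e4, hΘc _ (hV e)]
          simp only
          rw [e3]
        rw [e1, sub_self, abs_zero]
        have : 0 ≤ ∑ e, dv L (hol V x (pth (w e) (k e))) :=
          Finset.sum_nonneg fun e _ => dv_nonneg _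
        positivity
      · push Not at hV
        obtain ⟨e, he⟩ := hV
        have e1 : c ≤ ∑ e, dv L (hol V x (pth (w e) (k e))) :=
          he.le.trans (Finset.single_le_sum (f := fun e => dv L (hol V x (pth (w e) (k e))))
            (fun e _ => dv_nonneg _) (Finset.mem_univ e))
        have e2 : |F V - Φ (XV L β x w k V)| ≤ 2 := by
          refine (abs_sub _ _).trans ?_
          linarith [F1 V, hΦ1 (XV L β x w k V)]
        refine e2.trans ?_
        calc (2 : ℝ) = 2 / c * c := by field_simp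
          _ ≤ _ := mul_le_mul_of_nonneg_left e1 (by positivity)
    have hone : ∀ Q : Measure (Ez d → G), Lmt μ L β Q →
        |∫ V, F V ∂Q - ∫ y, Φ y ∂(gau (sg0 (green d) n w k))| ≤
          (C1 + 2 / c * (D * C2)) * R ^ (3 * d + 4) / β ^ (1 / (96 * (d + 2)) : ℝ) := by
      intro Q hQ
      have hQ1 := hQ.1
      have hXm := (XV_cont (L := L) (β := β) x w k).measurable
      have i1 : Integrable F Q := Integrable.of_bound hF.aestronglyMeasurable 1
        (Filter.Eventually.of_forall fun V => by rw [Real.norm_eq_abs]; exact F1 _)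
      have i2 : Integrable (fun V => Φ (XV L β x w k V)) Q :=
        Integrable.of_bound (hΦm.comp hXm).aestronglyMeasurable 1
          (Filter.Eventually.of_forall fun V => by rw [Real.norm_eq_abs]; exact hΦ1 _)
      have i3 : ∀ e, Integrable (fun V : Ez d → G => dv L (hol V x (pth (w e) (k e)))) Q := fun e =>
        (dv_cont.comp (hol_cont x _)).integrable_of_hasCompactSupport
          (HasCompactSupport.of_compactSpace _)
      have e1 : |∫ V, F V ∂Q - ∫ V, Φ (XV L β x w k V) ∂Q| ≤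
          2 / c * (D * C2) * R ^ (3 * d + 4) / β ^ (1 / (96 * (d + 2)) : ℝ) := by
        rw [← integral_sub i1 i2]
        refine abs_integral_le_integral_abs.trans ?_
        refine (integral_mono (i1.sub i2).abs
          ((integrable_finsetSum _ fun e _ => i3 e).const_mul _) hpt).trans ?_
        rw [integral_const_mul, integral_finsetSum _ fun e _ => i3 e]
        have e2 : ∑ e, ∫ V, dv L (hol V x (pth (w e) (k e))) ∂Q ≤
            D * C2 * R ^ (3 * d + 4) / β ^ (1 / (96 * (d + 2)) : ℝ) := by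
          calc ∑ e, ∫ V, dv L (hol V x (pth (w e) (k e))) ∂Q ≤
              ∑ _e : κ, C2 * R ^ (2 * d + 1) / β ^ (1 / (96 * (d + 2)) : ℝ) :=
                Finset.sum_le_sum fun e _ => h2 R hR β h4 Q hQ x _ _ (hw e)
            _ = Fintype.card κ * (C2 * R ^ (2 * d + 1) / β ^ (1 / (96 * (d + 2)) : ℝ)) := by
                rw [Finset.sum_const, Finset.card_univ, nsmul_eq_mul]
            _ ≤ (D * R ^ d) * (C2 * R ^ (2 * d + 1) / β ^ (1 / (96 * (d + 2)) : ℝ)) := by
                refine mul_le_mul_of_nonneg_right ?_ (by positivity)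
                rw [hD]
                exact card_le hR w k hw hinj
            _ = D * C2 * R ^ (3 * d + 1) / β ^ (1 / (96 * (d + 2)) : ℝ) := by
                rw [show 3 * d + 1 = d + (2 * d + 1) by ring, pow_add]; ring
            _ ≤ _ := by
                have : (R : ℝ) ^ (3 * d + 1) ≤ R ^ (3 * d + 4) :=
                  pow_le_pow_right₀ hR1 (by omega)
                gcongr
        calc _ ≤ 2 / c * (D * C2 * R ^ (3 * d + 4) / β ^ (1 / (96 * (d + 2)) : ℝ)) :=
              mul_le_mul_of_nonneg_left e2 (by positivity)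
          _ = _ := by ring
      have e2 := h1 R hR β hβ Q hQ x κ w k hw hk ht hinj Φ hΦm hΦ1
      refine (abs_sub_le _ (∫ V, Φ (XV L β x w k V) ∂Q) _).trans ((add_le_add e1 e2).trans ?_)
      refine le_of_eq ?_
      ring
    have k1 := hone P hP
    have k2 := hone P' hP'
    rw [abs_sub_comm] at k2
    refine (abs_sub_le _ (∫ y, Φ y ∂(gau (sg0 (green d) n w k))) _).trans
      ((add_le_add k1 k2).trans ?_)
    rw [← add_div]
    refine div_le_div_of_nonneg_right ?_ hbp.le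
    have : (0 : ℝ) ≤ 8 * R ^ (3 * d + 4) := by positivity
    linarith
  · push Not at h4
    have e1 := tot P hP.1
    have e2 := tot P' hP'.1
    refine (abs_sub _ _).trans ((add_le_add e1 e2).trans ?_)
    rw [le_div_iff₀ hbp]
    have e3 : β ^ (1 / (96 * (d + 2)) : ℝ) ≤ 4 := by
      calc β ^ (1 / (96 * (d + 2)) : ℝ) ≤ β ^ (1 : ℝ) := Real.rpow_le_rpow_of_exponent_le hβ hθ
        _ = β := Real.rpow_one _
        _ ≤ 4 := h4.le
    have e4 : (1 : ℝ) ≤ R ^ (3 * d + 4) := one_le_pow₀ hR1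
    calc (1 + 1) * β ^ (1 / (96 * (d + 2)) : ℝ) ≤ (1 + 1) * 4 := by gcongr
      _ = 8 * 1 := by norm_num
      _ ≤ 8 * R ^ (3 * d + 4) := by gcongr
      _ ≤ _ := by
        refine mul_le_mul_of_nonneg_right ?_ (by positivity)
        have : 0 ≤ 2 * (C1 + 2 / c * (D * C2)) := by positivity
        linarith

end

end Pool.Agent.H991.TV
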